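import Pool.Agent.Lib_helper27.Sys

/-!
# Absoluteness for check names
-/

namespace Pool.Agent.Lib_helper27

universe u v w v'

open Fml

section

variable {P : Type w} [Preorder P] {U : Type v} {A : AtomForce P U} {M : Type v'}
  {E : M → M → Prop} {chk : M → U}

/-- The formula `φ` over the ground structure and the formula `ψ` over names have the same truth
value, decided by every condition. -/
def Abs (A : AtomForce P U) (E : M → M → Prop) (φ : Fml M) (ψ : Fml U) : Prop :=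
  ∀ p : P, Forces A p ψ ↔ Holds E φ

variable (hS : Sys A E chk)

namespace Sys

include hS

theorem mem_chk_of {p : P} {a b : M} (h : E a b) : A.mem p (chk a) (chk b) :=
  hS.mem_chk.2 (Loc.pure fun q _ => ⟨a, h, hS.eq_refl q _⟩)

theorem of_mem_chk {p : P} {a b : M} (h : A.mem p (chk a) (chk b)) : E a b := by
  obtain ⟨q, _, c, hc, hac⟩ := (hS.mem_chk.1 h).exists
  rw [hS.chk_eq hac]
  exact hc

theorem abs_mem (a b : M) : Abs A E (mem a b) (mem (chk a) (chk b)) :=
  fun _ => ⟨hS.of_mem_chk, hS.mem_chk_of⟩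

theorem abs_eq (a b : M) : Abs A E (eq a b) (eq (chk a) (chk b)) :=
  fun p => ⟨hS.chk_eq, fun h => by
    rw [holds_eq] at h
    rw [h]; exact hS.eq_refl p _⟩

omit hS in
theorem _root_.Pool.Agent.Lib_helper27.Abs.neg {φ : Fml M} {ψ : Fml U} (h : Abs A E φ ψ) :
    Abs A E (neg φ) (neg ψ) := by
  intro p
  rw [forces_neg, holds_neg]
  constructor
  · intro h1 h2
    exact h1 p le_rfl ((h p).2 h2)
  · intro h1 q _ h2
    exact h1 ((h q).1 h2)

omit hS in
theorem _root_.Pool.Agent.Lib_helper27.Abs.and {φ φ' : Fml M} {ψ ψ' : Fml U} (h : Abs A E φ ψ)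
    (h' : Abs A E φ' ψ') : Abs A E (and φ φ') (and ψ ψ') := fun p => and_congr (h p) (h' p)

omit hS in
theorem _root_.Pool.Agent.Lib_helper27.Abs.or {φ φ' : Fml M} {ψ ψ' : Fml U} (h : Abs A E φ ψ)
    (h' : Abs A E φ' ψ') : Abs A E (Fml.or φ φ') (Fml.or ψ ψ') := (h.neg.and h'.neg).neg

omit hS in
theorem _root_.Pool.Agent.Lib_helper27.Abs.imp {φ φ' : Fml M} {ψ ψ' : Fml U} (h : Abs A E φ ψ)
    (h' : Abs A E φ' ψ') : Abs A E (imp φ φ') (imp ψ ψ') := (h.and h'.neg).neg

omit hS in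
theorem _root_.Pool.Agent.Lib_helper27.Abs.iff {φ φ' : Fml M} {ψ ψ' : Fml U} (h : Abs A E φ ψ)
    (h' : Abs A E φ' ψ') : Abs A E (Fml.iff φ φ') (Fml.iff ψ ψ') := (h.imp h').and (h'.imp h)

/-- Bounded quantifiers preserve absoluteness. -/
theorem abs_ball {a : M} {φ : M → Fml M} {ψ : U → Fml U}
    (h : ∀ x, E x a → Abs A E (φ x) (ψ (chk x)))
    (hψ : ∀ (p : P) (x y : U), A.eq p x y → Fml.Rel (fun a b => A.eq p a b) (ψ x) (ψ y)) :
    Abs A E (ball a φ) (ball (chk a) ψ) := by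
  intro p
  rw [forces_ball hS.toBasic, holds_ball]
  constructor
  · intro h1 x hx
    exact (h x hx p).1 (h1 (chk x) p le_rfl (hS.mem_chk_of hx))
  · intro h1 x q _ hx
    refine Forces.dense hS.toBasic ?_
    refine (hS.mem_chk.1 hx).imp ?_
    rintro r hr ⟨b, hb, he⟩
    exact (Forces.congr hS.toBasic (hψ r _ _ he) le_rfl).2 ((h b hb r).2 (h1 b hb))

/-- Bounded quantifiers preserve absoluteness. -/
theorem abs_bex {a : M} {φ : M → Fml M} {ψ : U → Fml U}
    (h : ∀ x, E x a → Abs A E (φ x) (ψ (chk x)))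
    (hψ : ∀ (p : P) (x y : U), A.eq p x y → Fml.Rel (fun a b => A.eq p a b) (ψ x) (ψ y)) :
    Abs A E (bex a φ) (bex (chk a) ψ) := by
  intro p
  rw [forces_bex, holds_bex]
  constructor
  · intro h1
    obtain ⟨q, _, x, hx, hx'⟩ := h1.exists
    obtain ⟨r, hr, b, hb, he⟩ := (hS.mem_chk.1 hx).exists
    refine ⟨b, hb, (h b hb r).1 ?_⟩
    exact (Forces.congr hS.toBasic (hψ r _ _ he) le_rfl).1 (Forces.mono hS.toBasic hr hx')
  · rintro ⟨b, hb, h1⟩
    exact Loc.pure fun q _ => ⟨chk b, hS.mem_chk_of hb, (h b hb q).2 h1⟩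

theorem abs_isSubset (a b : M) : Abs A E (isSubset a b) (isSubset (chk a) (chk b)) :=
  hS.abs_ball (fun x _ => hS.abs_mem x b) fun p _ _ h => .mem h (hS.eq_refl p _)

theorem abs_nonempty (a : M) : Abs A E (ex fun x => mem x a) (ex fun x => mem x (chk a)) := by
  intro p
  rw [forces_ex, holds_ex]
  constructor
  · intro h1
    obtain ⟨q, _, x, hx⟩ := h1.exists
    obtain ⟨r, hr, b, hb, he⟩ := (hS.mem_chk.1 hx).exists
    exact ⟨b, hb⟩
  · rintro ⟨b, hb⟩
    exact Loc.pure fun q _ => ⟨chk b, hS.mem_chk_of hb⟩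

theorem abs_isOrd (a : M) : Abs A E (isOrd a) (isOrd (chk a)) :=
  (hS.abs_ball (fun x _ => hS.abs_isSubset x a)
      fun p _ _ h => Fml.Rel.isSubset (hS.eq_refl p) h (hS.eq_refl p _)).and
    (hS.abs_ball
      (fun x _ => hS.abs_ball
        (fun y _ => (hS.abs_mem x y).or ((hS.abs_eq x y).or (hS.abs_mem y x)))
        fun p _ _ h => .or (.mem (hS.eq_refl p _) h)
          (.or (.eq (hS.eq_refl p _) h) (.mem h (hS.eq_refl p _))))
      fun p _ _ h => Fml.Rel.ball (hS.eq_refl p) (hS.eq_refl p _) fun _ =>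
        .or (.mem h (hS.eq_refl p _)) (.or (.eq h (hS.eq_refl p _)) (.mem (hS.eq_refl p _) h)))

theorem abs_isOmega (a : M) : Abs A E (isOmega a) (isOmega (chk a)) := by
  refine (hS.abs_isOrd a).and ((hS.abs_nonempty a).and (Abs.and ?_ ?_))
  · refine hS.abs_ball (fun x _ => hS.abs_bex (fun y _ => hS.abs_mem x y) ?_) ?_
    · exact fun p _ _ h => .mem (hS.eq_refl p _) h
    · exact fun p _ _ h => Fml.Rel.bex (hS.eq_refl p) (hS.eq_refl p _)
        fun _ => .mem h (hS.eq_refl p _)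
  · refine hS.abs_ball (fun u _ => (hS.abs_nonempty u).imp (hS.abs_bex (fun x _ =>
      hS.abs_ball (fun y _ => (hS.abs_mem x y).neg) ?_) ?_)) ?_
    · exact fun p _ _ h => .neg (.mem (hS.eq_refl p _) h)
    · exact fun p _ _ h => Fml.Rel.ball (hS.eq_refl p) (hS.eq_refl p _)
        fun _ => .neg (.mem h (hS.eq_refl p _))
    · exact fun p _ _ h => .imp (.ex fun x => .mem (hS.eq_refl p _) h)
        (Fml.Rel.bex (hS.eq_refl p) h fun _ => Fml.Rel.ball (hS.eq_refl p) h fun _ =>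
          .neg (.mem (hS.eq_refl p _) (hS.eq_refl p _)))

/-- Elements of a forced pair of check names -/
theorem upair_chk_iff {p : P} {z : U} {a b : M} :
    Forces A p (isUPair z (chk a) (chk b)) ↔
      ∃ c, (∀ x, E x c ↔ x = a ∨ x = b) ∧ A.eq p z (chk c) := by
  have key : ∀ (c : M), (∀ x, E x c ↔ x = a ∨ x = b) → ∀ (q : P) (w : U),
      A.mem q w (chk c) ↔ Forces A q (Fml.or (eq w (chk a)) (eq w (chk b))) := by
    intro c hc q w
    rw [hS.mem_chk, forces_or]
    constructor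
    · intro h
      refine h.imp ?_
      rintro r _ ⟨d, hd, he⟩
      rcases (hc d).1 hd with rfl | rfl
      · exact Or.inl he
      · exact Or.inr he
    · intro h
      refine h.imp ?_
      rintro r _ (h | h)
      · exact ⟨a, (hc a).2 (Or.inl rfl), h⟩
      · exact ⟨b, (hc b).2 (Or.inr rfl), h⟩
  constructor
  · intro h
    obtain ⟨c, hc⟩ := hS.ground_pair a b
    refine ⟨c, hc, hS.ext fun w q hq => ?_⟩
    rw [key c hc]
    exact (forces_iff hS.toBasic).1 (h w) q hq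
  · rintro ⟨c, hc, he⟩ w
    rw [forces_iff hS.toBasic]
    intro q hq
    rw [← key c hc, forces_mem]
    exact ⟨hS.mem_congr (hS.eq_refl q w) (hS.eq_mono hq he),
      hS.mem_congr (hS.eq_refl q w) (hS.eq_symm (hS.eq_mono hq he))⟩

theorem abs_isUPair (c a b : M) :
    Abs A E (isUPair c a b) (isUPair (chk c) (chk a) (chk b)) := by
  intro p
  rw [hS.upair_chk_iff, holds_isUPair]
  constructor
  · rintro ⟨d, hd, he⟩
    rw [hS.chk_eq he]
    exact hd
  · intro h
    exact ⟨c, h, hS.eq_refl p _⟩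

theorem abs_isOPair (c a b : M) :
    Abs A E (isOPair c a b) (isOPair (chk c) (chk a) (chk b)) := by
  intro p
  have habs : ∀ w, Abs A E (Fml.or (isUPair w a a) (isUPair w a b))
      (Fml.or (isUPair (chk w) (chk a) (chk a)) (isUPair (chk w) (chk a) (chk b))) :=
    fun w => (hS.abs_isUPair w a a).or (hS.abs_isUPair w a b)
  constructor
  · intro h w
    exact ((hS.abs_mem w c).iff (habs w) p).1 (h (chk w))
  · intro h w
    rw [forces_iff hS.toBasic]
    intro q hq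
    have hw : ∀ v, E v c ↔ Holds E (Fml.or (isUPair v a a) (isUPair v a b)) :=
      fun v => by simpa using h v
    constructor
    · intro h1
      refine Forces.dense hS.toBasic ((hS.mem_chk.1 h1).imp ?_)
      rintro r _ ⟨d, hd, he⟩
      have := (habs d r).2 ((hw d).1 hd)
      exact (Forces.congr hS.toBasic (.or
        (Fml.Rel.isUPair (hS.eq_refl r) he (hS.eq_refl r _) (hS.eq_refl r _))
        (Fml.Rel.isUPair (hS.eq_refl r) he (hS.eq_refl r _) (hS.eq_refl r _))) le_rfl).2 this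
    · intro h1
      refine Forces.dense hS.toBasic ((forces_or.1 h1).imp ?_)
      have key : ∀ (r : P) (d : M), A.eq r w (chk d) →
          Holds E (Fml.or (isUPair d a a) (isUPair d a b)) → Forces A r (mem w (chk c)) := by
        intro r d he hd
        exact hS.mem_chk.2 (Loc.pure fun s hs => ⟨d, (hw d).2 hd, hS.eq_mono hs he⟩)
      rintro r _ (h2 | h2)
      · obtain ⟨d, hd, he⟩ := hS.upair_chk_iff.1 h2
        exact key r d he (holds_or.2 (Or.inl (holds_isUPair.2 hd)))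
      · obtain ⟨d, hd, he⟩ := hS.upair_chk_iff.1 h2
        exact key r d he (holds_or.2 (Or.inr (holds_isUPair.2 hd)))

theorem abs_app (f a b : M) : Abs A E (app f a b) (app (chk f) (chk a) (chk b)) :=
  hS.abs_bex (fun z _ => hS.abs_isOPair z a b) fun p _ _ h =>
    Fml.Rel.isOPair (hS.eq_refl p) h (hS.eq_refl p _) (hS.eq_refl p _)

theorem mem_upair_left {p : P} {z x y : U} (h : Forces A p (isUPair z x y)) : A.mem p x z := by
  have := (forces_iff hS.toBasic).1 (h x) p le_rfl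
  exact this.2 (forces_or.2 (Loc.pure fun q _ => Or.inl (hS.eq_refl q x)))

theorem mem_upair_right {p : P} {z x y : U} (h : Forces A p (isUPair z x y)) : A.mem p y z := by
  have := (forces_iff hS.toBasic).1 (h y) p le_rfl
  exact this.2 (forces_or.2 (Loc.pure fun q _ => Or.inr (hS.eq_refl q y)))

theorem opair_chk_inv {p : P} {c : M} {x y : U} (h : Forces A p (isOPair (chk c) x y)) :
    Loc p (fun q => ∃ a b, Holds E (isOPair c a b) ∧ A.eq q x (chk a) ∧ A.eq q y (chk b)) := by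
  obtain ⟨w, hw⟩ := hS.name_pair x x
  obtain ⟨v, hv⟩ := hS.name_pair x y
  have hwc : A.mem p w (chk c) := ((forces_iff hS.toBasic).1 (h w) p le_rfl).2
    (forces_or.2 (Loc.pure fun q _ => Or.inl (hw q)))
  have hvc : A.mem p v (chk c) := ((forces_iff hS.toBasic).1 (h v) p le_rfl).2
    (forces_or.2 (Loc.pure fun q _ => Or.inr (hv q)))
  refine (hS.mem_chk.1 hwc).bind ?_
  rintro q1 hq1 ⟨w', _, hw'⟩
  have hx : A.mem q1 x (chk w') := hS.mem_congr (hS.eq_refl q1 x) hw' (hS.mem_upair_left (hw q1))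
  refine (hS.mem_chk.1 hx).bind ?_
  rintro q2 hq2 ⟨a, _, ha⟩
  refine ((hS.mem_chk.1 hvc).mono (hq2.trans hq1)).bind ?_
  rintro q3 hq3 ⟨v', _, hv'⟩
  have hy : A.mem q3 y (chk v') := hS.mem_congr (hS.eq_refl q3 y) hv' (hS.mem_upair_right (hv q3))
  refine (hS.mem_chk.1 hy).imp ?_
  rintro q4 hq4 ⟨b, _, hb⟩
  have ha' := hS.eq_mono (hq4.trans hq3) ha
  refine ⟨a, b, ?_, ha', hb⟩
  refine (hS.abs_isOPair c a b q4).1 (opair_congr hS.toBasic (hS.eq_refl q4 _) ha' hb ?_)
  exact Forces.mono hS.toBasic (hq4.trans (hq3.trans (hq2.trans hq1))) h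

theorem app_chk_inv {p : P} {f : M} {x y : U} (h : Forces A p (app (chk f) x y)) :
    Loc p (fun q => ∃ a b, Holds E (app f a b) ∧ A.eq q x (chk a) ∧ A.eq q y (chk b)) := by
  refine (forces_bex.1 h).bind ?_
  rintro q1 _ ⟨z, hz, hz'⟩
  refine (hS.mem_chk.1 hz).bind ?_
  rintro q2 hq2 ⟨c, hc, he⟩
  have := opair_congr hS.toBasic he (hS.eq_refl q2 _) (hS.eq_refl q2 _)
    (Forces.mono hS.toBasic hq2 hz')
  refine (hS.opair_chk_inv this).imp ?_
  rintro q3 _ ⟨a, b, hab, ha, hb⟩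
  refine ⟨a, b, ?_, ha, hb⟩
  rw [app, holds_bex]
  exact ⟨c, hc, hab⟩

theorem forces_isFunc_chk {p : P} {f a b : M} (h : Holds E (isFunc f a b)) :
    Forces A p (isFunc (chk f) (chk a) (chk b)) := by
  obtain ⟨h1, h2, h3⟩ := h
  refine ⟨?_, ?_, ?_⟩
  · refine (hS.abs_ball (fun z _ => hS.abs_bex (fun x _ => hS.abs_bex
      (fun y _ => hS.abs_isOPair z x y) ?_) ?_) ?_ p).2 h1
    · exact fun p _ _ h => Fml.Rel.isOPair (hS.eq_refl p) (hS.eq_refl p _) (hS.eq_refl p _) h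
    · exact fun p _ _ h => Fml.Rel.bex (hS.eq_refl p) (hS.eq_refl p _)
        fun _ => Fml.Rel.isOPair (hS.eq_refl p) (hS.eq_refl p _) h (hS.eq_refl p _)
    · exact fun p _ _ h => Fml.Rel.bex (hS.eq_refl p) (hS.eq_refl p _)
        fun _ => Fml.Rel.bex (hS.eq_refl p) (hS.eq_refl p _)
        fun _ => Fml.Rel.isOPair (hS.eq_refl p) h (hS.eq_refl p _) (hS.eq_refl p _)
  · refine (hS.abs_ball (fun x _ => hS.abs_bex (fun y _ => hS.abs_app f x y) ?_) ?_ p).2 h2
    · exact fun p _ _ h => Fml.Rel.app (hS.eq_refl p) (hS.eq_refl p _) (hS.eq_refl p _) h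
    · exact fun p _ _ h => Fml.Rel.bex (hS.eq_refl p) (hS.eq_refl p _)
        fun _ => Fml.Rel.app (hS.eq_refl p) (hS.eq_refl p _) h (hS.eq_refl p _)
  · intro x y y'
    rw [forces_imp hS.toBasic]
    rintro q _ ⟨h4, h5⟩
    refine Forces.dense hS.toBasic ((hS.app_chk_inv h4).bind ?_)
    rintro r hr ⟨a1, b1, hab, ha, hb⟩
    refine ((hS.app_chk_inv h5).mono hr).imp ?_
    rintro s hs ⟨a2, b2, hab', ha', hb'⟩
    have e1 : a1 = a2 := hS.chk_eq (hS.eq_trans (hS.eq_symm (hS.eq_mono hs ha)) ha')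
    subst e1
    have e2 : b1 = b2 := by simpa using (holds_imp.1 (h3 a1 b1 b2)) ⟨hab, hab'⟩
    subst e2
    exact hS.eq_trans (hS.eq_mono hs hb) (hS.eq_symm hb')

theorem forces_isInj_chk {p : P} {f a b : M} (h : Holds E (isInj f a b)) :
    Forces A p (isInj (chk f) (chk a) (chk b)) := by
  obtain ⟨h1, h3⟩ := h
  refine ⟨hS.forces_isFunc_chk h1, ?_⟩
  intro x x' y
  rw [forces_imp hS.toBasic]
  rintro q _ ⟨h4, h5⟩
  refine Forces.dense hS.toBasic ((hS.app_chk_inv h4).bind ?_)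
  rintro r hr ⟨a1, b1, hab, ha, hb⟩
  refine ((hS.app_chk_inv h5).mono hr).imp ?_
  rintro s hs ⟨a2, b2, hab', ha', hb'⟩
  have e1 : b1 = b2 := hS.chk_eq (hS.eq_trans (hS.eq_symm (hS.eq_mono hs hb)) hb')
  subst e1
  have e2 : a1 = a2 := by simpa using (holds_imp.1 (h3 a1 a2 b1)) ⟨hab, hab'⟩
  subst e2
  exact hS.eq_trans (hS.eq_mono hs ha) (hS.eq_symm ha')

end Sys

end

end Pool.Agent.Lib_helper27
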