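import Pool.Agent.Lib_helper27.Fml

/-!
# Calculus of the forcing relation
-/

namespace Pool.Agent.Lib_helper27

universe u v w

open Fml

/-- Basic properties of an atomic forcing relation. -/
structure AtomForce.Basic {P : Type w} [Preorder P] {U : Type v} (A : AtomForce P U) : Prop where
  eq_refl : ∀ p x, A.eq p x x
  eq_symm : ∀ {p x y}, A.eq p x y → A.eq p y x
  eq_trans : ∀ {p x y z}, A.eq p x y → A.eq p y z → A.eq p x z
  eq_mono : ∀ {p q x y}, q ≤ p → A.eq p x y → A.eq q x y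
  mem_mono : ∀ {p q x y}, q ≤ p → A.mem p x y → A.mem q x y
  eq_dense : ∀ {p x y}, (∀ q, q ≤ p → ∃ r, r ≤ q ∧ A.eq r x y) → A.eq p x y
  mem_dense : ∀ {p x y}, (∀ q, q ≤ p → ∃ r, r ≤ q ∧ A.mem r x y) → A.mem p x y
  mem_congr : ∀ {p x x' y y'}, A.eq p x x' → A.eq p y y' → A.mem p x y → A.mem p x' y'
  ext : ∀ {p x y}, (∀ z, ∀ q, q ≤ p → (A.mem q z x ↔ A.mem q z y)) → A.eq p x y

/-- `Loc p Q`: the conditions satisfying `Q` are dense below `p`. -/
def Loc {P : Type w} [LE P] (p : P) (Q : P → Prop) : Prop := ∀ q, q ≤ p → ∃ r, r ≤ q ∧ Q r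

section

variable {P : Type w} [Preorder P] {U : Type v} {A : AtomForce P U}

theorem Loc.mono {p q : P} {Q : P → Prop} (h : Loc p Q) (hq : q ≤ p) : Loc q Q :=
  fun r hr => h r (hr.trans hq)

theorem Loc.imp {p : P} {Q R : P → Prop} (h : Loc p Q) (hQR : ∀ q, q ≤ p → Q q → R q) : Loc p R := by
  intro q hq
  obtain ⟨r, hr, hQ⟩ := h q hq
  exact ⟨r, hr, hQR r (hr.trans hq) hQ⟩

theorem Loc.pure {p : P} {Q : P → Prop} (h : ∀ q, q ≤ p → Q q) : Loc p Q :=
  fun q hq => ⟨q, le_rfl, h q hq⟩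

theorem Loc.bind {p : P} {Q R : P → Prop} (h : Loc p Q) (hQR : ∀ q, q ≤ p → Q q → Loc q R) :
    Loc p R := by
  intro q hq
  obtain ⟨r, hr, hQ⟩ := h q hq
  obtain ⟨s, hs, hR⟩ := hQR r (hr.trans hq) hQ r le_rfl
  exact ⟨s, hs.trans hr, hR⟩

theorem Loc.exists {p : P} {Q : P → Prop} (h : Loc p Q) : ∃ q, q ≤ p ∧ Q q := h p le_rfl

theorem Loc.const {p : P} {Q : Prop} (h : Loc p (fun _ => Q)) : Q := by
  obtain ⟨_, _, h⟩ := h.exists
  exact h

variable (hA : A.Basic)

include hA in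
theorem Forces.mono {φ : Fml U} {p q : P} (hq : q ≤ p) (h : Forces A p φ) : Forces A q φ := by
  induction φ generalizing p q with
  | mem x y => exact hA.mem_mono hq h
  | eq x y => exact hA.eq_mono hq h
  | neg φ _ => exact fun r hr => h r (hr.trans hq)
  | and φ ψ ih1 ih2 => exact ⟨ih1 hq h.1, ih2 hq h.2⟩
  | all φ ih => exact fun x => ih x hq (h x)

include hA in
theorem Forces.dense {φ : Fml U} {p : P} (h : Loc p (fun q => Forces A q φ)) : Forces A p φ := by
  induction φ generalizing p with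
  | mem x y => exact hA.mem_dense h
  | eq x y => exact hA.eq_dense h
  | neg φ _ =>
    intro r hr hφ
    obtain ⟨s, hs, h'⟩ := h r hr
    exact h' s le_rfl (Forces.mono hA hs hφ)
  | and φ ψ ih1 ih2 => exact ⟨ih1 (h.imp fun _ _ h => h.1), ih2 (h.imp fun _ _ h => h.2)⟩
  | all φ ih => exact fun x => ih x (h.imp fun _ _ h => h x)

theorem forces_neg {φ : Fml U} {p : P} :
    Forces A p (neg φ) ↔ ∀ q, q ≤ p → ¬ Forces A q φ := Iff.rfl

theorem forces_and {φ ψ : Fml U} {p : P} :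
    Forces A p (and φ ψ) ↔ Forces A p φ ∧ Forces A p ψ := Iff.rfl

theorem forces_all {φ : U → Fml U} {p : P} :
    Forces A p (all φ) ↔ ∀ x, Forces A p (φ x) := Iff.rfl

theorem forces_mem {x y : U} {p : P} : Forces A p (mem x y) ↔ A.mem p x y := Iff.rfl

theorem forces_eq {x y : U} {p : P} : Forces A p (eq x y) ↔ A.eq p x y := Iff.rfl

theorem forces_ex {φ : U → Fml U} {p : P} :
    Forces A p (ex φ) ↔ Loc p (fun r => ∃ x, Forces A r (φ x)) := by
  simp only [ex, forces_neg, forces_all]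
  constructor
  · intro h q hq
    have := h q hq
    push Not at this
    obtain ⟨x, r, hr, hx⟩ := this
    exact ⟨r, hr, x, hx⟩
  · intro h q hq h'
    obtain ⟨r, hr, x, hx⟩ := h q hq
    exact h' x r hr hx

include hA in
theorem forces_imp {φ ψ : Fml U} {p : P} :
    Forces A p (imp φ ψ) ↔ ∀ q, q ≤ p → Forces A q φ → Forces A q ψ := by
  simp only [imp, forces_neg, forces_and]
  constructor
  · intro h q hq hφ
    refine Forces.dense hA ?_
    intro r hr
    by_contra hcon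
    push Not at hcon
    exact h r (hr.trans hq) ⟨Forces.mono hA hr hφ, fun s hs hψ => hcon s hs hψ⟩
  · rintro h q hq ⟨h1, h2⟩
    exact h2 q le_rfl (h q hq h1)

theorem forces_or {φ ψ : Fml U} {p : P} :
    Forces A p (or φ ψ) ↔ Loc p (fun r => Forces A r φ ∨ Forces A r ψ) := by
  simp only [Fml.or, forces_neg, forces_and]
  constructor
  · intro h q hq
    have := h q hq
    rw [not_and_or] at this
    push Not at this
    rcases this with ⟨r, hr, h⟩ | ⟨r, hr, h⟩
    · exact ⟨r, hr, Or.inl h⟩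
    · exact ⟨r, hr, Or.inr h⟩
  · rintro h q hq ⟨h1, h2⟩
    obtain ⟨r, hr, h | h⟩ := h q hq
    · exact h1 r hr h
    · exact h2 r hr h

include hA in
theorem forces_iff {φ ψ : Fml U} {p : P} :
    Forces A p (iff φ ψ) ↔ ∀ q, q ≤ p → (Forces A q φ ↔ Forces A q ψ) := by
  simp only [Fml.iff, forces_and, forces_imp hA]
  constructor
  · rintro ⟨h1, h2⟩ q hq
    exact ⟨h1 q hq, h2 q hq⟩
  · intro h
    exact ⟨fun q hq => (h q hq).1, fun q hq => (h q hq).2⟩

include hA in
theorem forces_ball {a : U} {φ : U → Fml U} {p : P} :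
    Forces A p (ball a φ) ↔ ∀ x, ∀ q, q ≤ p → A.mem q x a → Forces A q (φ x) := by
  simp only [ball, forces_all, forces_imp hA, forces_mem]

theorem forces_bex {a : U} {φ : U → Fml U} {p : P} :
    Forces A p (bex a φ) ↔ Loc p (fun r => ∃ x, A.mem r x a ∧ Forces A r (φ x)) := by
  simp only [bex, forces_ex, forces_and, forces_mem]

/-- Two formulas are related by `r` if they are built in the same way from `r`-related
parameters. -/
inductive Fml.Rel (r : U → U → Prop) : Fml U → Fml U → Prop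
  | mem {x x' y y'} : r x x' → r y y' → Fml.Rel r (.mem x y) (.mem x' y')
  | eq {x x' y y'} : r x x' → r y y' → Fml.Rel r (.eq x y) (.eq x' y')
  | neg {φ φ'} : Fml.Rel r φ φ' → Fml.Rel r (.neg φ) (.neg φ')
  | and {φ φ' ψ ψ'} : Fml.Rel r φ φ' → Fml.Rel r ψ ψ' → Fml.Rel r (.and φ ψ) (.and φ' ψ')
  | all {φ φ'} : (∀ x, Fml.Rel r (φ x) (φ' x)) → Fml.Rel r (.all φ) (.all φ')

include hA in
theorem Forces.congr {p : P} {φ φ' : Fml U} (h : Fml.Rel (fun x y => A.eq p x y) φ φ')
    {q : P} (hq : q ≤ p) : Forces A q φ ↔ Forces A q φ' := by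
  induction h generalizing q with
  | mem h1 h2 =>
    have h1' := hA.eq_mono hq h1
    have h2' := hA.eq_mono hq h2
    exact ⟨fun h => hA.mem_congr h1' h2' h, fun h => hA.mem_congr (hA.eq_symm h1') (hA.eq_symm h2') h⟩
  | eq h1 h2 =>
    have h1' := hA.eq_mono hq h1
    have h2' := hA.eq_mono hq h2
    exact ⟨fun h => hA.eq_trans (hA.eq_symm h1') (hA.eq_trans h h2'),
      fun h => hA.eq_trans h1' (hA.eq_trans h (hA.eq_symm h2'))⟩
  | neg _ ih =>
    exact ⟨fun h r hr h' => h r hr ((ih (hr.trans hq)).2 h'),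
      fun h r hr h' => h r hr ((ih (hr.trans hq)).1 h')⟩
  | and _ _ ih1 ih2 => exact and_congr (ih1 hq) (ih2 hq)
  | all _ ih => exact forall_congr' fun x => ih x hq

end

end Pool.Agent.Lib_helper27
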