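import Pool.Agent.Lib_helper27.Found

/-!
# Finite sets, Hessenberg's theorem and unions inside a model of ZFC
-/

set_option linter.unusedSectionVars false
set_option linter.unusedVariables false

namespace Pool.Agent.Lib_helper27

universe u v w v'

namespace ST

variable {M : Type u} [SetStr M] [ZFC M]

theorem succ_inj {x y : M} (h : succ x = succ y) : x = y := by
  have h1 : x ∈ succ y := h ▸ mem_succ.2 (Or.inr rfl)
  have h2 : y ∈ succ x := h ▸ mem_succ.2 (Or.inr rfl)
  rcases mem_succ.1 h1 with h1 | h1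
  · rcases mem_succ.1 h2 with h2 | h2
    · exact (mem_asymm h1 h2).elim
    · exact h2.symm
  · exact h1

theorem not_inj_omega {n : M} (hn : n ∈ (omega : M)) : ¬ Inj omega n := by
  refine omega_induction (Φ := fun n => ¬ Inj omega n) (by fun_prop) ?_ ?_ hn
  · intro h
    obtain ⟨φ, _, h1, _⟩ := h.exists_fun
    exact not_mem_empty _ (h1 _ empty_mem_omega)
  · intro n hn ih h
    obtain ⟨φ, hφ, h1, h2⟩ := h.exists_fun
    by_cases hk : ∃ k, k ∈ (omega : M) ∧ φ k = n
    · obtain ⟨k, hk, hkn⟩ := hk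
      have hkord := isOrd_omega.mem hk
      refine ih (Inj.of_fun (φ := fun j => open Classical in if j ∈ k then φ j else φ (succ j))
        (Dbl_ite (by fun_prop) hφ (by fun_prop)) ?_ ?_)
      · intro j hj
        by_cases hjk : j ∈ k
        · rw [if_pos hjk]
          rcases mem_succ.1 (h1 j hj) with h3 | h3
          · exact h3
          · have := h2 j hj k hk (h3.trans hkn.symm)
            subst this
            exact (mem_irrefl _ hjk).elim
        · rw [if_neg hjk]
          rcases mem_succ.1 (h1 _ (succ_mem_omega hj)) with h3 | h3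
          · exact h3
          · have := h2 _ (succ_mem_omega hj) k hk (h3.trans hkn.symm)
            subst this
            exact (hjk (mem_succ.2 (Or.inr rfl))).elim
      · intro j hj j' hj' he
        by_cases hjk : j ∈ k
        · by_cases hjk' : j' ∈ k
          · rw [if_pos hjk, if_pos hjk'] at he
            exact h2 j hj j' hj' he
          · rw [if_pos hjk, if_neg hjk'] at he
            have := h2 j hj _ (succ_mem_omega hj') he
            subst this
            exact (hjk' (hkord.trans hjk (mem_succ.2 (Or.inr rfl)))).elim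
        · by_cases hjk' : j' ∈ k
          · rw [if_neg hjk, if_pos hjk'] at he
            have := h2 _ (succ_mem_omega hj) j' hj' he
            subst this
            exact (hjk (hkord.trans hjk' (mem_succ.2 (Or.inr rfl)))).elim
          · rw [if_neg hjk, if_neg hjk'] at he
            exact succ_inj (h2 _ (succ_mem_omega hj) _ (succ_mem_omega hj') he)
    · push Not at hk
      refine ih (Inj.of_fun hφ (fun j hj => ?_) h2)
      rcases mem_succ.1 (h1 j hj) with h3 | h3
      · exact h3
      · exact (hk j hj h3).elim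

/-! ### Finite sets -/

/-- finite sets -/
def Fin (x : M) : Prop := ∃ n, n ∈ (omega : M) ∧ Inj x n

@[fun_prop]
theorem dbl_fin {Γ : Type v} [Ctx M Γ] {f : Γ → M} (hf : Dbl M f) :
    Dbl M (fun γ => Fin (f γ)) := by
  unfold Fin
  fun_prop

theorem Fin.of_inj {x y : M} (h : Inj x y) (hy : Fin y) : Fin x := by
  obtain ⟨n, hn, h'⟩ := hy
  exact ⟨n, hn, h.trans h'⟩

theorem fin_empty : Fin (empty : M) :=
  ⟨empty, empty_mem_omega, Inj.refl _⟩

theorem Fin.insert {x a : M} (h : Fin x) : Fin (union x (upair a a)) := by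
  obtain ⟨n, hn, h⟩ := h
  obtain ⟨φ, hφ, h1, h2⟩ := h.exists_fun
  refine ⟨succ n, succ_mem_omega hn, Inj.of_fun (φ := fun z => open Classical in
    if z ∈ x then φ z else n) (Dbl_ite (by fun_prop) hφ (by fun_prop)) ?_ ?_⟩
  · intro z hz
    by_cases hzx : z ∈ x
    · rw [if_pos hzx]
      exact mem_succ.2 (Or.inl (h1 z hzx))
    · rw [if_neg hzx]
      exact mem_succ.2 (Or.inr rfl)
  · intro z hz z' hz' he
    simp only [mem_union, mem_upair, or_self] at hz hz'
    by_cases hzx : z ∈ x
    · by_cases hzx' : z' ∈ x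
      · rw [if_pos hzx, if_pos hzx'] at he
        exact h2 z hzx z' hzx' he
      · rw [if_pos hzx, if_neg hzx'] at he
        exact (mem_irrefl n (he ▸ h1 z hzx)).elim
    · by_cases hzx' : z' ∈ x
      · rw [if_neg hzx, if_pos hzx'] at he
        exact (mem_irrefl n (he.symm ▸ h1 z' hzx')).elim
      · rcases hz with hz | hz
        · exact (hzx hz).elim
        · rcases hz' with hz' | hz'
          · exact (hzx' hz').elim
          · rw [hz, hz']

/-- Induction on finite sets -/
theorem fin_induction {Φ : M → Prop} (hΦ : Dbl M Φ) (h0 : Φ empty)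
    (h1 : ∀ x a, Fin x → ¬ a ∈ x → Φ x → Φ (union x (upair a a))) {x : M} (hx : Fin x) : Φ x := by
  obtain ⟨n, hn, hxn⟩ := hx
  refine omega_induction (Φ := fun n => ∀ x, Inj x n → Φ x) (by fun_prop) ?_ ?_ hn x hxn
  · intro x hx
    obtain ⟨φ, _, h2, _⟩ := hx.exists_fun
    have : x = empty := eq_empty_iff.2 fun y hy => not_mem_empty _ (h2 y hy)
    rw [this]
    exact h0
  · intro n hn ih x hx
    obtain ⟨φ, hφ, h2, h3⟩ := hx.exists_fun
    by_cases ha : ∃ a, a ∈ x ∧ φ a = n
    · obtain ⟨a, ha, han⟩ := ha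
      obtain ⟨x', hx'⟩ := sep_exists (D := fun z => z ≠ a) (by fun_prop) x
      have hinj : Inj x' n := by
        refine Inj.of_fun hφ (fun z hz => ?_) fun z hz z' hz' he => ?_
        · obtain ⟨hz, hza⟩ := (hx' z).1 hz
          rcases mem_succ.1 (h2 z hz) with h4 | h4
          · exact h4
          · exact (hza (h3 z hz a ha (h4.trans han.symm))).elim
        · exact h3 z ((hx' z).1 hz).1 z' ((hx' z').1 hz').1 he
      have hxx : x = union x' (upair a a) := by
        refine ext fun z => ?_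
        rw [mem_union, mem_upair, hx' z]
        constructor
        · intro hz
          by_cases hza : z = a
          · exact Or.inr (Or.inl hza)
          · exact Or.inl ⟨hz, hza⟩
        · rintro (h | rfl | rfl)
          · exact h.1
          · exact ha
          · exact ha
      rw [hxx]
      refine h1 x' a ⟨n, hn, hinj⟩ (fun h => ((hx' a).1 h).2 rfl) (ih x' hinj)
    · push Not at ha
      refine ih x (Inj.of_fun hφ (fun z hz => ?_) h3)
      rcases mem_succ.1 (h2 z hz) with h4 | h4
      · exact h4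
      · exact (ha z hz h4).elim

theorem Fin.union {x y : M} (hx : Fin x) (hy : Fin y) : Fin (union x y) := by
  refine fin_induction (Φ := fun y => Fin (ST.union x y)) (by fun_prop) ?_ ?_ hy
  · have : ST.union x empty = x := ext fun z => by simp [not_mem_empty]
    rw [this]
    exact hx
  · intro y a _ _ ih
    have : ST.union x (ST.union y (upair a a)) = ST.union (ST.union x y) (upair a a) :=
      ext fun z => by simp only [mem_union]; tauto
    rw [this]
    exact ih.insert

theorem Fin.prod {x y : M} (hx : Fin x) (hy : Fin y) : Fin (prod x y) := by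
  refine fin_induction (Φ := fun x => Fin (ST.prod x y)) (by fun_prop) ?_ ?_ hx
  · have : ST.prod empty y = empty := eq_empty_iff.2 fun z hz => by
      obtain ⟨a, ha, _⟩ := mem_prod.1 hz
      exact not_mem_empty a ha
    rw [this]
    exact fin_empty
  · intro x a _ _ ih
    have h1 : ST.prod (ST.union x (upair a a)) y =
        ST.union (ST.prod x y) (ST.prod (upair a a) y) := by
      refine ext fun z => ?_
      simp only [mem_union, mem_prod, mem_upair, or_self]
      constructor
      · rintro ⟨b, hb | hb, c, hc, rfl⟩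
        · exact Or.inl ⟨b, hb, c, hc, rfl⟩
        · exact Or.inr ⟨b, hb, c, hc, rfl⟩
      · rintro (⟨b, hb, c, hc, rfl⟩ | ⟨b, hb, c, hc, rfl⟩)
        · exact ⟨b, Or.inl hb, c, hc, rfl⟩
        · exact ⟨b, Or.inr hb, c, hc, rfl⟩
    rw [h1]
    refine ih.union (Fin.of_inj (y := y) (Inj.of_fun (φ := sndp) (by fun_prop) ?_ ?_) hy)
    · intro z hz
      obtain ⟨b, hb, c, hc, rfl⟩ := mem_prod.1 hz
      simpa using hc
    · intro z hz z' hz' he
      obtain ⟨b, hb, c, hc, rfl⟩ := mem_prod.1 hz
      obtain ⟨b', hb', c', hc', rfl⟩ := mem_prod.1 hz'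
      have hb : b = a := by simpa using hb
      have hb' : b' = a := by simpa using hb'
      simp only [sndp_opair] at he
      rw [hb, hb', he]

theorem not_inj_omega_fin {x : M} (hx : Fin x) : ¬ Inj omega x := by
  rintro h
  obtain ⟨n, hn, h'⟩ := hx
  exact not_inj_omega hn (h.trans h')

/-! ### Hessenberg's theorem -/

/-- infinite ordinals -/
def InfOrd (b : M) : Prop := IsOrd b ∧ ∀ x, x ∈ (omega : M) → x ∈ b

@[fun_prop]
theorem dbl_infOrd {Γ : Type v} [Ctx M Γ] {f : Γ → M} (hf : Dbl M f) :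
    Dbl M (fun γ => InfOrd (f γ)) := by
  unfold InfOrd
  fun_prop

theorem infOrd_omega : InfOrd (omega : M) := ⟨isOrd_omega, fun _ h => h⟩

theorem IsOrd.inf_or_nat {b : M} (hb : IsOrd b) : InfOrd b ∨ b ∈ (omega : M) := by
  rcases hb.tri' isOrd_omega with h | rfl | h
  · exact Or.inr h
  · exact Or.inl infOrd_omega
  · exact Or.inl ⟨hb, fun x hx => hb.trans h hx⟩

theorem InfOrd.succ_inj {c : M} (h : InfOrd c) : Inj (succ c) c := by
  have he : (empty : M) ∈ c := h.2 _ empty_mem_omega
  have hn : ¬ c ∈ (omega : M) := fun hc => mem_irrefl _ (h.2 c hc)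
  refine Inj.of_fun (φ := fun x => open Classical in if x = c then empty else
    (if x ∈ (omega : M) then succ x else x)) (Dbl_ite (by fun_prop) (by fun_prop)
      (Dbl_ite (by fun_prop) (by fun_prop) (by fun_prop))) ?_ ?_
  · intro x hx
    by_cases h1 : x = c
    · rw [if_pos h1]; exact he
    · rw [if_neg h1]
      by_cases h2 : x ∈ (omega : M)
      · rw [if_pos h2]; exact h.2 _ (succ_mem_omega h2)
      · rw [if_neg h2]
        exact (mem_succ.1 hx).resolve_right h1
  · intro x hx y hy
    by_cases h1 : x = c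
    · rw [if_pos h1]
      by_cases h2 : y = c
      · intro _; rw [h1, h2]
      · rw [if_neg h2]
        by_cases h3 : y ∈ (omega : M)
        · rw [if_pos h3]
          intro he
          have : y ∈ (empty : M) := he ▸ mem_succ.2 (Or.inr rfl)
          exact (not_mem_empty _ this).elim
        · rw [if_neg h3]
          rintro rfl
          exact (h3 empty_mem_omega).elim
    · rw [if_neg h1]
      by_cases h2 : y = c
      · rw [if_pos h2]
        by_cases h3 : x ∈ (omega : M)
        · rw [if_pos h3]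
          intro he
          have : x ∈ (empty : M) := he ▸ mem_succ.2 (Or.inr rfl)
          exact (not_mem_empty _ this).elim
        · rw [if_neg h3]
          rintro rfl
          exact (h3 empty_mem_omega).elim
      · rw [if_neg h2]
        by_cases h3 : x ∈ (omega : M)
        · rw [if_pos h3]
          by_cases h4 : y ∈ (omega : M)
          · rw [if_pos h4]
            exact fun h => ST.succ_inj h
          · rw [if_neg h4]
            rintro rfl
            exact (h4 (succ_mem_omega h3)).elim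
        · rw [if_neg h3]
          by_cases h4 : y ∈ (omega : M)
          · rw [if_pos h4]
            rintro rfl
            exact (h3 (succ_mem_omega h4)).elim
          · rw [if_neg h4]
            exact fun h => h

theorem Inj.prod {a b c d : M} (h : Inj a b) (h' : Inj c d) : Inj (prod a c) (prod b d) := by
  obtain ⟨φ, hφ, h1, h2⟩ := h.exists_fun
  obtain ⟨ψ, hψ, h3, h4⟩ := h'.exists_fun
  refine Inj.of_fun (φ := fun z => opair (φ (fstp z)) (ψ (sndp z))) (by fun_prop) ?_ ?_
  · intro z hz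
    obtain ⟨x, hx, y, hy, rfl⟩ := mem_prod.1 hz
    simp only [fstp_opair, sndp_opair, opair_mem_prod]
    exact ⟨h1 x hx, h3 y hy⟩
  · intro z hz z' hz' he
    obtain ⟨x, hx, y, hy, rfl⟩ := mem_prod.1 hz
    obtain ⟨x', hx', y', hy', rfl⟩ := mem_prod.1 hz'
    simp only [fstp_opair, sndp_opair, opair_inj] at he ⊢
    exact ⟨h2 x hx x' hx' he.1, h4 y hy y' hy' he.2⟩

/-- The maximum of a pair of ordinals. -/
noncomputable def mx (z : M) : M := union (fstp z) (sndp z)

/-- Gödel's ordering of pairs. -/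
def glt (z w : M) : Prop :=
  mx z ∈ mx w ∨ (mx z = mx w ∧ (fstp z ∈ fstp w ∨ (fstp z = fstp w ∧ sndp z ∈ sndp w)))

theorem mx_mem {b x y : M} (hb : IsOrd b) (hx : x ∈ b) (hy : y ∈ b) : mx (opair x y) ∈ b ∧
    x ∈ succ (mx (opair x y)) ∧ y ∈ succ (mx (opair x y)) := by
  have hx' := hb.mem hx
  have hy' := hb.mem hy
  have key : union x y = x ∨ union x y = y := by
    rcases hx'.tri' hy' with h | h | h
    · right
      refine ext fun z => ?_
      rw [mem_union]
      exact ⟨fun hz => hz.elim (fun hz => hy'.trans h hz) id, Or.inr⟩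
    · right
      subst h
      exact ext fun z => by simp
    · left
      refine ext fun z => ?_
      rw [mem_union]
      exact ⟨fun hz => hz.elim id (fun hz => hx'.trans h hz), Or.inl⟩
  have hsub : ∀ z, IsOrd z → (∀ w, w ∈ z → w ∈ union x y) → z ∈ succ (union x y) := by
    intro z hz hzs
    have hu : IsOrd (union x y) := by
      rcases key with h | h <;> rw [h] <;> assumption
    rw [mem_succ]
    exact (hz.subset_iff hu).1 hzs
  simp only [mx, fstp_opair, sndp_opair]
  refine ⟨?_, hsub x hx' fun w hw => mem_union.2 (Or.inl hw),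
    hsub y hy' fun w hw => mem_union.2 (Or.inr hw)⟩
  rcases key with h | h <;> rw [h] <;> assumption

theorem wf_glt {b : M} (hb : IsOrd b) : WF (prod b b) (glt : M → M → Prop) where
  dbl := by unfold glt mx; fun_prop
  trans := by
    intro x y z hx hy hz hxy hyz
    obtain ⟨x1, hx1, x2, hx2, rfl⟩ := mem_prod.1 hx
    obtain ⟨y1, hy1, y2, hy2, rfl⟩ := mem_prod.1 hy
    obtain ⟨z1, hz1, z2, hz2, rfl⟩ := mem_prod.1 hz
    have hz' := (hb.mem (mx_mem hb hz1 hz2).1)
    simp only [glt, fstp_opair, sndp_opair] at hxy hyz ⊢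
    rcases hxy with h1 | ⟨h1, h2⟩
    · rcases hyz with h3 | ⟨h3, h4⟩
      · exact Or.inl (hz'.trans h3 h1)
      · rw [h3] at h1
        exact Or.inl h1
    · rcases hyz with h3 | ⟨h3, h4⟩
      · rw [← h1] at h3
        exact Or.inl h3
      · refine Or.inr ⟨h1.trans h3, ?_⟩
        rcases h2 with h2 | ⟨h2, h5⟩
        · rcases h4 with h4 | ⟨h4, h6⟩
          · exact Or.inl ((hb.mem hz1).trans h4 h2)
          · rw [h4] at h2
            exact Or.inl h2
        · rcases h4 with h4 | ⟨h4, h6⟩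
          · rw [← h2] at h4
            exact Or.inl h4
          · exact Or.inr ⟨h2.trans h4, (hb.mem hz2).trans h6 h5⟩
  wf := by
    intro S hS ⟨s, hs⟩
    have hmx : Dbl M (mx : M → M) := by unfold mx; fun_prop
    have hSo : ∀ z, z ∈ S → IsOrd (mx z) ∧ IsOrd (fstp z) ∧ IsOrd (sndp z) := by
      intro z hz
      obtain ⟨z1, hz1, z2, hz2, rfl⟩ := mem_prod.1 (hS z hz)
      simp only [fstp_opair, sndp_opair]
      exact ⟨hb.mem (mx_mem hb hz1 hz2).1, hb.mem hz1, hb.mem hz2⟩
    obtain ⟨μ, hμ, ⟨s1, hs1, hs1'⟩, hmin1⟩ := exists_least (Φ := fun μ => ∃ z, z ∈ S ∧ mx z = μ)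
      (by fun_prop) (hSo s hs).1 ⟨s, hs, rfl⟩
    obtain ⟨α, hα, ⟨s2, hs2, hs2', hs2''⟩, hmin2⟩ := exists_least
      (Φ := fun α => ∃ z, z ∈ S ∧ mx z = μ ∧ fstp z = α)
      (by fun_prop) (hSo s1 hs1).2.1 ⟨s1, hs1, hs1', rfl⟩
    obtain ⟨β, hβ, ⟨s3, hs3, hs3', hs3'', hs3'''⟩, hmin3⟩ := exists_least
      (Φ := fun β => ∃ z, z ∈ S ∧ mx z = μ ∧ fstp z = α ∧ sndp z = β)
      (by fun_prop) (hSo s2 hs2).2.2 ⟨s2, hs2, hs2', hs2'', rfl⟩
    refine ⟨s3, hs3, fun y hy hlt => ?_⟩
    rcases hlt with h | ⟨h1, h | ⟨h2, h3⟩⟩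
    · rw [hs3'] at h
      exact hmin1 _ h ⟨y, hy, rfl⟩
    · rw [hs3''] at h
      exact hmin2 _ h ⟨y, hy, h1.trans hs3', rfl⟩
    · rw [hs3'''] at h3
      exact hmin3 _ h3 ⟨y, hy, h1.trans hs3', h2.trans hs3'', rfl⟩

theorem glt_cmp {b : M} (hb : IsOrd b) {z w : M} (hz : z ∈ prod b b) (hw : w ∈ prod b b) :
    Cmp glt z w := by
  obtain ⟨z1, hz1, z2, hz2, rfl⟩ := mem_prod.1 hz
  obtain ⟨w1, hw1, w2, hw2, rfl⟩ := mem_prod.1 hw
  unfold Cmp glt
  simp only [fstp_opair, sndp_opair]
  rcases hb.tri (mx_mem hb hz1 hz2).1 (mx_mem hb hw1 hw2).1 with h | h | h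
  · exact Or.inl (Or.inl h)
  · rcases hb.tri hz1 hw1 with h1 | h1 | h1
    · exact Or.inl (Or.inr ⟨h, Or.inl h1⟩)
    · rcases hb.tri hz2 hw2 with h2 | h2 | h2
      · exact Or.inl (Or.inr ⟨h, Or.inr ⟨h1, h2⟩⟩)
      · exact Or.inr (Or.inl (by rw [h1, h2]))
      · exact Or.inr (Or.inr (Or.inr ⟨h.symm, Or.inr ⟨h1.symm, h2⟩⟩))
    · exact Or.inr (Or.inr (Or.inr ⟨h.symm, Or.inl h1⟩))
  · exact Or.inr (Or.inr (Or.inl h))

/-- **Hessenberg's theorem** -/
theorem hessenberg {b : M} (hb : InfOrd b) : Inj (prod b b) b := by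
  refine ord_induction (Φ := fun b => InfOrd b → Inj (prod b b) b) (by fun_prop) ?_ hb.1 hb
  intro b hb0 ih hb
  by_contra hcon
  have h1 : ∀ c, c ∈ b → ¬ Inj b c := by
    intro c hc hbc
    have hcinf : InfOrd c := by
      rcases (hb0.mem hc).inf_or_nat with h | h
      · exact h
      · exact (not_inj_omega h ((Inj.of_subset hb.2).trans hbc)).elim
    exact hcon ((hbc.prod hbc).trans ((ih c hc hcinf).trans
      (Inj.of_subset fun x hx => hb0.trans hc hx)))
  have h2 : ∀ c, c ∈ b → succ c ∈ b := by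
    intro c hc
    rcases (hb0.mem hc).succ.tri' hb0 with h | h | h
    · exact h
    · exfalso
      rcases (hb0.mem hc).inf_or_nat with hc' | hc'
      · have := hc'.succ_inj
        rw [h] at this
        exact h1 c hc this
      · have := succ_mem_omega hc'
        rw [h] at this
        exact mem_irrefl _ (hb.2 _ this)
    · rcases mem_succ.1 h with h | h
      · exact (mem_asymm h hc).elim
      · subst h
        exact (mem_irrefl _ hc).elim
  have hwf := wf_glt hb0
  refine hcon (Inj.of_fun hwf.dbl_collapse ?_ ?_)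
  · intro x hx
    refine hwf.collapse_mem hb0 hx (fun y z hy hz _ _ => glt_cmp hb0 hy hz) ?_
    intro p hp hinj
    obtain ⟨x1, hx1, x2, hx2, rfl⟩ := mem_prod.1 hx
    have hμ := (mx_mem hb0 hx1 hx2).1
    have hc := h2 _ hμ
    have hsub : ∀ y, y ∈ p → y ∈ prod (succ (mx (opair x1 x2))) (succ (mx (opair x1 x2))) := by
      intro y hy
      obtain ⟨hy, hlt⟩ := (hp y).1 hy
      obtain ⟨y1, hy1, y2, hy2, rfl⟩ := mem_prod.1 hy
      obtain ⟨hym, hy1', hy2'⟩ := mx_mem hb0 hy1 hy2
      have hle : mx (opair y1 y2) ∈ succ (mx (opair x1 x2)) := by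
        rw [mem_succ]
        rcases hlt with h | ⟨h, _⟩
        · exact Or.inl h
        · exact Or.inr h
      have hso := (hb0.mem hμ).succ
      have hss : ∀ z, z ∈ succ (mx (opair y1 y2)) → z ∈ succ (mx (opair x1 x2)) := by
        intro z hz
        rcases mem_succ.1 hz with hz | rfl
        · exact hso.trans hle hz
        · exact hle
      exact opair_mem_prod.2 ⟨hss _ hy1', hss _ hy2'⟩
    have hinj' := hinj.trans (Inj.of_subset hsub)
    rcases (hb0.mem hc).inf_or_nat with hc' | hc'
    · exact h1 _ hc (hinj'.trans (ih _ hc hc'))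
    · have hfin : Fin (succ (mx (opair x1 x2))) := ⟨_, hc', Inj.refl _⟩
      exact not_inj_omega_fin (hfin.prod hfin) ((Inj.of_subset hb.2).trans hinj')
  · intro x hx y hy he
    exact hwf.collapse_inj hx hy (glt_cmp hb0 hx hy) he

/-- A union of at most `b` many sets of size at most `b` has size at most `b`. -/
theorem inj_union {b C X : M} (hb : InfOrd b) (hC : Inj C b) {R : M → M → Prop}
    (hR : Dbl M (fun z : M × M => R z.1 z.2)) (hX : ∀ x, x ∈ X → ∃ r, r ∈ C ∧ R r x)
    (hinj : ∀ r, r ∈ C → ∀ Y : M, (∀ x, x ∈ Y ↔ x ∈ X ∧ R r x) → Inj Y b) : Inj X b := by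
  -- choose injections
  obtain ⟨φ, hφ, hφ'⟩ := choice_fun (M := M) (a := C) (b := power (prod X b))
    (R := fun r f => ∃ Y : M, (∀ x, x ∈ Y ↔ x ∈ X ∧ R r x) ∧ IsInjSet f Y b) (by fun_prop) (by
      intro r hr
      have hRr : Dbl M (R r) := Dbl.comp (f := fun y : M => (r, y))
        (g := fun z : M × M => R z.1 z.2) (by fun_prop) hR
      obtain ⟨Y, hY⟩ := sep_exists hRr X
      obtain ⟨f, hf⟩ := hinj r hr Y hY
      refine ⟨f, ?_, Y, hY, hf⟩
      rw [mem_power]
      intro z hz
      obtain ⟨x, hx, y, hy, rfl⟩ := hf.1.1 z hz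
      exact opair_mem_prod.2 ⟨((hY x).1 hx).1, hy⟩)
  obtain ⟨ψ, hψ, hψ'⟩ := choice_fun (M := M) (a := X) (b := C)
    (R := fun x r => R r x) (by fun_prop) (fun x hx => hX x hx)
  refine Inj.trans (b := prod C b) ?_ ((hC.prod (Inj.refl b)).trans (hessenberg hb))
  refine Inj.of_fun (φ := fun x => opair (ψ x) (fapp (φ (ψ x)) x)) (by fun_prop) ?_ ?_
  · intro x hx
    obtain ⟨h1, h2⟩ := hψ' x hx
    obtain ⟨_, Y, hY, hf⟩ := hφ' (ψ x) h1
    exact opair_mem_prod.2 ⟨h1, hf.fapp_mem ((hY x).2 ⟨hx, h2⟩)⟩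
  · intro x hx y hy he
    obtain ⟨he1, he2⟩ := opair_inj.1 he
    obtain ⟨h1, h2⟩ := hψ' x hx
    obtain ⟨_, h3⟩ := hψ' y hy
    obtain ⟨_, Y, hY, hf⟩ := hφ' (ψ x) h1
    rw [← he1] at he2 h3
    exact hf.fapp_inj ((hY x).2 ⟨hx, h2⟩) ((hY y).2 ⟨hy, h3⟩) he2

end ST

end Pool.Agent.Lib_helper27
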