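import Pool.Agent.Lib_helper27.Model

/-!
# Definability calculus over a structure `(M, ∈)`

`Dbl M f` says that the predicate or map `f`, on a finite product of copies of `M`, is
first-order definable with parameters over `(M, ∈)`.
-/

namespace Pool.Agent.Lib_helper27

universe u v w v'

open FirstOrder

/-- The membership symbol. -/
def memSym : LSet.Relations 2 := SetRel.mem

/-- A set with a binary relation `E`, thought of as membership. -/
class SetStr (M : Type u) where
  /-- the membership relation -/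
  E : M → M → Prop

instance instMembershipSetStr (M : Type u) [SetStr M] : Membership M M := ⟨fun a x => SetStr.E x a⟩

instance instStructureSetStr (M : Type u) [SetStr M] : LSet.Structure M := setStructure SetStr.E

section eqs

variable {M : Type u} [SetStr M] {α : Type v}

theorem definable_eq (i j : α) :
    (Set.univ : Set M).Definable LSet (show Set (α → M) from fun v => v i = v j) := by
  refine ⟨(Language.Term.var i).equal (Language.Term.var j), ?_⟩
  ext v
  show v i = v j ↔ _
  simp [Language.Formula.realize_equal]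

theorem definable_eq_const (i : α) (a : M) :
    (Set.univ : Set M).Definable LSet (show Set (α → M) from fun v => v i = a) := by
  refine ⟨(Language.Term.var i).equal
    ((LSet.con (⟨a, trivial⟩ : ↑(Set.univ : Set M))).term), ?_⟩
  ext v
  show v i = a ↔ _
  simp [Language.Formula.realize_equal]

theorem definable_mem (i j : α) :
    (Set.univ : Set M).Definable LSet (show Set (α → M) from fun v => v i ∈ v j) := by
  have h : (∅ : Set M).Definable LSet (show Set (α → M) from fun v => v i ∈ v j) := by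
    rw [Set.empty_definable_iff]
    refine ⟨Language.Relations.formula₂ (L := LSet) memSym
      (Language.Term.var i) (Language.Term.var j), ?_⟩
    ext v
    show v i ∈ v j ↔ _
    rw [Set.mem_ofPred_eq, Language.Formula.realize_rel₂]
    rfl
  exact h.mono (Set.empty_subset _)

end eqs

/-- The target types of definable maps. -/
class Tgt (M : Type u) (X : Type v) where
  /-- The index type of the graph -/
  idx : Type
  /-- graph of an element -/
  graph : X → (idx → M) → Prop
  /-- constants are definable -/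
  def_graph : ∀ [SetStr M] (x : X), (Set.univ : Set M).Definable LSet
    (show Set (idx → M) from graph x)

/-- Contexts: finite powers of `M`. -/
class Ctx (M : Type u) (Γ : Type v) where
  /-- the index set -/
  idx : Type
  /-- it is finite -/
  fin : Finite idx
  /-- the coordinates -/
  coord : Γ ≃ (idx → M)

attribute [instance] Ctx.fin

instance Ctx.instSelf (M : Type u) : Ctx M M where
  idx := Unit
  fin := inferInstance
  coord := (Equiv.funUnique Unit M).symm

instance Ctx.instUnit (M : Type u) : Ctx M PUnit.{v+1} where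
  idx := Empty
  fin := inferInstance
  coord := ⟨fun _ e => e.elim, fun _ => ⟨⟩, fun _ => rfl, fun _ => by ext e; exact e.elim⟩

instance Ctx.instProd (M : Type u) (Γ : Type v) (Δ : Type w) [Ctx M Γ] [Ctx M Δ] :
    Ctx M (Γ × Δ) where
  idx := Ctx.idx M Γ ⊕ Ctx.idx M Δ
  fin := inferInstance
  coord := (Equiv.prodCongr Ctx.coord Ctx.coord).trans (Equiv.sumArrowEquivProdArrow _ _ _).symm

instance Tgt.instProp (M : Type u) : Tgt M Prop where
  idx := Empty
  graph := fun p _ => p
  def_graph := by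
    intro _ x
    by_cases h : x
    · have : (show Set (Empty → M) from fun _ => x) = Set.univ := by
        ext v
        exact ⟨fun _ => trivial, fun _ => h⟩
      rw [this]
      exact Set.definable_univ
    · have : (show Set (Empty → M) from fun _ => x) = ∅ := by
        ext v
        exact ⟨fun h' => (h h').elim, fun h' => h'.elim⟩
      rw [this]
      exact Set.definable_empty

instance Tgt.instCtx (M : Type u) (Γ : Type v) [Ctx M Γ] : Tgt M Γ where
  idx := Ctx.idx M Γ
  graph := fun γ v => γ = Ctx.coord.symm v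
  def_graph := by
    intro _ x
    have : (show Set (Ctx.idx M Γ → M) from fun v => x = Ctx.coord.symm v) =
        ⋂ i, (show Set (Ctx.idx M Γ → M) from fun v => v i = Ctx.coord x i) := by
      ext v
      rw [Set.mem_iInter]
      show x = Ctx.coord.symm v ↔ ∀ i, v i = Ctx.coord x i
      rw [Equiv.eq_symm_apply]
      constructor
      · rintro rfl i
        rfl
      · intro h
        exact (funext h).symm
    rw [this]
    exact Set.definable_iInter_of_finite fun i => definable_eq_const i _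

/-- The set of codes of a predicate on a context. -/
def codes (M : Type u) {Γ : Type v} [Ctx M Γ] (p : Γ → Prop) : Set (Ctx.idx M Γ → M) :=
  fun v => p (Ctx.coord.symm v)

/-- `f` is first-order definable with parameters over `(M, ∈)`. -/
@[fun_prop]
def Dbl (M : Type u) [SetStr M] {Γ : Type v} {X : Type w} [Ctx M Γ] [Tgt M X] (f : Γ → X) : Prop :=
  (Set.univ : Set M).Definable LSet
    (show Set ((Ctx.idx M Γ) ⊕ (Tgt.idx M X) → M) from fun v =>
      Tgt.graph (f ((Ctx.coord (M := M)).symm (fun i => v (Sum.inl i)))) (fun i => v (Sum.inr i)))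

section basic

variable {M : Type u} [SetStr M] {Γ : Type v} {Δ : Type w} [Ctx M Γ] [Ctx M Δ]

theorem dbl_prop_iff {p : Γ → Prop} :
    Dbl M p ↔ (Set.univ : Set M).Definable LSet (codes M p) := by
  constructor
  · intro h
    have := Set.Definable.preimage_comp (α := Ctx.idx M Γ ⊕ Empty) (β := Ctx.idx M Γ)
      (fun i => i.elim id (fun e => e.elim)) h
    exact this
  · intro h
    have := Set.Definable.preimage_comp (β := Ctx.idx M Γ ⊕ Empty) (α := Ctx.idx M Γ)
      Sum.inl h
    exact this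

theorem dbl_map_iff {f : Γ → Δ} :
    Dbl M f ↔ Dbl M (fun z : Γ × Δ => f z.1 = z.2) := by
  rw [dbl_prop_iff]
  rfl

@[fun_prop]
theorem Dbl.and {p q : Γ → Prop} (hp : Dbl M p) (hq : Dbl M q) : Dbl M (fun x => p x ∧ q x) := by
  rw [dbl_prop_iff] at *
  exact hp.inter hq

@[fun_prop]
theorem Dbl.or {p q : Γ → Prop} (hp : Dbl M p) (hq : Dbl M q) : Dbl M (fun x => p x ∨ q x) := by
  rw [dbl_prop_iff] at *
  exact hp.union hq

@[fun_prop]
theorem Dbl.not {p : Γ → Prop} (hp : Dbl M p) : Dbl M (fun x => ¬ p x) := by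
  rw [dbl_prop_iff] at *
  exact hp.compl

theorem Dbl.congr_prop {p q : Γ → Prop} (hp : Dbl M p) (h : ∀ x, q x ↔ p x) : Dbl M q := by
  have : q = p := funext fun x => propext (h x)
  rw [this]
  exact hp

@[fun_prop]
theorem Dbl.imp {p q : Γ → Prop} (hp : Dbl M p) (hq : Dbl M q) : Dbl M (fun x => p x → q x) :=
  (hp.not.or hq).congr_prop fun _ => imp_iff_not_or

@[fun_prop]
theorem Dbl.iff {p q : Γ → Prop} (hp : Dbl M p) (hq : Dbl M q) : Dbl M (fun x => p x ↔ q x) :=
  ((hp.imp hq).and (hq.imp hp)).congr_prop fun _ => iff_iff_implies_and_implies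

@[fun_prop]
theorem Dbl.exs {p : Γ → Δ → Prop} (hp : Dbl M (fun z : Γ × Δ => p z.1 z.2)) :
    Dbl M (fun x => ∃ y, p x y) := by
  rw [dbl_prop_iff] at *
  have := Set.Definable.exists_of_finite (α := Ctx.idx M Γ) (β := Ctx.idx M Δ) hp
  convert! this using 1
  ext v
  have key : ∀ w : Ctx.idx M Δ → M,
      (Sum.elim v w ∈ codes M (fun z : Γ × Δ => p z.1 z.2)) ↔
        p (Ctx.coord.symm v) (Ctx.coord.symm w) := fun w => Iff.rfl
  show (∃ y, p (Ctx.coord.symm v) y) ↔ ∃ u, Sum.elim v u ∈ codes M (fun z : Γ × Δ => p z.1 z.2)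
  constructor
  · rintro ⟨y, hy⟩
    refine ⟨Ctx.coord y, (key _).2 ?_⟩
    rw [Equiv.symm_apply_apply]
    exact hy
  · rintro ⟨y, hy⟩
    exact ⟨_, (key _).1 hy⟩

@[fun_prop]
theorem Dbl.all {p : Γ → Δ → Prop} (hp : Dbl M (fun z : Γ × Δ => p z.1 z.2)) :
    Dbl M (fun x => ∀ y, p x y) := by
  refine (Dbl.exs (p := fun x y => ¬ p x y) hp.not).not.congr_prop fun x => ?_
  push Not
  rfl

/-- The identity is definable. -/
theorem definable_ctx_eq {α : Type v'} (r s : Ctx.idx M Γ → α) :
    (Set.univ : Set M).Definable LSet (show Set (α → M) from fun v =>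
      (Ctx.coord (M := M) (Γ := Γ)).symm (fun i => v (r i)) = Ctx.coord.symm (fun i => v (s i))) := by
  have : (show Set (α → M) from fun v =>
      (Ctx.coord (M := M) (Γ := Γ)).symm (fun i => v (r i)) = Ctx.coord.symm (fun i => v (s i))) =
      ⋂ i, (show Set (α → M) from fun v => v (r i) = v (s i)) := by
    ext v
    rw [Set.mem_iInter]
    show (Ctx.coord (M := M) (Γ := Γ)).symm (fun i => v (r i)) = Ctx.coord.symm (fun i => v (s i)) ↔
      ∀ i, v (r i) = v (s i)
    rw [Equiv.symm_apply_eq, Equiv.apply_symm_apply]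
    exact funext_iff
  rw [this]
  exact Set.definable_iInter_of_finite fun i => definable_eq _ _

@[fun_prop]
theorem Dbl.id : Dbl M (fun x : Γ => x) :=
  definable_ctx_eq (Γ := Γ) Sum.inl Sum.inr

@[fun_prop]
theorem Dbl.const {X : Type v'} [Tgt M X] (y : X) : Dbl M (fun _ : Γ => y) := by
  have := Set.Definable.preimage_comp (β := Ctx.idx M Γ ⊕ Tgt.idx M X) (α := Tgt.idx M X)
      Sum.inr (Tgt.def_graph (M := M) y)
  exact this

@[fun_prop]
theorem Dbl.comp {X : Type v'} [Tgt M X] {f : Γ → Δ} {g : Δ → X} (hf : Dbl M f) (hg : Dbl M g) :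
    Dbl M (fun x => g (f x)) := by
  let ι := (Ctx.idx M Γ ⊕ Tgt.idx M X) ⊕ Ctx.idx M Δ
  have h1 : (Set.univ : Set M).Definable LSet (show Set (ι → M) from fun v =>
      f (Ctx.coord.symm (fun i => v (Sum.inl (Sum.inl i)))) =
        Ctx.coord.symm (fun i => v (Sum.inr i))) := by
    have := Set.Definable.preimage_comp (α := Ctx.idx M Γ ⊕ Ctx.idx M Δ) (β := ι)
      (fun i => i.elim (fun i => Sum.inl (Sum.inl i)) Sum.inr) hf
    exact this
  have h2 : (Set.univ : Set M).Definable LSet (show Set (ι → M) from fun v =>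
      Tgt.graph (g (Ctx.coord.symm (fun i => v (Sum.inr i))))
        (fun i => v (Sum.inl (Sum.inr i)))) := by
    have := Set.Definable.preimage_comp (α := Ctx.idx M Δ ⊕ Tgt.idx M X) (β := ι)
      (fun i => i.elim Sum.inr (fun i => Sum.inl (Sum.inr i))) hg
    exact this
  have := Set.Definable.exists_of_finite (h1.inter h2)
  have h3 : {v : Ctx.idx M Γ ⊕ Tgt.idx M X → M | ∃ u : Ctx.idx M Δ → M, Sum.elim v u ∈
      (show Set (ι → M) from fun v =>
      f (Ctx.coord.symm (fun i => v (Sum.inl (Sum.inl i)))) =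
        Ctx.coord.symm (fun i => v (Sum.inr i))) ∩ (show Set (ι → M) from fun v =>
      Tgt.graph (g (Ctx.coord.symm (fun i => v (Sum.inr i))))
        (fun i => v (Sum.inl (Sum.inr i))))} = (show Set ((Ctx.idx M Γ) ⊕ (Tgt.idx M X) → M) from fun v =>
      Tgt.graph (g (f ((Ctx.coord (M := M)).symm (fun i => v (Sum.inl i)))))
        (fun i => v (Sum.inr i))) := by
    ext v
    show (∃ u : Ctx.idx M Δ → M, (f (Ctx.coord.symm (fun i => v (Sum.inl i))) =
        Ctx.coord.symm u) ∧ Tgt.graph (g (Ctx.coord.symm u)) (fun i => v (Sum.inr i))) ↔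
      Tgt.graph (g (f ((Ctx.coord (M := M)).symm (fun i => v (Sum.inl i)))))
        (fun i => v (Sum.inr i))
    constructor
    · rintro ⟨u, h1, h2⟩
      rw [h1]; exact h2
    · intro h
      refine ⟨Ctx.coord (f ((Ctx.coord (M := M)).symm (fun i => v (Sum.inl i)))), ?_, ?_⟩
      · rw [Equiv.symm_apply_apply]
      · rw [Equiv.symm_apply_apply]; exact h
  rw [h3] at this
  exact this

@[fun_prop]
theorem Dbl.fst : Dbl M (fun x : Γ × Δ => x.1) :=
  definable_ctx_eq (Γ := Γ) (fun i => Sum.inl (Sum.inl i)) Sum.inr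

@[fun_prop]
theorem Dbl.snd : Dbl M (fun x : Γ × Δ => x.2) :=
  definable_ctx_eq (Γ := Δ) (fun i => Sum.inl (Sum.inr i)) Sum.inr

/-- reindexing along a coordinate map -/
theorem Dbl.reindex {p : Δ → Prop} (hp : Dbl M p) (π : Γ → Δ) (r : Ctx.idx M Δ → Ctx.idx M Γ)
    (hr : ∀ v : Ctx.idx M Γ → M, π (Ctx.coord.symm v) = Ctx.coord.symm (fun i => v (r i))) :
    Dbl M (fun x => p (π x)) := by
  rw [dbl_prop_iff] at *
  have := Set.Definable.preimage_comp r hp
  have h2 : codes M (fun x => p (π x)) = (fun g : Ctx.idx M Γ → M => g ∘ r) ⁻¹' codes M p := by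
    ext v
    show p (π (Ctx.coord.symm v)) ↔ p (Ctx.coord.symm (v ∘ r))
    rw [hr]; rfl
  rw [h2]
  exact this

theorem Dbl.eq_aux : Dbl M (fun z : Γ × Γ => z.1 = z.2) := by
  rw [← dbl_map_iff (f := fun x : Γ => x)]
  exact Dbl.id

@[fun_prop]
theorem Dbl.mk {Θ : Type v'} [Ctx M Θ] {f : Γ → Δ} {g : Γ → Θ} (hf : Dbl M f) (hg : Dbl M g) :
    Dbl M (fun x => (f x, g x)) := by
  rw [dbl_map_iff] at *
  have h1 : Dbl M (fun z : Γ × (Δ × Θ) => f z.1 = z.2.1) :=
    Dbl.reindex hf (fun z : Γ × (Δ × Θ) => (z.1, z.2.1))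
      (fun i => i.elim Sum.inl (fun j => Sum.inr (Sum.inl j))) fun v => rfl
  have h2 : Dbl M (fun z : Γ × (Δ × Θ) => g z.1 = z.2.2) :=
    Dbl.reindex hg (fun z : Γ × (Δ × Θ) => (z.1, z.2.2))
      (fun i => i.elim Sum.inl (fun j => Sum.inr (Sum.inr j))) fun v => rfl
  exact (h1.and h2).congr_prop fun x => Prod.ext_iff

@[fun_prop]
theorem Dbl.eq {f g : Γ → Δ} (hf : Dbl M f) (hg : Dbl M g) : Dbl M (fun x => f x = g x) :=
  Dbl.comp (f := fun x => (f x, g x)) (g := fun z : Δ × Δ => z.1 = z.2) (hf.mk hg) Dbl.eq_aux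

theorem Dbl.mem_aux : Dbl M (fun z : M × M => z.1 ∈ z.2) := by
  rw [dbl_prop_iff]
  exact definable_mem (α := Unit ⊕ Unit) (Sum.inl ()) (Sum.inr ())

@[fun_prop]
theorem Dbl.mem {f g : Γ → M} (hf : Dbl M f) (hg : Dbl M g) : Dbl M (fun x => f x ∈ g x) :=
  Dbl.comp (f := fun x => (f x, g x)) (g := fun z : M × M => z.1 ∈ z.2) (hf.mk hg) Dbl.mem_aux

example (a : M) : Dbl M (fun x : M => ∀ y, y ∈ x → ∃ z, z ∈ a ∧ (y ∈ z ∨ z = x)) := by fun_prop

theorem dbl_of_graph {f : Γ → Δ} (h : Dbl M (fun z : Γ × Δ => f z.1 = z.2)) : Dbl M f :=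
  dbl_map_iff.2 h

end basic

end Pool.Agent.Lib_helper27
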