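import Pool.Agent.Lib_helper27.Final

/-!
# Existence and uniqueness of the forcing relation
-/

set_option linter.unusedSectionVars false
set_option linter.unusedVariables false

namespace Pool.Agent.Lib_helper27

universe u v w v'

open Fml

namespace ST

variable {M : Type u} [SetStr M] [ZFC M]

section

/-- predecessors of a pair of names -/
def nR (z' z : M) : Prop :=
  ∃ σ s τ t, z' = opair σ τ ∧ opair σ s ∈ fstp z ∧ opair τ t ∈ sndp z

/-- one step of the recursion -/
def nStep (C : M) (z g p : M) : Prop :=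
  p ∈ C ∧ (∀ σ s, opair σ s ∈ fstp z → s ∈ C → ∀ q, q ∈ C → le' q p → le' q s →
    ∃ r, r ∈ C ∧ le' r q ∧ ∃ τ t, opair τ t ∈ sndp z ∧ t ∈ C ∧ le' r t ∧ r ∈ fapp g (opair σ τ)) ∧
  (∀ τ t, opair τ t ∈ sndp z → t ∈ C → ∀ q, q ∈ C → le' q p → le' q t →
    ∃ r, r ∈ C ∧ le' r q ∧ ∃ σ s, opair σ s ∈ fstp z ∧ s ∈ C ∧ le' r s ∧ r ∈ fapp g (opair σ τ))

/-- the recursion for forcing equality -/
noncomputable def nH (C : M) (z g : M) : M := comp (nStep C z g)

theorem small_nStep (C z g : M) : Small (nStep C z g) := by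
  refine small_of_subset (by unfold nStep; fun_prop) C fun p hp => hp.1

theorem nRec (C : M) : RecData (M := M) nR (nH C) where
  dblR := by unfold nR; fun_prop
  small z := by
    refine small_of_subset (by unfold nR; fun_prop)
      (prod (sUnion (sUnion (fstp z))) (sUnion (sUnion (sndp z)))) ?_
    rintro z' ⟨σ, s, τ, t, rfl, h1, h2⟩
    refine opair_mem_prod.2 ⟨?_, ?_⟩
    · rw [mem_sUnion]
      refine ⟨upair σ σ, mem_sUnion.2 ⟨_, h1, ?_⟩, by simp⟩
      rw [opair, mem_upair]
      exact Or.inl rfl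
    · rw [mem_sUnion]
      refine ⟨upair τ τ, mem_sUnion.2 ⟨_, h2, ?_⟩, by simp⟩
      rw [opair, mem_upair]
      exact Or.inl rfl
  ind Φ hΦ h := by
    have key : ∀ x : M, ∀ z, fstp z = x → Φ z := by
      refine name_induction (by fun_prop) ?_
      rintro x ih z rfl
      refine h z ?_
      rintro z' ⟨σ, s, τ, t, rfl, h1, h2⟩
      exact ih σ s h1 _ (fstp_opair σ τ)
    exact fun z => key _ z rfl
  dblH := by
    refine dbl_comp (fun z : M × M => small_nStep C z.1 z.2) ?_
    unfold nStep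
    fun_prop

/-- the set of conditions forcing `fstp z = sndp z` -/
noncomputable def nF (C : M) : M → M := recF nR (nH C)

theorem mem_nF {C x y p : M} : p ∈ nF C (opair x y) ↔
    p ∈ C ∧ (∀ σ s, opair σ s ∈ x → s ∈ C → ∀ q, q ∈ C → le' q p → le' q s →
    ∃ r, r ∈ C ∧ le' r q ∧ ∃ τ t, opair τ t ∈ y ∧ t ∈ C ∧ le' r t ∧ r ∈ nF C (opair σ τ)) ∧
    (∀ τ t, opair τ t ∈ y → t ∈ C → ∀ q, q ∈ C → le' q p → le' q t →
    ∃ r, r ∈ C ∧ le' r q ∧ ∃ σ s, opair σ s ∈ x ∧ s ∈ C ∧ le' r s ∧ r ∈ nF C (opair σ τ)) := by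
  have hF : Dbl M (nF C) := (nRec C).dbl_recF
  have h1 : nF C (opair x y) = nH C (opair x y) (graph (nF C) (preds nR (opair x y))) :=
    (nRec C).recF_spec (opair x y)
  have h2 : ∀ σ s τ t, opair σ s ∈ x → opair τ t ∈ y →
      fapp (graph (nF C) (preds nR (opair x y))) (opair σ τ) = nF C (opair σ τ) := by
    intro σ s τ t hσ hτ
    refine fapp_graph hF ((nRec C).mem_preds.2 ⟨σ, s, τ, t, rfl, ?_, ?_⟩)
    · rw [fstp_opair]; exact hσ
    · rw [sndp_opair]; exact hτ
  rw [h1, nH, mem_comp (small_nStep _ _ _)]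
  unfold nStep
  simp only [fstp_opair, sndp_opair]
  refine and_congr_right fun hp => and_congr ?_ ?_
  · refine forall_congr' fun σ => forall_congr' fun s => imp_congr_right fun hσ => ?_
    refine imp_congr_right fun _ => forall_congr' fun q => imp_congr_right fun _ =>
      imp_congr_right fun _ => imp_congr_right fun _ => exists_congr fun r => and_congr_right fun _ =>
      and_congr_right fun _ => exists_congr fun τ => exists_congr fun t => and_congr_right fun hτ => ?_
    rw [h2 σ s τ t hσ hτ]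
  · refine forall_congr' fun τ => forall_congr' fun t => imp_congr_right fun hτ => ?_
    refine imp_congr_right fun _ => forall_congr' fun q => imp_congr_right fun _ =>
      imp_congr_right fun _ => imp_congr_right fun _ => exists_congr fun r => and_congr_right fun _ =>
      and_congr_right fun _ => exists_congr fun σ => exists_congr fun s => and_congr_right fun hσ => ?_
    rw [h2 σ s τ t hσ hτ]

/-- the forcing relation -/
noncomputable def nA (C : M) : AtomForce (Cond (EE M) C) M where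
  eq p x y := p.1 ∈ nF C (opair x y)
  mem p x y := ∀ q, q ≤ p → ∃ r, r ≤ q ∧
      ∃ (τ : M) (t : Cond (EE M) C), Holds (EE M) (app y τ t.1) ∧ r ≤ t ∧ r.1 ∈ nF C (opair x τ)

theorem nA_isForcingRelation (C : M) : IsForcingRelation (EE M) C (nA C) where
  eq_iff p x y := by
    show p.1 ∈ nF C (opair x y) ↔ _
    rw [mem_nF]
    simp only [holds_app]
    constructor
    · rintro ⟨_, h1, h2⟩
      refine ⟨fun σ s hσ q hq hqs => ?_, fun τ t hτ q hq hqs => ?_⟩
      · obtain ⟨r, hr, hrq, τ, t, hτ, ht, hrt, he⟩ := h1 σ s.1 hσ s.2 q.1 q.2 hq hqs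
        exact ⟨⟨r, hr⟩, hrq, τ, ⟨t, ht⟩, hτ, hrt, he⟩
      · obtain ⟨r, hr, hrq, σ, s, hσ, hs, hrs, he⟩ := h2 τ t.1 hτ t.2 q.1 q.2 hq hqs
        exact ⟨⟨r, hr⟩, hrq, σ, ⟨s, hs⟩, hσ, hrs, he⟩
    · rintro ⟨h1, h2⟩
      refine ⟨p.2, fun σ s hσ hs q hq hqp hqs => ?_, fun τ t hτ ht q hq hqp hqs => ?_⟩
      · obtain ⟨r, hrq, τ, t, hτ, hrt, he⟩ := h1 σ ⟨s, hs⟩ hσ ⟨q, hq⟩ hqp hqs
        exact ⟨r.1, r.2, hrq, τ, t.1, hτ, t.2, hrt, he⟩
      · obtain ⟨r, hrq, σ, s, hσ, hrs, he⟩ := h2 τ ⟨t, ht⟩ hτ ⟨q, hq⟩ hqp hqs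
        exact ⟨r.1, r.2, hrq, σ, s.1, hσ, s.2, hrs, he⟩
  mem_iff p x y := Iff.rfl
  eq_definable := by
    have hF : Dbl M (nF C) := (nRec C).dbl_recF
    have h1 : Dbl M (fun z : M × M × M => z.1 ∈ C ∧ z.1 ∈ nF C (opair z.2.1 z.2.2)) := by
      fun_prop
    rw [dbl_prop_iff] at h1
    have h2 := Set.Definable.preimage_comp (β := _root_.Fin 3) (α := Unit ⊕ (Unit ⊕ Unit))
      (Sum.elim (fun _ => 0) (Sum.elim (fun _ => 1) (fun _ => 2))) h1
    convert! h2 using 1
    ext v
    show (∃ h : v 0 ∈ C, v 0 ∈ nF C (opair (v 1) (v 2))) ↔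
      (v 0 ∈ C ∧ v 0 ∈ nF C (opair (v 1) (v 2)))
    exact exists_prop

theorem forcingRelation_unique {C : M} {A A' : AtomForce (Cond (EE M) C) M}
    (hA : IsForcingRelation (EE M) C A) (hA' : IsForcingRelation (EE M) C A') : A = A' := by
  have h1 := dbl_feq0 hA
  have h2 := dbl_feq0 hA'
  have key : ∀ x : M, ∀ y p, feq A p x y ↔ feq A' p x y := by
    refine name_induction (by fun_prop) ?_
    intro x ih y p
    have ih' : ∀ (σ : M) (s : M), opair σ s ∈ x → ∀ (y : M) (p : Cond (EE M) C),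
        A.eq p σ y ↔ A'.eq p σ y := fun σ s hσ y p => by
      rw [← feq_coe, ← feq_coe]
      exact ih σ s hσ y p.1
    refine exists_congr fun hp => ?_
    rw [A_eq_iff hA, A_eq_iff hA']
    refine and_congr ?_ ?_
    · refine forall_congr' fun σ => forall_congr' fun s => imp_congr_right fun hσ => ?_
      refine forall_congr' fun q => imp_congr_right fun _ =>
        imp_congr_right fun _ => exists_congr fun r => and_congr_right fun _ =>
        exists_congr fun τ => exists_congr fun t => and_congr_right fun _ =>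
        and_congr_right fun _ => ?_
      exact ih' σ s.1 hσ τ r
    · refine forall_congr' fun τ => forall_congr' fun t => imp_congr_right fun hτ => ?_
      refine forall_congr' fun q => imp_congr_right fun _ =>
        imp_congr_right fun _ => exists_congr fun r => and_congr_right fun _ =>
        exists_congr fun σ => exists_congr fun s => and_congr_right fun hσ =>
        and_congr_right fun _ => ?_
      exact ih' σ s.1 hσ τ r
  have heq : ∀ (p : Cond (EE M) C) x y, A.eq p x y ↔ A'.eq p x y := fun p x y => by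
    rw [← feq_coe, ← feq_coe]
    exact key x y p.1
  have hmem : ∀ (p : Cond (EE M) C) x y, A.mem p x y ↔ A'.mem p x y := fun p x y => by
    rw [hA.mem_iff, hA'.mem_iff]
    simp only [heq]
  obtain ⟨m, e⟩ := A
  obtain ⟨m', e'⟩ := A'
  congr 1
  · funext p x y
    exact propext (hmem p x y)
  · funext p x y
    exact propext (heq p x y)

end

end ST

/-- **Cohen forcing does not add weak Kurepa trees over models of `¬ wKH(ω₁)`.** -/
theorem main {M : Type u} (E : M → M → Prop) (hM : IsModelOfZFC E) :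
    (∃! C : M, Holds E (isCohenPoset C)) ∧
    ∀ C : M, Holds E (isCohenPoset C) →
      (∃! A : AtomForce (Cond E C) M, IsForcingRelation E C A) ∧
      ∀ A : AtomForce (Cond E C) M, IsForcingRelation E C A →
        Holds E (neg wKH) → ∀ p : Cond E C, Forces A p (neg wKH) := by
  let _ : SetStr M := ⟨E⟩
  have _ : ZFC M := ⟨hM⟩
  refine ⟨?_, ?_⟩
  · obtain ⟨C, hC⟩ := ST.exists_cohen (M := M)
    refine ⟨C, hC, fun C' hC' => ?_⟩
    refine ST.ext fun p => ?_
    rw [ST.holds_isCohenPoset.1 hC, ST.holds_isCohenPoset.1 hC']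
  · intro C hC
    refine ⟨⟨ST.nA C, ST.nA_isForcingRelation C, fun A' hA' =>
      ST.forcingRelation_unique hA' (ST.nA_isForcingRelation C)⟩, ?_⟩
    intro A hA hno p q _ hq
    exact hno (ST.wKH_of_forces hA (ST.holds_isCohenPoset.1 hC) hq)

end Pool.Agent.Lib_helper27
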