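import Pool.Agent.Lib_helper27.Ground

/-!
# Cohen forcing preserves the failure of the weak Kurepa hypothesis
-/

set_option linter.unusedSectionVars false
set_option linter.unusedVariables false

namespace Pool.Agent.Lib_helper27

universe u v w v'

open Fml

namespace ST

variable {M : Type u} [SetStr M] [ZFC M]

/-- forcing, for elements of the model -/
def FF {C : M} (A : AtomForce (Cond (EE M) C) M) (p : M) (φ : Fml M) : Prop :=
  ∃ h : p ∈ C, Forces A ⟨p, h⟩ φ

theorem FF_coe {C : M} {A : AtomForce (Cond (EE M) C) M} {p : Cond (EE M) C} {φ : Fml M} :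
    FF A p.1 φ ↔ Forces A p φ := ⟨fun ⟨_, h⟩ => h, fun h => ⟨p.2, h⟩⟩

section FD

variable {C : M} {A : AtomForce (Cond (EE M) C) M}

/-- The family of formulas `φ` is definable: the class of all `(γ, p)` with `p ⊩ φ γ` is
definable. -/
def FD (A : AtomForce (Cond (EE M) C) M) {Γ : Type u} [Ctx M Γ] (φ : Γ → Fml M) : Prop :=
  Dbl M (fun z : Γ × M => FF A z.2 (φ z.1))

variable {Γ : Type u} [Ctx M Γ]

theorem FD.apply {Δ : Type u} [Ctx M Δ] {φ : Γ → Fml M} (h : FD A φ) {g : Δ → Γ} {p : Δ → M}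
    (hg : Dbl M g) (hp : Dbl M p) : Dbl M (fun δ => FF A (p δ) (φ (g δ))) :=
  Dbl.comp (f := fun δ => (g δ, p δ)) (g := fun z : Γ × M => FF A z.2 (φ z.1)) (by fun_prop) h

theorem FD.neg {φ : Γ → Fml M} (h : FD A φ) : FD A (fun γ => Fml.neg (φ γ)) := by
  have h1 : Dbl M (fun z : (Γ × M) × M => FF A z.2 (φ z.1.1)) :=
    h.apply (g := fun z : (Γ × M) × M => z.1.1) (p := fun z : (Γ × M) × M => z.2)
      (by fun_prop) (by fun_prop)
  refine Dbl.congr_prop (p := fun z : Γ × M => z.2 ∈ C ∧ ∀ q, q ∈ C → le' q z.2 →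
    ¬ FF A q (φ z.1)) ?_ ?_
  · exact Dbl.and (by fun_prop) (Dbl.all (Dbl.imp (by fun_prop) (Dbl.imp (by fun_prop) h1.not)))
  · rintro ⟨γ, p⟩
    constructor
    · rintro ⟨hp, h2⟩
      exact ⟨hp, fun q hq hqp ⟨h3, h4⟩ => h2 ⟨q, hq⟩ hqp h4⟩
    · rintro ⟨hp, h2⟩
      exact ⟨hp, fun q hq h3 => h2 q.1 q.2 hq ⟨q.2, h3⟩⟩

theorem FD.and {φ ψ : Γ → Fml M} (h : FD A φ) (h' : FD A ψ) :
    FD A (fun γ => Fml.and (φ γ) (ψ γ)) := by
  refine Dbl.congr_prop (Dbl.and h h') ?_
  rintro ⟨γ, p⟩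
  constructor
  · rintro ⟨hp, h1, h2⟩
    exact ⟨⟨hp, h1⟩, ⟨hp, h2⟩⟩
  · rintro ⟨⟨hp, h1⟩, ⟨_, h2⟩⟩
    exact ⟨hp, h1, h2⟩

theorem FD.all {φ : Γ → M → Fml M} (h : FD A (fun z : Γ × M => φ z.1 z.2)) :
    FD A (fun γ => Fml.all (φ γ)) := by
  have h1 : Dbl M (fun z : (Γ × M) × M => FF A z.1.2 (φ z.1.1 z.2)) :=
    h.apply (g := fun z : (Γ × M) × M => (z.1.1, z.2)) (p := fun z : (Γ × M) × M => z.1.2)
      (by fun_prop) (by fun_prop)
  refine Dbl.congr_prop (p := fun z : Γ × M => z.2 ∈ C ∧ ∀ x, FF A z.2 (φ z.1 x)) ?_ ?_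
  · exact Dbl.and (by fun_prop) (Dbl.all h1)
  · rintro ⟨γ, p⟩
    constructor
    · rintro ⟨hp, h2⟩
      exact ⟨hp, fun x => ⟨hp, h2 x⟩⟩
    · rintro ⟨hp, h2⟩
      exact ⟨hp, fun x => FF_coe.1 (h2 x)⟩

theorem FD.or {φ ψ : Γ → Fml M} (h : FD A φ) (h' : FD A ψ) :
    FD A (fun γ => Fml.or (φ γ) (ψ γ)) := (h.neg.and h'.neg).neg

theorem FD.imp {φ ψ : Γ → Fml M} (h : FD A φ) (h' : FD A ψ) :
    FD A (fun γ => Fml.imp (φ γ) (ψ γ)) := (h.and h'.neg).neg

theorem FD.iff {φ ψ : Γ → Fml M} (h : FD A φ) (h' : FD A ψ) :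
    FD A (fun γ => Fml.iff (φ γ) (ψ γ)) := (h.imp h').and (h'.imp h)

theorem FD.ex {φ : Γ → M → Fml M} (h : FD A (fun z : Γ × M => φ z.1 z.2)) :
    FD A (fun γ => Fml.ex (φ γ)) := (FD.all (φ := fun γ x => Fml.neg (φ γ x)) h.neg).neg

variable (hA : IsForcingRelation (EE M) C A)

include hA

theorem FD.mem {f g : Γ → M} (hf : Dbl M f) (hg : Dbl M g) :
    FD A (fun γ => Fml.mem (f γ) (g γ)) := by
  have h := dbl_fmem hA (Γ := Γ × M) (f := fun z => z.2) (g := fun z => f z.1)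
    (h := fun z => g z.1) (by fun_prop) (by fun_prop) (by fun_prop)
  exact h

theorem FD.eq {f g : Γ → M} (hf : Dbl M f) (hg : Dbl M g) :
    FD A (fun γ => Fml.eq (f γ) (g γ)) := by
  have h := dbl_feq hA (Γ := Γ × M) (f := fun z => z.2) (g := fun z => f z.1)
    (h := fun z => g z.1) (by fun_prop) (by fun_prop) (by fun_prop)
  exact h

theorem FD.bex {a : Γ → M} {φ : Γ → M → Fml M} (ha : Dbl M a)
    (h : FD A (fun z : Γ × M => φ z.1 z.2)) : FD A (fun γ => Fml.bex (a γ) (φ γ)) :=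
  FD.ex (φ := fun γ x => Fml.and (Fml.mem x (a γ)) (φ γ x))
    ((FD.mem hA (by fun_prop) (by fun_prop)).and h)

theorem FD.isUPair {f g h : Γ → M} (hf : Dbl M f) (hg : Dbl M g) (hh : Dbl M h) :
    FD A (fun γ => Fml.isUPair (f γ) (g γ) (h γ)) :=
  FD.all (φ := fun γ w => Fml.iff (.mem w (f γ)) (.or (.eq w (g γ)) (.eq w (h γ))))
    ((FD.mem hA (by fun_prop) (by fun_prop)).iff ((FD.eq hA (by fun_prop) (by fun_prop)).or
      (FD.eq hA (by fun_prop) (by fun_prop))))

theorem FD.isOPair {f g h : Γ → M} (hf : Dbl M f) (hg : Dbl M g) (hh : Dbl M h) :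
    FD A (fun γ => Fml.isOPair (f γ) (g γ) (h γ)) :=
  FD.all (φ := fun γ w => Fml.iff (.mem w (f γ)) (.or (.isUPair w (g γ) (g γ))
    (.isUPair w (g γ) (h γ))))
    ((FD.mem hA (by fun_prop) (by fun_prop)).iff
      ((FD.isUPair hA (by fun_prop) (by fun_prop) (by fun_prop)).or
        (FD.isUPair hA (by fun_prop) (by fun_prop) (by fun_prop))))

theorem FD.app {f g h : Γ → M} (hf : Dbl M f) (hg : Dbl M g) (hh : Dbl M h) :
    FD A (fun γ => Fml.app (f γ) (g γ) (h γ)) :=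
  FD.bex hA (φ := fun γ z => Fml.isOPair z (g γ) (h γ)) hf
    (FD.isOPair hA (by fun_prop) (by fun_prop) (by fun_prop))

end FD

section main

variable {C : M} {A : AtomForce (Cond (EE M) C) M} (hA : IsForcingRelation (EE M) C A)
  (hC : ∀ p, p ∈ C ↔ IsFPF p)

include hA hC

omit hA in
theorem empty_mem_C : empty ∈ C := (hC _).2 empty_fpf

theorem descend : Descend A (EE M) chk where
  desc := by
    intro p f a b w hw hb hwb hf
    have h0 := empty_mem_C hC
    have hS := frc_sys hA h0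
    have hw' := holds_isOmega.1 hw
    subst hw'
    have hbi : InfOrd b := ⟨holds_isOrd.1 hb, hwb⟩
    have hj : Inj (prod C b) b := ((cohen_inj hC).prod (Inj.refl b)).trans
      ((Inj.prod (Inj.of_subset hbi.2) (Inj.refl b)).trans (hessenberg hbi))
    have hR : Dbl M (fun z : M × M => FF A (fstp z.2) (app f (chk z.1) (chk (sndp z.2)))) :=
      (FD.app hA (Γ := M × M) (f := fun _ => f) (g := fun z => chk z.1)
        (h := fun z => chk (sndp z.2)) (by fun_prop) (by fun_prop) (by fun_prop)).apply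
        (g := fun z => z) (p := fun z : M × M => fstp z.2) (by fun_prop) (by fun_prop)
    obtain ⟨φ, hφ, hφ'⟩ := choice_fun (a := a) (b := prod C b) (R := fun x z =>
        le' (fstp z) p.1 ∧ FF A (fstp z) (app f (chk x) (chk (sndp z))))
        (Dbl.and (by fun_prop) hR) (by
      intro x hx
      obtain ⟨q, hq, y, hy, hxy⟩ := (func_total hS hf.1 (hS.mem_chk_of (p := p) hx)).exists
      obtain ⟨r, hr, c, hc, he⟩ := (hS.mem_chk.1 hy).exists
      refine ⟨opair r.1 c, opair_mem_prod.2 ⟨r.2, hc⟩, ?_, ?_⟩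
      · rw [fstp_opair]
        exact hr.trans hq
      · rw [fstp_opair, sndp_opair]
        exact FF_coe.2 (app_congr hS.toBasic (hS.eq_refl r _) he (Forces.mono hS.toBasic hr hxy)))
    have hinj : Inj a b := by
      refine Inj.trans (Inj.of_fun hφ (fun x hx => (hφ' x hx).1) ?_) hj
      intro x hx y hy he
      obtain ⟨h1, h2, h3, h4⟩ := hφ' x hx
      obtain ⟨h1', h2', h3', h4'⟩ := hφ' y hy
      have h5 : ∃ h' : fstp (φ x) ∈ C, Forces A ⟨fstp (φ x), h'⟩
          (app f (chk y) (chk (sndp (φ x)))) := by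
        rw [he]
        exact ⟨h3', h4'⟩
      have h6 : Forces A ⟨fstp (φ x), h3⟩ (app f (chk y) (chk (sndp (φ x)))) := by
        obtain ⟨h', h6⟩ := h5
        exact h6
      exact hS.chk_eq (inj_single hS (Forces.mono hS.toBasic (q := ⟨fstp (φ x), h3⟩) h2 hf) h4 h6)
    obtain ⟨g, hg⟩ := hinj
    exact ⟨g, holds_isInj.2 hg⟩
  big := by
    intro w k hw hk x hx
    have hw' := holds_isOmega.1 hw
    subst hw'
    obtain ⟨h1, h2, _⟩ := holds_isHartogs.1 hk
    rcases h1.inf_or_nat with h3 | h3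
    · exact h3.2 x hx
    · exact (h2 (Inj.of_subset fun y hy => isOrd_omega.trans h3 hy)).elim

open TreeNames in
theorem rels_of_treeNames {q : Cond (EE M) C} {κ lam T R h e S F : M}
    (hκ : Holds (EE M) (isHartogs omega κ)) (hl : Holds (EE M) (isHartogs κ lam))
    (hN : TreeNames A chk q κ lam T R h e S F) :
    ∃ D ht rl br, Rels κ lam D ht rl br := by
  have h0 := empty_mem_C hC
  have hS := frc_sys hA h0
  obtain ⟨hκ0, hκ1, hκ2⟩ := holds_isHartogs.1 hκ
  obtain ⟨hl0, hl1, hl2⟩ := holds_isHartogs.1 hl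
  obtain ⟨D, hD⟩ := small_sep (M := M) (D := fun r => le' r q.1) (by fun_prop) C
  have hD' : ∀ r, r ∈ D → ∃ r' : Cond (EE M) C, r'.1 = r ∧ r' ≤ q := fun r hr =>
    ⟨⟨r, ((hD r).1 hr).1⟩, rfl, ((hD r).1 hr).2⟩
  refine ⟨D,
    fun r α δ => FF A r (ex fun t => and (app e (chk α) t) (app h t (chk δ))),
    fun r α β => FF A r (ex fun s => ex fun t =>
      and (and (app e (chk α) s) (app e (chk β) t)) (app R s t)),
    fun r ξ α => FF A r (ex fun b => ex fun t =>
      and (and (app F (chk ξ) b) (app e (chk α) t)) (mem t b)), ?_⟩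
  have ht_iff : ∀ (r : Cond (EE M) C) α δ,
      FF A r.1 (ex fun t => and (app e (chk α) t) (app h t (chk δ))) ↔ Ht A chk e h r α δ :=
    fun r α δ => FF_coe
  have rl_iff : ∀ (r : Cond (EE M) C) α β, FF A r.1 (ex fun s => ex fun t =>
      and (and (app e (chk α) s) (app e (chk β) t)) (app R s t)) ↔ Rl A chk e R r α β :=
    fun r α β => FF_coe
  have br_iff : ∀ (r : Cond (EE M) C) ξ α, FF A r.1 (ex fun b => ex fun t =>
      and (and (app F (chk ξ) b) (app e (chk α) t)) (mem t b)) ↔ Br A chk e F r ξ α :=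
    fun r ξ α => FF_coe
  exact {
    hκ := hκ0
    hκ1 := hκ1
    hκ2 := hκ2
    hl := hl0
    hl1 := hl1
    hl2 := hl2
    hD := (Inj.of_subset fun r hr => ((hD r).1 hr).1).trans (cohen_inj hC)
    dht := by
      refine FD.apply (Γ := M × M) (φ := fun z : M × M =>
        ex fun t => and (app e (chk z.1) t) (app h t (chk z.2))) (FD.ex (φ := fun (z : M × M) t =>
          and (app e (chk z.1) t) (app h t (chk z.2))) (FD.and ?_ ?_))
        (g := fun z : M × M × M => z.2) (p := fun z => z.1) (by fun_prop) (by fun_prop)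
      · exact FD.app hA (by fun_prop) (by fun_prop) (by fun_prop)
      · exact FD.app hA (by fun_prop) (by fun_prop) (by fun_prop)
    drl := by
      refine FD.apply (Γ := M × M) (φ := fun z : M × M =>
        ex fun s => ex fun t => and (and (app e (chk z.1) s) (app e (chk z.2) t)) (app R s t))
        (FD.ex (φ := fun (z : M × M) s => ex fun t =>
          and (and (app e (chk z.1) s) (app e (chk z.2) t)) (app R s t))
          (FD.ex (φ := fun (z : (M × M) × M) t =>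
          and (and (app e (chk z.1.1) z.2) (app e (chk z.1.2) t)) (app R z.2 t))
          (FD.and (FD.and ?_ ?_) ?_)))
        (g := fun z : M × M × M => z.2) (p := fun z => z.1) (by fun_prop) (by fun_prop)
      · exact FD.app hA (by fun_prop) (by fun_prop) (by fun_prop)
      · exact FD.app hA (by fun_prop) (by fun_prop) (by fun_prop)
      · exact FD.app hA (by fun_prop) (by fun_prop) (by fun_prop)
    dbr := by
      refine FD.apply (Γ := M × M) (φ := fun z : M × M =>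
        ex fun b => ex fun t => and (and (app F (chk z.1) b) (app e (chk z.2) t)) (mem t b))
        (FD.ex (φ := fun (z : M × M) b => ex fun t =>
          and (and (app F (chk z.1) b) (app e (chk z.2) t)) (mem t b))
          (FD.ex (φ := fun (z : (M × M) × M) t =>
          and (and (app F (chk z.1.1) z.2) (app e (chk z.1.2) t)) (mem t z.2))
          (FD.and (FD.and ?_ ?_) ?_)))
        (g := fun z : M × M × M => z.2) (p := fun z => z.1) (by fun_prop) (by fun_prop)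
      · exact FD.app hA (by fun_prop) (by fun_prop) (by fun_prop)
      · exact FD.app hA (by fun_prop) (by fun_prop) (by fun_prop)
      · exact FD.mem hA (by fun_prop) (by fun_prop)
    P1 := by
      intro r α δ δ' hr hα h1 h2
      obtain ⟨r, rfl, hrq⟩ := hD' r hr
      rw [ht_iff] at h1 h2
      exact hN.P1 hS hrq hα h1 h2
    P2 := by
      intro r α β δ δ' hr hα hβ h1 h2 h3
      obtain ⟨r, rfl, hrq⟩ := hD' r hr
      rw [rl_iff] at h1
      rw [ht_iff] at h2 h3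
      exact hN.P2 hS hrq hα hβ h1 h2 h3
    P3 := by
      intro r α β γ hr hα hβ hγ h1 h2
      obtain ⟨r, rfl, hrq⟩ := hD' r hr
      rw [rl_iff] at h1 h2 ⊢
      exact hN.P3 hS hrq hα hβ hγ h1 h2
    P4 := by
      intro r α β γ δ δ' hr hα hβ hγ h1 h2 h3 h4 h5
      obtain ⟨r, rfl, hrq⟩ := hD' r hr
      rw [rl_iff] at h1 h2 ⊢
      rw [ht_iff] at h3 h4
      exact hN.P4 hS hrq hα hβ hγ h1 h2 h3 h4 h5
    P4' := by
      intro r α β γ δ hr hα hβ hγ h1 h2 h3 h4
      obtain ⟨r, rfl, hrq⟩ := hD' r hr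
      rw [rl_iff] at h1 h2
      rw [ht_iff] at h3 h4
      exact hN.P4' hS hrq hα hβ hγ h1 h2 h3 h4
    P5 := by
      intro r ξ α β δ δ' hr hξ hα hβ h1 h2 h3 h4 h5
      obtain ⟨r, rfl, hrq⟩ := hD' r hr
      rw [rl_iff]
      rw [br_iff] at h1 h2
      rw [ht_iff] at h3 h4
      exact hN.P5 hS hrq hξ hα hβ h1 h2 h3 h4 h5
    P5' := by
      intro r ξ α β δ hr hξ hα hβ h1 h2 h3 h4
      obtain ⟨r, rfl, hrq⟩ := hD' r hr
      rw [br_iff] at h1 h2
      rw [ht_iff] at h3 h4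
      exact hN.P5' hS hrq hξ hα hβ h1 h2 h3 h4
    P6 := by
      intro r ξ α β hr hξ hα hβ h1 h2
      obtain ⟨r, rfl, hrq⟩ := hD' r hr
      rw [rl_iff] at h2
      rw [br_iff] at h1 ⊢
      exact hN.P6 hS hrq hξ hα hβ h1 h2
    P7 := by
      intro ξ δ hξ hδ
      obtain ⟨r, hr, α, hα, h1, h2⟩ := (hN.P7 hS le_rfl hξ hδ).exists
      exact ⟨r.1, (hD _).2 ⟨r.2, hr⟩, α, hα, (ht_iff _ _ _).2 h1, (br_iff _ _ _).2 h2⟩
    P8 := by
      intro r ξ η hr hξ hη hun
      obtain ⟨r, rfl, hrq⟩ := hD' r hr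
      refine hN.P8 hS hrq hξ hη fun δ hδ => ?_
      obtain ⟨α, δ', h1, h2, h3, h4, h5⟩ := hun δ hδ
      exact ⟨α, δ', h1, h2, (ht_iff _ _ _).1 h3, (br_iff _ _ _).1 h4, (br_iff _ _ _).1 h5⟩ }

/-- If some Cohen condition forces the weak Kurepa hypothesis, then it holds in the ground
model. -/
theorem wKH_of_forces {p : Cond (EE M) C} (h : Forces A p wKH) :
    Holds (EE M) (wKH : Fml M) := by
  have h0 := empty_mem_C hC
  have hS := frc_sys hA h0
  obtain ⟨q, _, w, κ, lam, T, R, h, e, S, F, hw, hκ, hl, hN⟩ := hS.unpack (descend hA hC) h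
  have hw' := holds_isOmega.1 hw
  subst hw'
  obtain ⟨D, ht, rl, br, hR⟩ := rels_of_treeNames hA hC hκ hl hN
  exact hR.wKH

end main

end ST

end Pool.Agent.Lib_helper27
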