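import Mathlib

/-!
# First-order formulas of the language of set theory, truth and forcing

`Fml U` is the type of first-order formulas of the language `{∈, =}` with parameters in `U`
(quantifiers are represented by functions `U → Fml U`). The same formula is evaluated in two ways:
`Holds E φ` is truth in the structure `(M, E)`, and `Forces A p φ` is the forcing relation `p ⊩ φ`
obtained by the usual recursion from the forcing relation `A` for atomic formulas.
The sentence of interest is `wKH`: there is a weak Kurepa tree at `ω₁`.
-/

namespace Pool.Agent.Lib_helper27

universe u v w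

/-- First-order formulas of the language of set theory, with parameters from `U`. -/
inductive Fml (U : Type v) : Type v
  | mem (x y : U) : Fml U
  | eq (x y : U) : Fml U
  | neg (φ : Fml U) : Fml U
  | and (φ ψ : Fml U) : Fml U
  | all (φ : U → Fml U) : Fml U

namespace Fml

variable {U : Type v}

/-- disjunction -/
def or (φ ψ : Fml U) : Fml U := neg (and (neg φ) (neg ψ))

/-- implication -/
def imp (φ ψ : Fml U) : Fml U := neg (and φ (neg ψ))

/-- equivalence -/
def iff (φ ψ : Fml U) : Fml U := and (imp φ ψ) (imp ψ φ)

/-- existential quantifier -/
def ex (φ : U → Fml U) : Fml U := neg (all fun x => neg (φ x))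

/-- `∀ y ∈ x, φ y` -/
def ball (x : U) (φ : U → Fml U) : Fml U := all fun y => imp (mem y x) (φ y)

/-- `∃ y ∈ x, φ y` -/
def bex (x : U) (φ : U → Fml U) : Fml U := ex fun y => and (mem y x) (φ y)

/-- `x ⊆ y` -/
def isSubset (x y : U) : Fml U := ball x fun z => mem z y

/-- `z = {x, y}` -/
def isUPair (z x y : U) : Fml U := all fun w => iff (mem w z) (or (eq w x) (eq w y))

/-- `z = (x, y) = {{x}, {x, y}}` -/
def isOPair (z x y : U) : Fml U := all fun w => iff (mem w z) (or (isUPair w x x) (isUPair w x y))

/-- `(x, y) ∈ f` -/
def app (f x y : U) : Fml U := bex f fun z => isOPair z x y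

/-- `f` is a function from `a` to `b` -/
def isFunc (f a b : U) : Fml U :=
  and (ball f fun z => bex a fun x => bex b fun y => isOPair z x y)
    (and (ball a fun x => bex b fun y => app f x y)
      (all fun x => all fun y => all fun y' => imp (and (app f x y) (app f x y')) (eq y y')))

/-- `f` is an injective function from `a` to `b` -/
def isInj (f a b : U) : Fml U :=
  and (isFunc f a b)
    (all fun x => all fun x' => all fun y => imp (and (app f x y) (app f x' y)) (eq x x'))

/-- `f` is a bijection from `a` to `b` -/
def isBij (f a b : U) : Fml U :=
  and (isInj f a b) (ball b fun y => bex a fun x => app f x y)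

/-- `x` is an ordinal: transitive and linearly ordered by `∈` -/
def isOrd (x : U) : Fml U :=
  and (ball x fun y => isSubset y x)
    (ball x fun y => ball x fun z => or (mem y z) (or (eq y z) (mem z y)))

/-- `w = ω`: `w` is a nonzero limit ordinal, and every nonzero element of `w` has a largest
element. -/
def isOmega (w : U) : Fml U :=
  and (isOrd w)
    (and (ex fun x => mem x w)
      (and (ball w fun x => bex w fun y => mem x y)
        (ball w fun u => imp (ex fun x => mem x u) (bex u fun x => ball u fun y => neg (mem x y)))))

/-- `b` is the least ordinal with no injection into `a` -/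
def isHartogs (a b : U) : Fml U :=
  and (isOrd b)
    (and (neg (ex fun f => isInj f b a))
      (ball b fun c => ex fun f => isInj f c a))

/-- `(T, R)` is a tree: `R` is a strict partial order on `T` and the `R`-predecessors of every
node are well-ordered by `R` (linearly ordered, and every nonempty set of them has a least
element). -/
def isTree (T R : U) : Fml U :=
  and (ball R fun z => bex T fun x => bex T fun y => isOPair z x y)
    (and (ball T fun x => neg (app R x x))
      (and (ball T fun x => ball T fun y => ball T fun z =>
          imp (and (app R x y) (app R y z)) (app R x z))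
        (ball T fun t =>
          and (ball T fun x => ball T fun y => imp (and (app R x t) (app R y t))
              (or (app R x y) (or (eq x y) (app R y x))))
            (all fun A => imp (and (ball A fun x => and (mem x T) (app R x t)) (ex fun x => mem x A))
              (bex A fun x => ball A fun y => or (eq x y) (app R x y))))))

/-- `h` is the height function of the tree `(T, R)`, which has height exactly `k`:
`h : T → k` is onto `k` and `h(t) = {h(s) : s R t}` for every node `t`. -/
def isHeight (T R k h : U) : Fml U :=
  and (isFunc h T k)
    (and (ball T fun t => all fun d => imp (app h t d)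
        (all fun c => iff (mem c d) (bex T fun s => and (app R s t) (app h s c))))
      (ball k fun a => bex T fun t => app h t a))

/-- `B` is a cofinal branch of the tree `(T, R)` of height `k` with height function `h`:
a linearly ordered subset of `T` meeting every level. -/
def isCofBranch (T R k h B : U) : Fml U :=
  and (isSubset B T)
    (and (ball B fun x => ball B fun y => or (app R x y) (or (eq x y) (app R y x)))
      (ball k fun a => bex B fun t => app h t a))

/-- The weak Kurepa hypothesis at `ω₁`: there is a tree `(T, R)` of height `ω₁` and
cardinality `ω₁` with at least `ω₂` cofinal branches. -/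
def wKH : Fml U :=
  ex fun W => ex fun K => ex fun L =>
    and (isOmega W) (and (isHartogs W K) (and (isHartogs K L)
      (ex fun T => ex fun R => ex fun h => ex fun e => ex fun S => ex fun F =>
        and (isTree T R) (and (isHeight T R K h) (and (isBij e K T)
          (and (ball S fun B => isCofBranch T R K h B) (isInj F L S)))))))

/-- Tarskian truth of a formula in the structure `(M, E)`. -/
def Holds {M : Type v} (E : M → M → Prop) : Fml M → Prop
  | mem x y => E x y
  | eq x y => x = y
  | neg φ => ¬ Holds E φ
  | and φ ψ => Holds E φ ∧ Holds E ψ
  | all φ => ∀ x, Holds E (φ x)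

end Fml

/-- The forcing relation for atomic formulas, for a poset `P` and a class `U` of names. -/
structure AtomForce (P : Type w) (U : Type v) where
  /-- `p ⊩ x ∈ y` -/
  mem : P → U → U → Prop
  /-- `p ⊩ x = y` -/
  eq : P → U → U → Prop

/-- The forcing relation `p ⊩ φ` for all formulas, by the usual recursion: `p ⊩ ¬ φ` iff no
`q ≤ p` has `q ⊩ φ`; `p ⊩ φ ∧ ψ` iff `p ⊩ φ` and `p ⊩ ψ`; `p ⊩ ∀ x φ(x)` iff `p ⊩ φ(x)` for every
name `x`. -/
def Forces {P : Type w} [LE P] {U : Type v} (A : AtomForce P U) : P → Fml U → Prop
  | p, .mem x y => A.mem p x y
  | p, .eq x y => A.eq p x y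
  | p, .neg φ => ∀ q, q ≤ p → ¬ Forces A q φ
  | p, .and φ ψ => Forces A p φ ∧ Forces A p ψ
  | p, .all φ => ∀ x, Forces A p (φ x)

end Pool.Agent.Lib_helper27
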