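import Pool.Agent.Lib_helper27.Rec

/-!
# Transitive closures, ∈-induction and collapse inside a model of ZFC
-/

set_option linter.unusedSectionVars false
set_option linter.unusedVariables false

namespace Pool.Agent.Lib_helper27

universe u v w v'

namespace ST

variable {M : Type u} [SetStr M] [ZFC M]

/-- recursion on ordinals -/
theorem recData_ord {H : M → M → M} (hH : Dbl M (fun z : M × M => H z.1 z.2)) :
    RecData (fun y x : M => IsOrd x ∧ y ∈ x) H where
  dblR := by fun_prop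
  small x := by
    by_cases h : IsOrd x
    · exact ⟨x, fun y => by simp [h]⟩
    · exact ⟨empty, fun y => by simp [h, not_mem_empty]⟩
  ind Φ hΦ h := by
    have key : ∀ x, IsOrd x → Φ x := fun x hx =>
      ord_induction hΦ (fun x hx ih => h x fun y hy => ih y hy.2) hx
    intro x
    by_cases hx : IsOrd x
    · exact key x hx
    · exact h x fun y hy => (hx hy.1).elim
  dblH := hH

/-- Every set is included in a transitive set. -/
theorem exists_trans (a : M) : ∃ t : M, (∀ y, y ∈ t → ∀ z, z ∈ y → z ∈ t) ∧ ∀ x, x ∈ a → x ∈ t := by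
  let H : M → M → M := fun n g => union a (sUnion (image (fun m => sUnion (fapp g m)) n))
  have hH : Dbl M (fun z : M × M => H z.1 z.2) := by
    show Dbl M (fun z : M × M => union a (sUnion (image (fun m => sUnion (fapp z.2 m)) z.1)))
    fun_prop
  have hD := recData_ord hH
  let F := recF (fun y x : M => IsOrd x ∧ y ∈ x) H
  have hF : Dbl M F := hD.dbl_recF
  have hpreds : ∀ n : M, IsOrd n → preds (fun y x : M => IsOrd x ∧ y ∈ x) n = n := fun n hn =>
    ext fun z => by rw [hD.mem_preds]; simp [hn]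
  have hspec : ∀ n : M, IsOrd n → F n = union a (sUnion (image (fun m => sUnion (F m)) n)) := by
    intro n hn
    have h1 : F n = H n (graph F (preds (fun y x : M => IsOrd x ∧ y ∈ x) n)) := hD.recF_spec n
    rw [hpreds n hn] at h1
    rw [h1]
    show union a (sUnion (image (fun m => sUnion (fapp (graph F n) m)) n)) = _
    congr 2
    refine ext fun z => ?_
    rw [mem_image (by fun_prop), mem_image (by fun_prop)]
    constructor
    · rintro ⟨x, hx, rfl⟩
      exact ⟨x, hx, by rw [fapp_graph hF hx]⟩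
    · rintro ⟨x, hx, rfl⟩
      exact ⟨x, hx, by rw [fapp_graph hF hx]⟩
  refine ⟨sUnion (image F omega), ?_, ?_⟩
  · intro y hy z hz
    rw [mem_sUnion] at hy ⊢
    obtain ⟨c, hc, hyc⟩ := hy
    obtain ⟨n, hn, rfl⟩ := (mem_image hF).1 hc
    refine ⟨F (succ n), (mem_image hF).2 ⟨succ n, succ_mem_omega hn, rfl⟩, ?_⟩
    rw [hspec _ (isOrd_omega.mem (succ_mem_omega hn)), mem_union]
    right
    rw [mem_sUnion]
    refine ⟨sUnion (F n), ?_, mem_sUnion.2 ⟨y, hyc, hz⟩⟩
    rw [mem_image (by fun_prop)]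
    exact ⟨n, mem_succ.2 (Or.inr rfl), rfl⟩
  · intro x hx
    rw [mem_sUnion]
    refine ⟨F empty, (mem_image hF).2 ⟨empty, empty_mem_omega, rfl⟩, ?_⟩
    rw [hspec _ isOrd_empty, mem_union]
    exact Or.inl hx

/-- ∈-induction for definable classes. -/
theorem mem_induction {Φ : M → Prop} (hΦ : Dbl M Φ) (h : ∀ x, (∀ y, y ∈ x → Φ y) → Φ x) :
    ∀ x, Φ x := by
  intro x
  by_contra hcon
  obtain ⟨t, ht, hxt⟩ := exists_trans (upair x x)
  obtain ⟨y, hy, hΦy, hmin⟩ := exists_least_of_mem (Φ := fun x => ¬ Φ x) hΦ.not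
    (hxt x (by simp)) hcon
  exact hΦy (h y fun z hz => not_not.1 (hmin z (ht y hy z hz) hz))

/-! ### Collapse of well-founded relations on sets -/

/-- A definable, transitive, well-founded relation on the set `X`. -/
structure WF (X : M) (lt : M → M → Prop) : Prop where
  dbl : Dbl M (fun z : M × M => lt z.1 z.2)
  trans : ∀ x y z, x ∈ X → y ∈ X → z ∈ X → lt x y → lt y z → lt x z
  wf : ∀ S : M, (∀ x, x ∈ S → x ∈ X) → (∃ x, x ∈ S) → ∃ x, x ∈ S ∧ ∀ y, y ∈ S → ¬ lt y x

theorem WF.induction {X : M} {lt : M → M → Prop} (h : WF X lt) {Φ : M → Prop} (hΦ : Dbl M Φ)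
    (hi : ∀ x, x ∈ X → (∀ y, y ∈ X → lt y x → Φ y) → Φ x) {x : M} (hx : x ∈ X) : Φ x := by
  by_contra hcon
  obtain ⟨S, hS⟩ := sep_exists hΦ.not X
  obtain ⟨y, hy, hmin⟩ := h.wf S (fun x hx => ((hS x).1 hx).1) ⟨x, (hS x).2 ⟨hx, hcon⟩⟩
  refine ((hS y).1 hy).2 (hi y ((hS y).1 hy).1 fun z hz hzy => ?_)
  by_contra hz'
  exact hmin z ((hS z).2 ⟨hz, hz'⟩) hzy

/-- the collapsing function of `lt` on `X` -/
noncomputable def collapse (X : M) (lt : M → M → Prop) : M → M :=
  recF (fun y x => x ∈ X ∧ y ∈ X ∧ lt y x) (fun x g => image (fapp g)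
    (preds (fun y x => x ∈ X ∧ y ∈ X ∧ lt y x) x))

theorem WF.small {X : M} {lt : M → M → Prop} (h : WF X lt) (x : M) :
    Small (fun y => x ∈ X ∧ y ∈ X ∧ lt y x) := by
  have := h.dbl
  exact small_of_subset (by fun_prop) X fun y hy => hy.2.1

theorem WF.dbl_preds {X : M} {lt : M → M → Prop} (h : WF X lt) :
    Dbl M (preds (fun y x => x ∈ X ∧ y ∈ X ∧ lt y x)) := by
  have := h.dbl
  exact dbl_comp h.small (by fun_prop)

theorem WF.recData {X : M} {lt : M → M → Prop} (h : WF X lt) :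
    RecData (fun y x => x ∈ X ∧ y ∈ X ∧ lt y x) (fun x g => image (fapp g)
      (preds (fun y x => x ∈ X ∧ y ∈ X ∧ lt y x) x)) where
  dblR := by
    have := h.dbl
    fun_prop
  small := h.small
  ind Φ hΦ hi := by
    intro x
    by_cases hx : x ∈ X
    · exact h.induction hΦ (fun x hx ih => hi x fun y hy => ih y hy.2.1 hy.2.2) hx
    · exact hi x fun y hy => (hx hy.1).elim
  dblH := by
    have := h.dbl_preds
    fun_prop

theorem WF.dbl_collapse {X : M} {lt : M → M → Prop} (h : WF X lt) : Dbl M (collapse X lt) :=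
  h.recData.dbl_recF

theorem WF.mem_collapse {X : M} {lt : M → M → Prop} (h : WF X lt) {x v : M} (hx : x ∈ X) :
    v ∈ collapse X lt x ↔ ∃ y, y ∈ X ∧ lt y x ∧ collapse X lt y = v := by
  have h1 : collapse X lt x = image (fapp (graph (collapse X lt)
      (preds (fun y x => x ∈ X ∧ y ∈ X ∧ lt y x) x))) (preds (fun y x => x ∈ X ∧ y ∈ X ∧ lt y x) x) :=
    h.recData.recF_spec x
  rw [h1, mem_image (by fun_prop)]
  constructor
  · rintro ⟨y, hy, rfl⟩
    rw [fapp_graph h.dbl_collapse hy]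
    have := h.recData.mem_preds.1 hy
    exact ⟨y, this.2.1, this.2.2, rfl⟩
  · rintro ⟨y, hy, hyx, rfl⟩
    have : y ∈ preds (fun y x => x ∈ X ∧ y ∈ X ∧ lt y x) x := h.recData.mem_preds.2 ⟨hx, hy, hyx⟩
    exact ⟨y, this, by rw [fapp_graph h.dbl_collapse this]⟩

theorem WF.isOrd_collapse {X : M} {lt : M → M → Prop} (h : WF X lt) {x : M} (hx : x ∈ X) :
    IsOrd (collapse X lt x) := by
  have h0 := h.dbl_collapse
  refine h.induction (Φ := fun x => IsOrd (collapse X lt x)) (by fun_prop) ?_ hx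
  intro x hx ih
  refine isOrd_of_trans ?_ ?_
  · intro y hy z hz
    obtain ⟨a, ha, hax, rfl⟩ := (h.mem_collapse hx).1 hy
    obtain ⟨b, hb, hba, rfl⟩ := (h.mem_collapse ha).1 hz
    exact (h.mem_collapse hx).2 ⟨b, hb, h.trans b a x hb ha hx hba hax, rfl⟩
  · intro y hy
    obtain ⟨a, ha, hax, rfl⟩ := (h.mem_collapse hx).1 hy
    exact ih a ha hax

theorem WF.irrefl {X : M} {lt : M → M → Prop} (h : WF X lt) {x : M} (hx : x ∈ X) : ¬ lt x x := by
  intro hlt
  obtain ⟨y, hy, hmin⟩ := h.wf (upair x x) (by simp [hx]) ⟨x, by simp⟩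
  have : y = x := by simpa using hy
  subst this
  exact hmin y hy hlt

/-- `x` and `y` are comparable. -/
def Cmp (lt : M → M → Prop) (x y : M) : Prop := lt x y ∨ x = y ∨ lt y x

theorem WF.collapse_inj {X : M} {lt : M → M → Prop} (h : WF X lt) {x y : M} (hx : x ∈ X)
    (hy : y ∈ X) (hc : Cmp lt x y) (he : collapse X lt x = collapse X lt y) : x = y := by
  rcases hc with hc | hc | hc
  · exfalso
    have : collapse X lt x ∈ collapse X lt y := (h.mem_collapse hy).2 ⟨x, hx, hc, rfl⟩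
    rw [he] at this
    exact mem_irrefl _ this
  · exact hc
  · exfalso
    have : collapse X lt y ∈ collapse X lt x := (h.mem_collapse hx).2 ⟨y, hy, hc, rfl⟩
    rw [he] at this
    exact mem_irrefl _ this

/-- If `κ` does not inject into the set of predecessors of `x`, which is linearly ordered, then
the collapse of `x` is an element of `κ`. -/
theorem WF.collapse_mem {X : M} {lt : M → M → Prop} (h : WF X lt) {κ : M} (hκ : IsOrd κ) {x : M}
    (hx : x ∈ X) (hlin : ∀ y z, y ∈ X → z ∈ X → lt y x → lt z x → Cmp lt y z)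
    (hinj : ∀ b : M, (∀ y, y ∈ b ↔ y ∈ X ∧ lt y x) → ¬ Inj κ b) : collapse X lt x ∈ κ := by
  by_contra hcon
  have h0 := h.dbl_collapse
  have hsub : ∀ z, z ∈ κ → z ∈ collapse X lt x := by
    rw [hκ.subset_iff (h.isOrd_collapse hx)]
    rcases (h.isOrd_collapse hx).tri' hκ with h1 | h1 | h1
    · exact (hcon h1).elim
    · exact Or.inr h1.symm
    · exact Or.inl h1
  have hlt := h.dbl
  obtain ⟨b, hb⟩ := small_of_subset (D := fun y => y ∈ X ∧ lt y x) (by fun_prop) X fun y hy => hy.1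
  refine hinj b hb (Inj.of_surj h0 ?_ ?_)
  · intro y hy
    obtain ⟨a, ha, hax, rfl⟩ := (h.mem_collapse hx).1 (hsub y hy)
    exact ⟨a, (hb a).2 ⟨ha, hax⟩, rfl⟩
  · intro y hy z hz he
    obtain ⟨hy1, hy2⟩ := (hb y).1 hy
    obtain ⟨hz1, hz2⟩ := (hb z).1 hz
    exact h.collapse_inj hy1 hz1 (hlin y z hy1 hz1 hy2 hz2) he

end ST

end Pool.Agent.Lib_helper27
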