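import Pool.Agent.Lib_helper27.Sem

/-!
# The forcing relation over a model of ZFC
-/

set_option linter.unusedSectionVars false
set_option linter.unusedVariables false

namespace Pool.Agent.Lib_helper27

universe u v w v'

open Fml

namespace ST

variable {M : Type u} [SetStr M] [ZFC M]

/-- Induction on names. -/
theorem name_induction {Φ : M → Prop} (hΦ : Dbl M Φ)
    (h : ∀ x, (∀ σ s, opair σ s ∈ x → Φ σ) → Φ x) : ∀ x, Φ x := by
  have key : ∀ x, Φ x ∧ (∀ u, u ∈ x → Φ u) ∧ ∀ u, u ∈ x → ∀ v, v ∈ u → Φ v := by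
    refine mem_induction (by fun_prop) ?_
    intro x ih
    refine ⟨h x fun σ s hσ => ?_, fun u hu => (ih u hu).1, fun u hu v hv => (ih u hu).2.1 v hv⟩
    refine (ih _ hσ).2.2 (upair σ σ) ?_ σ ?_
    · rw [opair, mem_upair]; exact Or.inl rfl
    · rw [mem_upair]; exact Or.inl rfl
  exact fun x => (key x).1

/-- forcing equality, for elements of the model -/
def feq {C : M} (A : AtomForce (Cond (EE M) C) M) (p x y : M) : Prop :=
  ∃ h : p ∈ C, A.eq ⟨p, h⟩ x y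

/-- forcing membership, for elements of the model -/
def fmem {C : M} (A : AtomForce (Cond (EE M) C) M) (p x y : M) : Prop :=
  ∃ h : p ∈ C, A.mem ⟨p, h⟩ x y

/-- the order of conditions, for elements of the model -/
def le' (p q : M) : Prop := ∀ z, z ∈ q → z ∈ p

@[fun_prop]
theorem dbl_le' {Γ : Type v} [Ctx M Γ] {f g : Γ → M} (hf : Dbl M f) (hg : Dbl M g) :
    Dbl M (fun γ => le' (f γ) (g γ)) := by
  unfold le'
  fun_prop

section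

variable {C : M} {A : AtomForce (Cond (EE M) C) M}

theorem le_iff {p q : Cond (EE M) C} : p ≤ q ↔ le' p.1 q.1 := Iff.rfl

theorem feq_coe {p : Cond (EE M) C} {x y : M} : feq A p.1 x y ↔ A.eq p x y :=
  ⟨fun ⟨_, h⟩ => h, fun h => ⟨p.2, h⟩⟩

theorem fmem_coe {p : Cond (EE M) C} {x y : M} : fmem A p.1 x y ↔ A.mem p x y :=
  ⟨fun ⟨_, h⟩ => h, fun h => ⟨p.2, h⟩⟩

variable (hA : IsForcingRelation (EE M) C A)

include hA

theorem dbl_feq0 : Dbl M (fun z : M × M × M => feq A z.1 z.2.1 z.2.2) := by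
  rw [dbl_prop_iff]
  exact Set.Definable.preimage_comp (α := _root_.Fin 3) (β := Unit ⊕ (Unit ⊕ Unit))
    (fun i => if i = 0 then Sum.inl () else if i = 1 then Sum.inr (Sum.inl ())
      else Sum.inr (Sum.inr ())) hA.eq_definable

theorem dbl_feq {Γ : Type v} [Ctx M Γ] {f g h : Γ → M} (hf : Dbl M f) (hg : Dbl M g)
    (hh : Dbl M h) : Dbl M (fun γ => feq A (f γ) (g γ) (h γ)) :=
  Dbl.comp (f := fun γ => (f γ, g γ, h γ)) (g := fun z : M × M × M => feq A z.1 z.2.1 z.2.2)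
    (by fun_prop) (dbl_feq0 hA)

theorem fmem_iff {p x y : M} : fmem A p x y ↔ p ∈ C ∧ ∀ q, q ∈ C → le' q p → ∃ r, r ∈ C ∧
    le' r q ∧ ∃ τ t, opair τ t ∈ y ∧ t ∈ C ∧ le' r t ∧ feq A r x τ := by
  constructor
  · rintro ⟨hp, h⟩
    refine ⟨hp, fun q hq hqp => ?_⟩
    obtain ⟨r, hr, τ, t, h1, h2, h3⟩ := (hA.mem_iff _ _ _).1 h ⟨q, hq⟩ hqp
    exact ⟨r.1, r.2, hr, τ, t.1, holds_app.1 h1, t.2, h2, feq_coe.2 h3⟩
  · rintro ⟨hp, h⟩
    refine ⟨hp, (hA.mem_iff _ _ _).2 fun q hq => ?_⟩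
    obtain ⟨r, hr, hrq, τ, t, h1, h2, h3, h4⟩ := h q.1 q.2 hq
    exact ⟨⟨r, hr⟩, hrq, τ, ⟨t, h2⟩, holds_app.2 h1, h3, feq_coe.1 h4⟩

theorem dbl_fmem0 : Dbl M (fun z : M × M × M => fmem A z.1 z.2.1 z.2.2) := by
  have h2 := dbl_feq0 hA
  refine Dbl.congr_prop (p := fun z : M × M × M => z.1 ∈ C ∧ ∀ q, q ∈ C → le' q z.1 →
    ∃ r, r ∈ C ∧ le' r q ∧ ∃ τ t, opair τ t ∈ z.2.2 ∧ t ∈ C ∧ le' r t ∧ feq A r z.2.1 τ) ?_ ?_
  · fun_prop
  · exact fun z => fmem_iff hA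

theorem dbl_fmem {Γ : Type v} [Ctx M Γ] {f g h : Γ → M} (hf : Dbl M f) (hg : Dbl M g)
    (hh : Dbl M h) : Dbl M (fun γ => fmem A (f γ) (g γ) (h γ)) :=
  Dbl.comp (f := fun γ => (f γ, g γ, h γ)) (g := fun z : M × M × M => fmem A z.1 z.2.1 z.2.2)
    (by fun_prop) (dbl_fmem0 hA)

/-! ### Basic properties -/

theorem A_eq_iff {p : Cond (EE M) C} {x y : M} : A.eq p x y ↔
    (∀ (σ : M) (s : Cond (EE M) C), opair σ s.1 ∈ x → ∀ q, q ≤ p → q ≤ s →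
      ∃ r, r ≤ q ∧ ∃ (τ : M) (t : Cond (EE M) C), opair τ t.1 ∈ y ∧ r ≤ t ∧ A.eq r σ τ) ∧
    (∀ (τ : M) (t : Cond (EE M) C), opair τ t.1 ∈ y → ∀ q, q ≤ p → q ≤ t →
      ∃ r, r ≤ q ∧ ∃ (σ : M) (s : Cond (EE M) C), opair σ s.1 ∈ x ∧ r ≤ s ∧ A.eq r σ τ) := by
  rw [hA.eq_iff]
  simp only [holds_app]

theorem A_mem_iff {p : Cond (EE M) C} {x y : M} : A.mem p x y ↔
    ∀ q, q ≤ p → ∃ r, r ≤ q ∧
      ∃ (τ : M) (t : Cond (EE M) C), opair τ t.1 ∈ y ∧ r ≤ t ∧ A.eq r x τ := by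
  rw [hA.mem_iff]
  simp only [holds_app]

theorem frc_eq_refl (p : Cond (EE M) C) (x : M) : A.eq p x x := by
  have h2 := dbl_feq0 hA
  have key : ∀ x : M, ∀ p, p ∈ C → feq A p x x := by
    refine name_induction (by fun_prop) ?_
    intro x ih p hp
    refine ⟨hp, (A_eq_iff hA).2 ⟨fun σ s hσ q hq hqs => ?_, fun σ s hσ q hq hqs => ?_⟩⟩
    · exact ⟨q, le_rfl, σ, s, hσ, hqs, feq_coe.1 (ih σ s.1 hσ q.1 q.2)⟩
    · exact ⟨q, le_rfl, σ, s, hσ, hqs, feq_coe.1 (ih σ s.1 hσ q.1 q.2)⟩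
  exact feq_coe.1 (key x p.1 p.2)

theorem frc_eq_symm {p : Cond (EE M) C} {x y : M} (h : A.eq p x y) : A.eq p y x := by
  have h2 := dbl_feq0 hA
  have key : ∀ x : M, ∀ y p, feq A p x y → feq A p y x := by
    refine name_induction (by fun_prop) ?_
    rintro x ih y p ⟨hp, h⟩
    refine ⟨hp, ?_⟩
    rw [A_eq_iff hA] at h ⊢
    refine ⟨fun τ t hτ q hq hqs => ?_, fun σ s hσ q hq hqs => ?_⟩
    · obtain ⟨r, hr, σ, s, hσ, hs, he⟩ := h.2 τ t hτ q hq hqs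
      exact ⟨r, hr, σ, s, hσ, hs, feq_coe.1 (ih σ s.1 hσ τ r.1 (feq_coe.2 he))⟩
    · obtain ⟨r, hr, τ, t, hτ, ht, he⟩ := h.1 σ s hσ q hq hqs
      exact ⟨r, hr, τ, t, hτ, ht, feq_coe.1 (ih σ s.1 hσ τ r.1 (feq_coe.2 he))⟩
  exact feq_coe.1 (key x y p.1 (feq_coe.2 h))

theorem frc_eq_mono {p q : Cond (EE M) C} {x y : M} (hq : q ≤ p) (h : A.eq p x y) :
    A.eq q x y := by
  rw [A_eq_iff hA] at h ⊢
  exact ⟨fun σ s hσ r hr => h.1 σ s hσ r (hr.trans hq),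
    fun σ s hσ r hr => h.2 σ s hσ r (hr.trans hq)⟩

theorem frc_eq_trans {p : Cond (EE M) C} {x y z : M} (h : A.eq p x y) (h' : A.eq p y z) :
    A.eq p x z := by
  have h2 := dbl_feq0 hA
  have key : ∀ x : M, ∀ y z p, feq A p x y → feq A p y z → feq A p x z := by
    refine name_induction (by fun_prop) ?_
    rintro x ih y z p ⟨hp, h⟩ ⟨_, h'⟩
    refine ⟨hp, ?_⟩
    rw [A_eq_iff hA] at h h' ⊢
    refine ⟨fun σ s hσ q hq hqs => ?_, fun υ u hυ q hq hqs => ?_⟩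
    · obtain ⟨r, hr, τ, t, hτ, ht, he⟩ := h.1 σ s hσ q hq hqs
      obtain ⟨r', hr', υ, u, hυ, hu, he'⟩ := h'.1 τ t hτ r (hr.trans hq) ht
      exact ⟨r', hr'.trans hr, υ, u, hυ, hu, feq_coe.1 (ih σ s.1 hσ τ υ r'.1
        (feq_coe.2 (frc_eq_mono hA hr' he)) (feq_coe.2 he'))⟩
    · obtain ⟨r, hr, τ, t, hτ, ht, he⟩ := h'.2 υ u hυ q hq hqs
      obtain ⟨r', hr', σ, s, hσ, hs, he'⟩ := h.2 τ t hτ r (hr.trans hq) ht
      exact ⟨r', hr'.trans hr, σ, s, hσ, hs, feq_coe.1 (ih σ s.1 hσ τ υ r'.1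
        (feq_coe.2 he') (feq_coe.2 (frc_eq_mono hA hr' he)))⟩
  exact feq_coe.1 (key x y z p.1 (feq_coe.2 h) (feq_coe.2 h'))

theorem frc_eq_dense {p : Cond (EE M) C} {x y : M} (h : ∀ q, q ≤ p → ∃ r, r ≤ q ∧ A.eq r x y) :
    A.eq p x y := by
  rw [A_eq_iff hA]
  refine ⟨fun σ s hσ q hq hqs => ?_, fun τ t hτ q hq hqs => ?_⟩
  · obtain ⟨r, hr, he⟩ := h q hq
    obtain ⟨r', hr', h3⟩ := ((A_eq_iff hA).1 he).1 σ s hσ r le_rfl (hr.trans hqs)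
    exact ⟨r', hr'.trans hr, h3⟩
  · obtain ⟨r, hr, he⟩ := h q hq
    obtain ⟨r', hr', h3⟩ := ((A_eq_iff hA).1 he).2 τ t hτ r le_rfl (hr.trans hqs)
    exact ⟨r', hr'.trans hr, h3⟩

theorem frc_mem_mono {p q : Cond (EE M) C} {x y : M} (hq : q ≤ p) (h : A.mem p x y) :
    A.mem q x y := by
  rw [A_mem_iff hA] at h ⊢
  exact fun r hr => h r (hr.trans hq)

theorem frc_mem_dense {p : Cond (EE M) C} {x y : M} (h : ∀ q, q ≤ p → ∃ r, r ≤ q ∧ A.mem r x y) :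
    A.mem p x y := by
  rw [A_mem_iff hA]
  intro q hq
  obtain ⟨r, hr, he⟩ := h q hq
  obtain ⟨r', hr', h3⟩ := (A_mem_iff hA).1 he r le_rfl
  exact ⟨r', hr'.trans hr, h3⟩

theorem frc_mem_congr {p : Cond (EE M) C} {x x' y y' : M} (hx : A.eq p x x') (hy : A.eq p y y')
    (h : A.mem p x y) : A.mem p x' y' := by
  rw [A_mem_iff hA] at h ⊢
  intro q hq
  obtain ⟨r, hr, τ, t, hτ, ht, he⟩ := h q hq
  obtain ⟨r', hr', τ', t', hτ', ht', he'⟩ := ((A_eq_iff hA).1 hy).1 τ t hτ r (hr.trans hq) ht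
  exact ⟨r', hr'.trans hr, τ', t', hτ', ht', frc_eq_trans hA
    (frc_eq_trans hA (frc_eq_symm hA (frc_eq_mono hA (hr'.trans (hr.trans hq)) hx))
      (frc_eq_mono hA hr' he)) he'⟩

/-- elements of a name are forced into it -/
theorem frc_mem_of {p s : Cond (EE M) C} {σ x : M} (h : opair σ s.1 ∈ x) (hp : p ≤ s) :
    A.mem p σ x :=
  (A_mem_iff hA).2 fun q hq => ⟨q, le_rfl, σ, s, h, hq.trans hp, frc_eq_refl hA q σ⟩

theorem frc_ext {p : Cond (EE M) C} {x y : M}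
    (h : ∀ z, ∀ q, q ≤ p → (A.mem q z x ↔ A.mem q z y)) : A.eq p x y := by
  rw [A_eq_iff hA]
  refine ⟨fun σ s hσ q hq hqs => ?_, fun τ t hτ q hq hqs => ?_⟩
  · have h1 := (h σ q hq).1 (frc_mem_of hA hσ hqs)
    exact (A_mem_iff hA).1 h1 q le_rfl
  · have h1 := (h τ q hq).2 (frc_mem_of hA hτ hqs)
    obtain ⟨r, hr, σ, s, hσ, hs, he⟩ := (A_mem_iff hA).1 h1 q le_rfl
    exact ⟨r, hr, σ, s, hσ, hs, frc_eq_symm hA he⟩

theorem frc_basic : A.Basic where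
  eq_refl := frc_eq_refl hA
  eq_symm := frc_eq_symm hA
  eq_trans := frc_eq_trans hA
  eq_mono := frc_eq_mono hA
  mem_mono := frc_mem_mono hA
  eq_dense := frc_eq_dense hA
  mem_dense := frc_mem_dense hA
  mem_congr := frc_mem_congr hA
  ext := frc_ext hA

theorem frc_found {p : Cond (EE M) C} {x a : M} (h : A.mem p a x) :
    ∃ q, q ≤ p ∧ ∃ b, A.mem q b x ∧ ∀ c, ∀ r, r ≤ q → A.mem r c x → ¬ A.mem r c b := by
  have h2 := dbl_fmem0 hA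
  have key : ∀ a : M, ∀ p, fmem A p a x → ∃ q, q ∈ C ∧ le' q p ∧ ∃ b, fmem A q b x ∧
      ∀ c r, r ∈ C → le' r q → fmem A r c x → ¬ fmem A r c b := by
    refine name_induction (by fun_prop) ?_
    rintro a ih p ⟨hp, h⟩
    by_cases hcase : ∃ (q : Cond (EE M) C) (σ : M) (s : Cond (EE M) C), opair σ s.1 ∈ a ∧
        q ≤ ⟨p, hp⟩ ∧ A.mem q σ x
    · obtain ⟨q, σ, s, hσ, hq, hm⟩ := hcase
      obtain ⟨r, hr, hrq, h3⟩ := ih σ s.1 hσ q.1 (fmem_coe.2 hm)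
      exact ⟨r, hr, fun z hz => hrq z (hq z hz), h3⟩
    · refine ⟨p, hp, fun z hz => hz, a, ⟨hp, h⟩, ?_⟩
      rintro c r hr hrp ⟨_, hcx⟩ ⟨_, hca⟩
      obtain ⟨r', hr', σ, s, hσ, hs, he⟩ := (A_mem_iff hA).1 hca ⟨r, hr⟩ le_rfl
      refine hcase ⟨r', σ, s, hσ, hr'.trans hrp, ?_⟩
      exact frc_mem_congr hA he (frc_eq_refl hA r' x) (frc_mem_mono hA hr' hcx)
  obtain ⟨q, hq, hqp, b, hb, hmin⟩ := key a p.1 (fmem_coe.2 h)
  refine ⟨⟨q, hq⟩, hqp, b, ?_, ?_⟩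
  · exact fmem_coe.1 hb
  · intro c r hr hcx hcb
    exact hmin c r.1 r.2 hr (fmem_coe.2 hcx) (fmem_coe.2 hcb)

end

/-! ### Check names -/

/-- the check name of `x`: `{(chk y, ∅) : y ∈ x}` -/
noncomputable def chk : M → M := recF (fun y x : M => y ∈ x) (fun x g =>
  image (fun y => opair (fapp g y) empty) x)

theorem recData_mem {H : M → M → M} (hH : Dbl M (fun z : M × M => H z.1 z.2)) :
    RecData (fun y x : M => y ∈ x) H where
  dblR := by fun_prop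
  small x := ⟨x, fun y => Iff.rfl⟩
  ind Φ hΦ h := mem_induction hΦ h
  dblH := hH

theorem chk_recData : RecData (fun y x : M => y ∈ x) (fun x g : M =>
    image (fun y => opair (fapp g y) empty) x) := recData_mem (by fun_prop)

@[fun_prop]
theorem dbl_chk {Γ : Type v} [Ctx M Γ] {f : Γ → M} (hf : Dbl M f) : Dbl M (fun γ => chk (f γ)) :=
  Dbl.comp hf chk_recData.dbl_recF

theorem mem_chk' {x z : M} : z ∈ chk x ↔ ∃ y, y ∈ x ∧ z = opair (chk y) empty := by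
  have h1 : chk x = image (fun y => opair (fapp (graph chk (preds (fun y x : M => y ∈ x) x)) y)
      empty) x := chk_recData.recF_spec x
  have h0 : Dbl M (chk : M → M) := by fun_prop
  have h2 : ∀ y, y ∈ x → y ∈ preds (fun y x : M => y ∈ x) x := fun y hy =>
    chk_recData.mem_preds.2 hy
  rw [h1, mem_image (by fun_prop)]
  constructor
  · rintro ⟨y, hy, rfl⟩
    exact ⟨y, hy, by rw [fapp_graph h0 (h2 y hy)]⟩
  · rintro ⟨y, hy, rfl⟩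
    exact ⟨y, hy, by rw [fapp_graph h0 (h2 y hy)]⟩

section

variable {C : M} {A : AtomForce (Cond (EE M) C) M} (hA : IsForcingRelation (EE M) C A)
  (h0 : empty ∈ C)

include hA h0

omit hA in
theorem le_one (p : Cond (EE M) C) : p ≤ (⟨empty, h0⟩ : Cond (EE M) C) :=
  fun z hz => (not_mem_empty z hz).elim

theorem frc_mem_chk {p : Cond (EE M) C} {x b : M} :
    A.mem p x (chk b) ↔ Loc p (fun r => ∃ a, a ∈ b ∧ A.eq r x (chk a)) := by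
  rw [A_mem_iff hA]
  refine forall_congr' fun q => imp_congr_right fun hq => ?_
  constructor
  · rintro ⟨r, hr, τ, t, hτ, ht, he⟩
    obtain ⟨a, ha, h1⟩ := mem_chk'.1 hτ
    rw [(opair_inj.1 h1).1] at he
    exact ⟨r, hr, a, ha, he⟩
  · rintro ⟨r, hr, a, ha, he⟩
    exact ⟨r, hr, chk a, ⟨empty, h0⟩, mem_chk'.2 ⟨a, ha, rfl⟩, le_one h0 r, he⟩

theorem frc_chk_eq {p : Cond (EE M) C} {a b : M} (h : A.eq p (chk a) (chk b)) : a = b := by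
  have h2 := dbl_feq0 hA
  have key : ∀ a : M, ∀ b p, feq A p (chk a) (chk b) → a = b := by
    refine mem_induction (by fun_prop) ?_
    rintro a ih b p ⟨hp, h⟩
    refine ext fun z => ⟨fun hz => ?_, fun hz => ?_⟩
    · obtain ⟨r, _, τ, t, hτ, _, he⟩ := ((A_eq_iff hA).1 h).1 (chk z) ⟨empty, h0⟩
        (mem_chk'.2 ⟨z, hz, rfl⟩) ⟨p, hp⟩ le_rfl (le_one h0 _)
      obtain ⟨w, hw, h1⟩ := mem_chk'.1 hτ
      rw [(opair_inj.1 h1).1] at he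
      rw [ih z hz w r.1 (feq_coe.2 he)]
      exact hw
    · obtain ⟨r, _, τ, t, hτ, _, he⟩ := ((A_eq_iff hA).1 h).2 (chk z) ⟨empty, h0⟩
        (mem_chk'.2 ⟨z, hz, rfl⟩) ⟨p, hp⟩ le_rfl (le_one h0 _)
      obtain ⟨w, hw, h1⟩ := mem_chk'.1 hτ
      rw [(opair_inj.1 h1).1] at he
      rw [← ih w hw z r.1 (feq_coe.2 he)]
      exact hw
  exact key a b p.1 (feq_coe.2 h)

theorem frc_name_pair (x y : M) : ∃ z, ∀ p : Cond (EE M) C, Forces A p (isUPair z x y) := by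
  refine ⟨upair (opair x empty) (opair y empty), fun p w => ?_⟩
  rw [forces_iff (frc_basic hA)]
  intro q _
  rw [forces_or, forces_mem]
  constructor
  · intro h r hr
    obtain ⟨s, hs, τ, t, hτ, _, he⟩ := (A_mem_iff hA).1 h r hr
    rcases mem_upair.1 hτ with h1 | h1
    · rw [(opair_inj.1 h1).1] at he
      exact ⟨s, hs, Or.inl he⟩
    · rw [(opair_inj.1 h1).1] at he
      exact ⟨s, hs, Or.inr he⟩
  · intro h
    refine (A_mem_iff hA).2 fun r hr => ?_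
    obtain ⟨s, hs, h1 | h1⟩ := h r hr
    · exact ⟨s, hs, x, ⟨empty, h0⟩, mem_upair.2 (Or.inl rfl), le_one h0 s, h1⟩
    · exact ⟨s, hs, y, ⟨empty, h0⟩, mem_upair.2 (Or.inr rfl), le_one h0 s, h1⟩

theorem opair_mem_left {σ s x : M} (h : opair σ s ∈ x) : σ ∈ sUnion (sUnion x) := by
  rw [mem_sUnion]
  refine ⟨upair σ σ, mem_sUnion.2 ⟨_, h, ?_⟩, by simp⟩
  rw [opair, mem_upair]
  exact Or.inl rfl

theorem frc_diff (x y : M) : ∃ z, ∀ (p : Cond (EE M) C) w, A.mem p w z ↔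
    (A.mem p w x ∧ ∀ q, q ≤ p → ¬ A.mem q w y) := by
  have h2 := dbl_fmem0 hA
  obtain ⟨z, hz⟩ := small_of_subset (M := M) (D := fun v => ∃ σ r, v = opair σ r ∧ r ∈ C ∧
    (∃ s, s ∈ C ∧ opair σ s ∈ x ∧ le' r s) ∧ ∀ q, q ∈ C → le' q r → ¬ fmem A q σ y)
    (by fun_prop) (prod (sUnion (sUnion x)) C) (by
      rintro v ⟨σ, r, rfl, hr, ⟨s, _, hs, _⟩, _⟩
      exact opair_mem_prod.2 ⟨opair_mem_left hA h0 hs, hr⟩)
  have hz' : ∀ (σ : M) (r : Cond (EE M) C), opair σ r.1 ∈ z ↔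
      (∃ s : Cond (EE M) C, opair σ s.1 ∈ x ∧ r ≤ s) ∧ ∀ q, q ≤ r → ¬ A.mem q σ y := by
    intro σ r
    rw [hz]
    constructor
    · rintro ⟨σ', r', he, hr', ⟨s, hs, h3, h4⟩, h5⟩
      obtain ⟨rfl, rfl⟩ := opair_inj.1 he
      exact ⟨⟨⟨s, hs⟩, h3, h4⟩, fun q hq hm => h5 q.1 q.2 hq (fmem_coe.2 hm)⟩
    · rintro ⟨⟨s, h3, h4⟩, h5⟩
      exact ⟨σ, r.1, rfl, r.2, ⟨s.1, s.2, h3, h4⟩, fun q hq hqr hm =>
        h5 ⟨q, hq⟩ hqr (fmem_coe.1 hm)⟩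
  refine ⟨z, fun p w => ⟨fun h => ⟨?_, ?_⟩, ?_⟩⟩
  · refine (A_mem_iff hA).2 fun q hq => ?_
    obtain ⟨r, hr, τ, t, hτ, ht, he⟩ := (A_mem_iff hA).1 h q hq
    obtain ⟨⟨s, hs, hts⟩, _⟩ := (hz' τ t).1 hτ
    exact ⟨r, hr, τ, s, hs, ht.trans hts, he⟩
  · intro q hq hm
    obtain ⟨r, hr, τ, t, hτ, ht, he⟩ := (A_mem_iff hA).1 h q hq
    exact ((hz' τ t).1 hτ).2 r ht (frc_mem_congr hA he (frc_eq_refl hA r y)
      (frc_mem_mono hA hr hm))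
  · rintro ⟨h3, h4⟩
    refine (A_mem_iff hA).2 fun q hq => ?_
    obtain ⟨r, hr, σ, s, hσ, hs, he⟩ := (A_mem_iff hA).1 h3 q hq
    refine ⟨r, hr, σ, r, (hz' σ r).2 ⟨⟨s, hσ, hs⟩, fun q' hq' hm => ?_⟩, le_rfl, he⟩
    exact h4 q' (hq'.trans (hr.trans hq)) (frc_mem_congr hA
      (frc_eq_symm hA (frc_eq_mono hA hq' he)) (frc_eq_refl hA q' y) hm)

theorem frc_bound (x : M) : ∃ θ, Holds (EE M) (Fml.isOrd θ) ∧
    ∀ p : Cond (EE M) C, ¬ A.mem p (chk θ) x := by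
  have h2 := dbl_feq0 hA
  let f : M → M := fun z => iota (fun α => feq A (fstp z) (chk α) (sndp z))
  have hf : Dbl M f := dbl_iota (by fun_prop)
  obtain ⟨θ, hθ, hθ'⟩ := exists_ord_not_mem (image f (prod C (sUnion (sUnion x))))
  refine ⟨θ, holds_isOrd.2 hθ, fun p h => hθ' ?_⟩
  obtain ⟨r, hr, σ, s, hσ, hs, he⟩ := (A_mem_iff hA).1 h p le_rfl
  rw [mem_image hf]
  refine ⟨opair r.1 σ, opair_mem_prod.2 ⟨r.2, opair_mem_left hA h0 hσ⟩, ?_⟩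
  refine iota_eq ?_ ?_
  · simp only [fstp_opair, sndp_opair]
    exact feq_coe.2 he
  · simp only [fstp_opair, sndp_opair]
    intro α hα
    exact frc_chk_eq hA h0 (frc_eq_trans hA (feq_coe.1 hα) (frc_eq_symm hA he))

theorem frc_sys : Sys A (EE M) chk where
  toBasic := frc_basic hA
  chk_eq := frc_chk_eq hA h0
  mem_chk := frc_mem_chk hA h0
  ground_ext := ext
  ground_pair a b := ⟨upair a b, fun x => mem_upair⟩
  ground_irrefl := mem_irrefl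
  ground_asymm := mem_asymm
  name_pair := frc_name_pair hA h0
  diff := frc_diff hA h0
  found := frc_found hA
  bound := frc_bound hA h0

end

end ST

end Pool.Agent.Lib_helper27
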