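import Pool.Agent.Lib_helper27.FrcM

/-!
# The ground model construction of a weak Kurepa tree
-/

set_option linter.unusedSectionVars false
set_option linter.unusedVariables false

namespace Pool.Agent.Lib_helper27

universe u v w v'

open Fml

namespace ST

variable {M : Type u} [SetStr M] [ZFC M]

/-- If `S ⊆ lam` does not inject into `κ`, but all elements of `lam` do, then `lam` injects
into `S`. -/
theorem inj_of_not_inj {κ lam S : M} (hl : IsOrd lam) (hl1 : ¬ Inj lam κ)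
    (hl2 : ∀ c, c ∈ lam → Inj c κ) (hS : ∀ x, x ∈ S → x ∈ lam) (hS' : ¬ Inj S κ) : Inj lam S := by
  have hwf : WF S (fun x y : M => x ∈ y) :=
    { dbl := by fun_prop
      trans := fun x y z hx hy hz h1 h2 => (hl.mem (hS z hz)).trans h2 h1
      wf := by
        rintro T hT ⟨x, hx⟩
        exact foundation hx }
  have hcmp : ∀ x y, x ∈ S → y ∈ S → Cmp (fun x y : M => x ∈ y) x y := fun x y hx hy =>
    hl.tri (hS x hx) (hS y hy)
  have hmem : ∀ x, x ∈ S → collapse S (fun x y : M => x ∈ y) x ∈ lam := by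
    intro x hx
    refine hwf.collapse_mem hl hx (fun y z hy hz _ _ => hcmp y z hy hz) ?_
    intro b hb hinj
    refine hl1 (hinj.trans ((Inj.of_subset (b := x) fun y hy => ((hb y).1 hy).2).trans
      (hl2 x (hS x hx))))
  have hdbl := hwf.dbl_collapse
  have hθ : ∀ v, v ∈ image (collapse S (fun x y : M => x ∈ y)) S ↔
      ∃ x, x ∈ S ∧ collapse S (fun x y : M => x ∈ y) x = v := fun v => mem_image hdbl
  have hθo : IsOrd (image (collapse S (fun x y : M => x ∈ y)) S) := by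
    refine isOrd_of_trans ?_ ?_
    · intro y hy z hz
      obtain ⟨x, hx, rfl⟩ := (hθ y).1 hy
      obtain ⟨w, hw, _, rfl⟩ := (hwf.mem_collapse hx).1 hz
      exact (hθ _).2 ⟨w, hw, rfl⟩
    · intro y hy
      obtain ⟨x, hx, rfl⟩ := (hθ y).1 hy
      exact hwf.isOrd_collapse hx
  have hθl : ∀ z, z ∈ image (collapse S (fun x y : M => x ∈ y)) S → z ∈ lam := by
    intro z hz
    obtain ⟨x, hx, rfl⟩ := (hθ z).1 hz
    exact hmem x hx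
  have hinj : ∀ x, x ∈ S → ∀ y, y ∈ S → collapse S (fun x y : M => x ∈ y) x =
      collapse S (fun x y : M => x ∈ y) y → x = y := fun x hx y hy he =>
    hwf.collapse_inj hx hy (hcmp x y hx hy) he
  rcases (hθo.subset_iff hl).1 hθl with h | h
  · exfalso
    exact hS' ((Inj.of_fun hdbl (fun x hx => (hθ _).2 ⟨x, hx, rfl⟩) hinj).trans (hl2 _ h))
  · refine Inj.of_surj hdbl (fun y hy => ?_) hinj
    rw [← h] at hy
    exact (hθ y).1 hy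

theorem inj_succ_omega {δ : M} (hδo : IsOrd δ) (hδ : Inj δ omega) : Inj (succ δ) omega := by
  rcases hδo.inf_or_nat with h | h
  · exact h.succ_inj.trans hδ
  · exact Inj.of_subset fun x hx => isOrd_omega.trans (succ_mem_omega h) hx

/-- Assumptions on the ground-model relations extracted from a name for a weak Kurepa tree. -/
structure Rels (κ lam D : M) (ht rl br : M → M → M → Prop) : Prop where
  hκ : IsOrd κ
  hκ1 : ¬ Inj κ omega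
  hκ2 : ∀ c, c ∈ κ → Inj c omega
  hl : IsOrd lam
  hl1 : ¬ Inj lam κ
  hl2 : ∀ c, c ∈ lam → Inj c κ
  hD : Inj D omega
  dht : Dbl M (fun z : M × M × M => ht z.1 z.2.1 z.2.2)
  drl : Dbl M (fun z : M × M × M => rl z.1 z.2.1 z.2.2)
  dbr : Dbl M (fun z : M × M × M => br z.1 z.2.1 z.2.2)
  P1 : ∀ r α δ δ', r ∈ D → α ∈ κ → ht r α δ → ht r α δ' → δ = δ'
  P2 : ∀ r α β δ δ', r ∈ D → α ∈ κ → β ∈ κ → rl r α β → ht r α δ → ht r β δ' → δ ∈ δ'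
  P3 : ∀ r α β γ, r ∈ D → α ∈ κ → β ∈ κ → γ ∈ κ → rl r α β → rl r β γ → rl r α γ
  P4 : ∀ r α β γ δ δ', r ∈ D → α ∈ κ → β ∈ κ → γ ∈ κ → rl r α γ → rl r β γ → ht r α δ →
    ht r β δ' → δ ∈ δ' → rl r α β
  P4' : ∀ r α β γ δ, r ∈ D → α ∈ κ → β ∈ κ → γ ∈ κ → rl r α γ → rl r β γ → ht r α δ →
    ht r β δ → α = β
  P5 : ∀ r ξ α β δ δ', r ∈ D → ξ ∈ lam → α ∈ κ → β ∈ κ → br r ξ α → br r ξ β → ht r α δ →
    ht r β δ' → δ ∈ δ' → rl r α β
  P5' : ∀ r ξ α β δ, r ∈ D → ξ ∈ lam → α ∈ κ → β ∈ κ → br r ξ α → br r ξ β → ht r α δ →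
    ht r β δ → α = β
  P6 : ∀ r ξ α β, r ∈ D → ξ ∈ lam → α ∈ κ → β ∈ κ → br r ξ α → rl r β α → br r ξ β
  P7 : ∀ ξ δ, ξ ∈ lam → δ ∈ κ → ∃ r, r ∈ D ∧ ∃ α, α ∈ κ ∧ ht r α δ ∧ br r ξ α
  P8 : ∀ r ξ η, r ∈ D → ξ ∈ lam → η ∈ lam → (∀ δ, δ ∈ κ → ∃ α δ', α ∈ κ ∧ δ ∈ δ' ∧ ht r α δ' ∧
    br r ξ α ∧ br r η α) → ξ = η

namespace Rels

variable {κ lam D : M} {ht rl br : M → M → M → Prop} (h : Rels κ lam D ht rl br)

/-- the tree order decided by `r` -/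
def lt (κ : M) (ht rl : M → M → M → Prop) (r α β : M) : Prop :=
  rl r α β ∧ (∃ δ, δ ∈ κ ∧ ht r α δ) ∧ ∃ δ, δ ∈ κ ∧ ht r β δ

include h

theorem dbl_lt3 : Dbl M (fun z : M × M × M => lt κ ht rl z.1 z.2.1 z.2.2) := by
  have h1 := h.dht
  have h2 := h.drl
  unfold lt
  fun_prop

theorem infOrd : InfOrd κ := by
  rcases h.hκ.inf_or_nat with h1 | h1
  · exact h1
  · exact (h.hκ1 (Inj.of_subset fun x hx => isOrd_omega.trans h1 hx)).elim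

theorem cmp_preds {r x y z : M} (hr : r ∈ D) (hx : x ∈ κ) (hy : y ∈ κ) (hz : z ∈ κ)
    (h1 : lt κ ht rl r y x) (h2 : lt κ ht rl r z x) : Cmp (lt κ ht rl r) y z := by
  obtain ⟨δ, hδ, hy1⟩ := h1.2.1
  obtain ⟨ε, hε, hz1⟩ := h2.2.1
  rcases h.hκ.tri hδ hε with h3 | h3 | h3
  · exact Or.inl ⟨h.P4 r y z x δ ε hr hy hz hx h1.1 h2.1 hy1 hz1 h3, h1.2.1, h2.2.1⟩
  · subst h3
    exact Or.inr (Or.inl (h.P4' r y z x δ hr hy hz hx h1.1 h2.1 hy1 hz1))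
  · exact Or.inr (Or.inr ⟨h.P4 r z y x ε δ hr hz hy hx h2.1 h1.1 hz1 hy1 h3, h2.2.1, h1.2.1⟩)

theorem wf {r : M} (hr : r ∈ D) : WF κ (lt κ ht rl r) where
  dbl := by
    have h1 := h.dbl_lt3
    fun_prop
  trans x y z hx hy hz h1 h2 := ⟨h.P3 r x y z hr hx hy hz h1.1 h2.1, h1.2.1, h2.2.2⟩
  wf := by
    have h1 := h.dht
    rintro S hS ⟨x, hx⟩
    by_cases hdec : ∃ δ, δ ∈ κ ∧ ∃ α, α ∈ S ∧ ht r α δ
    · obtain ⟨δ, hδ, α, hα, hαδ⟩ := hdec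
      obtain ⟨δ0, hδ0, ⟨α0, hα0, hα0δ0⟩, hmin⟩ := exists_least_of_mem
        (Φ := fun δ => ∃ α, α ∈ S ∧ ht r α δ) (by fun_prop) hδ ⟨α, hα, hαδ⟩
      refine ⟨α0, hα0, fun y hy hlt => ?_⟩
      obtain ⟨ε, hε, hyε⟩ := hlt.2.1
      exact hmin ε hε (h.P2 r y α0 ε δ0 hr (hS y hy) (hS α0 hα0) hlt.1 hyε hα0δ0) ⟨y, hy, hyε⟩
    · refine ⟨x, hx, fun y hy hlt => ?_⟩
      obtain ⟨ε, hε, hyε⟩ := hlt.2.1
      exact hdec ⟨ε, hε, y, hy, hyε⟩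

omit h in
/-- the (decided) height of `α` -/
noncomputable def hgt (ht : M → M → M → Prop) (r α : M) : M := iota (fun δ => ht r α δ)

theorem dbl_hgt : Dbl M (fun z : M × M => hgt ht z.1 z.2) := by
  have h1 := h.dht
  exact dbl_iota (by fun_prop)

theorem hgt_eq {r α δ : M} (hr : r ∈ D) (hα : α ∈ κ) (hδ : ht r α δ) : hgt ht r α = δ :=
  iota_eq hδ fun δ' h' => h.P1 r α δ' δ hr hα h' hδ

theorem preds_countable {r x : M} (hr : r ∈ D) (hx : x ∈ κ) (b : M)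
    (hb : ∀ y, y ∈ b ↔ y ∈ κ ∧ lt κ ht rl r y x) : Inj b omega := by
  have h1 := h.dbl_hgt
  by_cases hdec : ∃ δ, δ ∈ κ ∧ ht r x δ
  · obtain ⟨δ, hδ, hxδ⟩ := hdec
    refine Inj.trans (b := δ) (Inj.of_fun (φ := hgt ht r) (by fun_prop) ?_ ?_) (h.hκ2 δ hδ)
    · intro y hy
      obtain ⟨hy1, hy2⟩ := (hb y).1 hy
      obtain ⟨ε, hε, hyε⟩ := hy2.2.1
      rw [h.hgt_eq hr hy1 hyε]
      exact h.P2 r y x ε δ hr hy1 hx hy2.1 hyε hxδ
    · intro y hy z hz he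
      obtain ⟨hy1, hy2⟩ := (hb y).1 hy
      obtain ⟨hz1, hz2⟩ := (hb z).1 hz
      obtain ⟨ε, hε, hyε⟩ := hy2.2.1
      obtain ⟨ζ, hζ, hzζ⟩ := hz2.2.1
      rw [h.hgt_eq hr hy1 hyε, h.hgt_eq hr hz1 hzζ] at he
      subst he
      exact h.P4' r y z x ε hr hy1 hz1 hx hy2.1 hz2.1 hyε hzζ
  · have : b = empty := eq_empty_iff.2 fun y hy => hdec ((hb y).1 hy).2.2.2
    rw [this]
    exact Inj.of_subset fun x hx => (not_mem_empty x hx).elim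

/-- the height function of the tree decided by `r` maps into `κ` -/
theorem collapse_mem {r x : M} (hr : r ∈ D) (hx : x ∈ κ) :
    collapse κ (lt κ ht rl r) x ∈ κ := by
  refine (h.wf hr).collapse_mem h.hκ hx
    (fun y z hy hz h1 h2 => h.cmp_preds hr hx hy hz h1 h2) ?_
  intro b hb hinj
  exact h.hκ1 (hinj.trans (h.preds_countable hr hx b hb))

omit h in
/-- the set of nodes decided by `r` to be in the `ξ`-th branch (and with decided height) -/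
noncomputable def B (κ : M) (ht br : M → M → M → Prop) (r ξ : M) : M :=
  comp (fun α => α ∈ κ ∧ (∃ δ, δ ∈ κ ∧ ht r α δ) ∧ br r ξ α)

theorem small_B (r ξ : M) : Small (fun α => α ∈ κ ∧ (∃ δ, δ ∈ κ ∧ ht r α δ) ∧ br r ξ α) := by
  have h1 := h.dht
  have h2 := h.dbr
  exact small_sep (D := fun α => (∃ δ, δ ∈ κ ∧ ht r α δ) ∧ br r ξ α) (by fun_prop) κ

theorem mem_B {r ξ α : M} : α ∈ B κ ht br r ξ ↔ α ∈ κ ∧ (∃ δ, δ ∈ κ ∧ ht r α δ) ∧ br r ξ α :=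
  mem_comp (h.small_B r ξ)

theorem dbl_B : Dbl M (fun z : M × M => B κ ht br z.1 z.2) := by
  have h1 := h.dht
  have h2 := h.dbr
  exact dbl_comp (fun z : M × M => h.small_B z.1 z.2) (by fun_prop)

theorem B_cmp {r ξ α β : M} (hr : r ∈ D) (hξ : ξ ∈ lam) (hα : α ∈ B κ ht br r ξ)
    (hβ : β ∈ B κ ht br r ξ) : Cmp (lt κ ht rl r) α β := by
  obtain ⟨hα1, ⟨δ, hδ, hαδ⟩, hα2⟩ := h.mem_B.1 hα
  obtain ⟨hβ1, ⟨ε, hε, hβε⟩, hβ2⟩ := h.mem_B.1 hβ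
  rcases h.hκ.tri hδ hε with h3 | h3 | h3
  · exact Or.inl ⟨h.P5 r ξ α β δ ε hr hξ hα1 hβ1 hα2 hβ2 hαδ hβε h3, ⟨δ, hδ, hαδ⟩, ⟨ε, hε, hβε⟩⟩
  · subst h3
    exact Or.inr (Or.inl (h.P5' r ξ α β δ hr hξ hα1 hβ1 hα2 hβ2 hαδ hβε))
  · exact Or.inr (Or.inr ⟨h.P5 r ξ β α ε δ hr hξ hβ1 hα1 hβ2 hα2 hβε hαδ h3,
      ⟨ε, hε, hβε⟩, ⟨δ, hδ, hαδ⟩⟩)

theorem B_down {r ξ α β : M} (hr : r ∈ D) (hξ : ξ ∈ lam) (hα : α ∈ B κ ht br r ξ)
    (hβ : β ∈ κ) (hlt : lt κ ht rl r β α) : β ∈ B κ ht br r ξ := by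
  obtain ⟨hα1, _, hα2⟩ := h.mem_B.1 hα
  exact h.mem_B.2 ⟨hβ, hlt.2.1, h.P6 r ξ α β hr hξ hα1 hβ hα2 hlt.1⟩

/-- Some condition decides uncountably many nodes of the `ξ`-th branch. -/
theorem exists_good {ξ : M} (hξ : ξ ∈ lam) : ∃ r, r ∈ D ∧ ¬ Inj (B κ ht br r ξ) omega := by
  by_contra hcon
  push Not at hcon
  have h1 := h.dht
  have h2 := h.dbr
  refine h.hκ1 (inj_union infOrd_omega h.hD
    (R := fun r δ => ∃ α, α ∈ κ ∧ ht r α δ ∧ br r ξ α) (by fun_prop) ?_ ?_)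
  · intro δ hδ
    exact h.P7 ξ δ hξ hδ
  · intro r hr Y hY
    refine Inj.trans (b := B κ ht br r ξ) ?_ (hcon r hr)
    have key : ∀ δ, δ ∈ Y → ∃! α, α ∈ κ ∧ ht r α δ ∧ br r ξ α := by
      intro δ hδ
      obtain ⟨hδκ, α, hα, hαδ, hα2⟩ := (hY δ).1 hδ
      refine ⟨α, ⟨hα, hαδ, hα2⟩, ?_⟩
      rintro β ⟨hβ, hβδ, hβ2⟩
      exact h.P5' r ξ β α δ hr hξ hβ hα hβ2 hα2 hβδ hαδ
    refine Inj.of_fun (φ := fun δ => iota (fun α => α ∈ κ ∧ ht r α δ ∧ br r ξ α))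
      (dbl_iota (by fun_prop)) ?_ ?_
    · intro δ hδ
      obtain ⟨h3, h4, h5⟩ := iota_spec (key δ hδ)
      exact h.mem_B.2 ⟨h3, ⟨δ, ((hY δ).1 hδ).1, h4⟩, h5⟩
    · intro δ hδ ε hε he
      obtain ⟨h3, h4, h5⟩ := iota_spec (key δ hδ)
      obtain ⟨h3', h4', h5'⟩ := iota_spec (key ε hε)
      have he' : iota (fun α => α ∈ κ ∧ ht r α δ ∧ br r ξ α) =
        iota (fun α => α ∈ κ ∧ ht r α ε ∧ br r ξ α) := he
      rw [← he'] at h4'
      exact h.P1 r _ δ ε hr h3 h4 h4'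

/-- Some condition is good for `ω₂` many branches. -/
theorem exists_very_good : ∃ r, r ∈ D ∧ ∃ φ : M → M, Dbl M φ ∧
    (∀ ξ, ξ ∈ lam → φ ξ ∈ lam ∧ ¬ Inj (B κ ht br r (φ ξ)) omega) ∧
    ∀ ξ, ξ ∈ lam → ∀ η, η ∈ lam → φ ξ = φ η → ξ = η := by
  have hB := h.dbl_B
  by_contra hcon
  refine h.hl1 (inj_union h.infOrd (h.hD.trans (Inj.of_subset h.infOrd.2))
    (R := fun r ξ => ¬ Inj (B κ ht br r ξ) omega) (by fun_prop) ?_ ?_)
  · intro ξ hξ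
    exact h.exists_good hξ
  · intro r hr Y hY
    by_contra hY'
    obtain ⟨φ, hφ, h1, h2⟩ := (inj_of_not_inj h.hl h.hl1 h.hl2
      (fun x hx => ((hY x).1 hx).1) hY').exists_fun
    exact hcon ⟨r, hr, φ, hφ, fun ξ hξ => (hY _).1 (h1 ξ hξ), h2⟩

/-- a good branch meets every level of the decided tree -/
theorem B_levels {r ξ : M} (hr : r ∈ D) (hξ : ξ ∈ lam) (hB : ¬ Inj (B κ ht br r ξ) omega)
    {v : M} (hv : v ∈ κ) : ∃ α, α ∈ B κ ht br r ξ ∧ collapse κ (lt κ ht rl r) α = v := by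
  have hwf := h.wf hr
  have hd := hwf.dbl_collapse
  have hBκ : ∀ α, α ∈ B κ ht br r ξ → α ∈ κ := fun α hα => (h.mem_B.1 hα).1
  have hθ : ∀ v, v ∈ image (collapse κ (lt κ ht rl r)) (B κ ht br r ξ) ↔
      ∃ α, α ∈ B κ ht br r ξ ∧ collapse κ (lt κ ht rl r) α = v := fun v => mem_image hd
  have hθo : IsOrd (image (collapse κ (lt κ ht rl r)) (B κ ht br r ξ)) := by
    refine isOrd_of_trans ?_ ?_
    · intro y hy z hz
      obtain ⟨x, hx, rfl⟩ := (hθ y).1 hy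
      obtain ⟨w, hw, hwx, rfl⟩ := (hwf.mem_collapse (hBκ x hx)).1 hz
      exact (hθ _).2 ⟨w, h.B_down hr hξ hx hw hwx, rfl⟩
    · intro y hy
      obtain ⟨x, hx, rfl⟩ := (hθ y).1 hy
      exact hwf.isOrd_collapse (hBκ x hx)
  have hθκ : ∀ z, z ∈ image (collapse κ (lt κ ht rl r)) (B κ ht br r ξ) → z ∈ κ := by
    intro z hz
    obtain ⟨x, hx, rfl⟩ := (hθ z).1 hz
    exact h.collapse_mem hr (hBκ x hx)
  rcases (hθo.subset_iff h.hκ).1 hθκ with h1 | h1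
  · exfalso
    refine hB (Inj.trans (Inj.of_fun hd (fun x hx => (hθ _).2 ⟨x, hx, rfl⟩) ?_) (h.hκ2 _ h1))
    intro x hx y hy he
    exact hwf.collapse_inj (hBκ x hx) (hBκ y hy) (h.B_cmp hr hξ hx hy) he
  · rw [← h1] at hv
    exact (hθ v).1 hv

/-- distinct indices give distinct good branches -/
theorem B_inj {r ξ η : M} (hr : r ∈ D) (hξ : ξ ∈ lam) (hη : η ∈ lam)
    (hB : ¬ Inj (B κ ht br r ξ) omega) (he : B κ ht br r ξ = B κ ht br r η) : ξ = η := by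
  refine h.P8 r ξ η hr hξ hη fun δ hδ => ?_
  by_contra hcon
  have hd := h.dbl_hgt
  refine hB (Inj.trans (b := succ δ) (Inj.of_fun (φ := hgt ht r) (by fun_prop) ?_ ?_)
    (inj_succ_omega (h.hκ.mem hδ) (h.hκ2 δ hδ)))
  · intro α hα
    obtain ⟨hα1, ⟨ε, hε, hαε⟩, hα2⟩ := h.mem_B.1 hα
    have hα' := hα
    rw [he] at hα'
    obtain ⟨_, _, hα3⟩ := h.mem_B.1 hα'
    rw [h.hgt_eq hr hα1 hαε, mem_succ]
    rcases h.hκ.tri hε hδ with h1 | h1 | h1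
    · exact Or.inl h1
    · exact Or.inr h1
    · exact (hcon ⟨α, ε, hα1, h1, hαε, hα2, hα3⟩).elim
  · intro α hα β hβ heq
    obtain ⟨hα1, ⟨ε, hε, hαε⟩, hα2⟩ := h.mem_B.1 hα
    obtain ⟨hβ1, ⟨ζ, hζ, hβζ⟩, hβ2⟩ := h.mem_B.1 hβ
    rw [h.hgt_eq hr hα1 hαε, h.hgt_eq hr hβ1 hβζ] at heq
    subst heq
    exact h.P5' r ξ α β ε hr hξ hα1 hβ1 hα2 hβ2 hαε hβζ

/-- The weak Kurepa hypothesis holds in the ground model. -/
theorem wKH : Holds (EE M) (Fml.wKH : Fml M) := by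
  obtain ⟨r, hr, φ, hφ, hφ1, hφ2⟩ := h.exists_very_good
  have hwf := h.wf hr
  have hlt := hwf.dbl
  have hcol := hwf.dbl_collapse
  have hBd := h.dbl_B
  let f : M → M := fun ξ => B κ ht br r (φ ξ)
  have hf : Dbl M f := by
    show Dbl M (fun ξ => B κ ht br r (φ ξ))
    fun_prop
  obtain ⟨R, hR⟩ := small_of_subset (M := M)
    (D := fun z => ∃ x, x ∈ κ ∧ ∃ y, y ∈ κ ∧ z = opair x y ∧ lt κ ht rl r x y) (by fun_prop)
    (prod κ κ) (by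
      rintro z ⟨x, hx, y, hy, rfl, _⟩
      exact opair_mem_prod.2 ⟨hx, hy⟩)
  have hR' : ∀ x y, opair x y ∈ R ↔ x ∈ κ ∧ y ∈ κ ∧ lt κ ht rl r x y := by
    intro x y
    rw [hR]
    constructor
    · rintro ⟨x', hx, y', hy, he, hxy⟩
      obtain ⟨rfl, rfl⟩ := opair_inj.1 he
      exact ⟨hx, hy, hxy⟩
    · rintro ⟨hx, hy, hxy⟩
      exact ⟨x, hx, y, hy, rfl, hxy⟩
  have hgr : ∀ x y, opair x y ∈ graph (collapse κ (lt κ ht rl r)) κ ↔
      x ∈ κ ∧ collapse κ (lt κ ht rl r) x = y := fun x y => opair_mem_graph hcol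
  -- lam is nonempty
  have hlne : ∃ ξ, ξ ∈ lam := by
    by_contra hcon
    push Not at hcon
    exact h.hl1 (Inj.of_subset fun x hx => (hcon x hx).elim)
  obtain ⟨ξ0, hξ0⟩ := hlne
  rw [Fml.wKH]
  simp only [holds_ex, holds_and]
  refine ⟨omega, κ, lam, holds_isOmega.2 rfl, holds_isHartogs.2 ⟨h.hκ, h.hκ1, h.hκ2⟩,
    holds_isHartogs.2 ⟨h.hl, h.hl1, h.hl2⟩, κ, R, graph (collapse κ (lt κ ht rl r)) κ,
    graph (fun x => x) κ, image f lam, graph f lam, ?_, ?_, ?_, ?_, ?_⟩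
  · -- tree
    unfold isTree
    simp only [holds_and, holds_ball, holds_bex, holds_opair, holds_neg, holds_app, holds_imp,
      holds_or, holds_eq, holds_all, holds_ex, holds_mem, mem_def]
    refine ⟨?_, ?_, ?_, ?_⟩
    · intro z hz
      obtain ⟨x, hx, y, hy, he, _⟩ := (hR z).1 hz
      exact ⟨x, hx, y, hy, he⟩
    · intro x hx hxx
      exact hwf.irrefl hx ((hR' x x).1 hxx).2.2
    · rintro x hx y hy z hz ⟨h1, h2⟩
      exact (hR' x z).2 ⟨hx, hz, hwf.trans x y z hx hy hz ((hR' x y).1 h1).2.2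
        ((hR' y z).1 h2).2.2⟩
    · intro t ht'
      have hcmp : ∀ x, x ∈ κ → ∀ y, y ∈ κ → opair x t ∈ R → opair y t ∈ R →
          (opair x y ∈ R ∨ x = y ∨ opair y x ∈ R) := by
        intro x hx y hy h1 h2
        rcases h.cmp_preds hr ht' hx hy ((hR' x t).1 h1).2.2 ((hR' y t).1 h2).2.2 with h3 | h3 | h3
        · exact Or.inl ((hR' x y).2 ⟨hx, hy, h3⟩)
        · exact Or.inr (Or.inl h3)
        · exact Or.inr (Or.inr ((hR' y x).2 ⟨hy, hx, h3⟩))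
      refine ⟨fun x hx y hy h12 => hcmp x hx y hy h12.1 h12.2, ?_⟩
      rintro S ⟨hS1, hS2⟩
      obtain ⟨x, hx, hmin⟩ := hwf.wf S (fun x hx => (hS1 x hx).1) hS2
      refine ⟨x, hx, fun y hy => ?_⟩
      rcases hcmp x (hS1 x hx).1 y (hS1 y hy).1 (hS1 x hx).2 (hS1 y hy).2 with h1 | h1 | h1
      · exact Or.inr h1
      · exact Or.inl h1
      · exact (hmin y hy ((hR' y x).1 h1).2.2).elim
  · -- height
    unfold isHeight
    simp only [holds_and, holds_ball, holds_bex, holds_app, holds_imp,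
      holds_all, holds_iff, holds_mem, mem_def, holds_isFunc]
    refine ⟨⟨?_, ?_, ?_⟩, ?_, ?_⟩
    · intro z hz
      obtain ⟨x, hx, rfl⟩ := (mem_graph hcol).1 hz
      exact ⟨x, hx, _, h.collapse_mem hr hx, rfl⟩
    · intro x hx
      exact ⟨_, h.collapse_mem hr hx, (hgr _ _).2 ⟨hx, rfl⟩⟩
    · rintro x y y' ⟨h1, h2⟩
      rw [← ((hgr x y).1 h1).2, ← ((hgr x y').1 h2).2]
    · intro t ht' d hd c
      rw [← ((hgr t d).1 hd).2, hwf.mem_collapse ht']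
      constructor
      · rintro ⟨s, hs, hst, he⟩
        exact ⟨s, hs, (hR' s t).2 ⟨hs, ht', hst⟩, (hgr s c).2 ⟨hs, he⟩⟩
      · rintro ⟨s, hs, hst, he⟩
        exact ⟨s, hs, ((hR' s t).1 hst).2.2, ((hgr s c).1 he).2⟩
    · intro a ha
      obtain ⟨α, hα, he⟩ := h.B_levels hr (hφ1 ξ0 hξ0).1 (hφ1 ξ0 hξ0).2 ha
      have hα' := (h.mem_B.1 hα).1
      exact ⟨α, hα', (hgr _ _).2 ⟨hα', he⟩⟩
  · -- bijection
    have hid : Dbl M (fun x : M => x) := by fun_prop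
    unfold isBij
    rw [holds_and, holds_isInj]
    refine ⟨isInjSet_graph hid (fun x hx => hx) fun _ _ _ _ h => h, ?_⟩
    simp only [holds_ball, holds_bex, holds_app, mem_def]
    intro y hy
    exact ⟨y, hy, (opair_mem_graph hid).2 ⟨hy, rfl⟩⟩
  · -- branches
    rw [holds_ball]
    intro b hb
    obtain ⟨ξ, hξ, rfl⟩ := (mem_image hf).1 hb
    obtain ⟨hξ1, hξ2⟩ := hφ1 ξ hξ
    unfold isCofBranch
    simp only [holds_and, holds_ball, holds_bex, holds_app, holds_isSubset, holds_or,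
      holds_eq, mem_def]
    refine ⟨fun x hx => (h.mem_B.1 hx).1, ?_, ?_⟩
    · intro x hx y hy
      have hx' := (h.mem_B.1 hx).1
      have hy' := (h.mem_B.1 hy).1
      rcases h.B_cmp hr hξ1 hx hy with h3 | h3 | h3
      · exact Or.inl ((hR' x y).2 ⟨hx', hy', h3⟩)
      · exact Or.inr (Or.inl h3)
      · exact Or.inr (Or.inr ((hR' y x).2 ⟨hy', hx', h3⟩))
    · intro a ha
      obtain ⟨α, hα, he⟩ := h.B_levels hr hξ1 hξ2 ha
      exact ⟨α, hα, (hgr _ _).2 ⟨(h.mem_B.1 hα).1, he⟩⟩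
  · -- injection
    rw [holds_isInj]
    refine isInjSet_graph hf (fun x hx => (mem_image hf).2 ⟨x, hx, rfl⟩) ?_
    intro ξ hξ η hη he
    exact hφ2 ξ hξ η hη (h.B_inj hr (hφ1 ξ hξ).1 (hφ1 η hη).1 (hφ1 ξ hξ).2 he)

end Rels

end ST

end Pool.Agent.Lib_helper27
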