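import Mathlib

/-!
# Models of ZFC

A model of ZFC is a type `M` with a binary relation `E` (read as membership) satisfying the axioms
of ZFC. It need not be well-founded, countable or transitive.
-/

namespace Pool.Agent.Lib_helper27

universe u

/-- The relation symbols of the language of set theory: one binary symbol. -/
inductive SetRel : ℕ → Type
  | mem : SetRel 2

/-- The first-order language of set theory `{∈}` (equality is logical). -/
def LSet : FirstOrder.Language := ⟨fun _ => Empty, SetRel⟩

/-- The structure `(M, E)` for the language of set theory. -/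
@[reducible]
def setStructure {M : Type u} (E : M → M → Prop) : LSet.Structure M where
  funMap := fun f => f.elim
  RelMap := fun r => match r with
    | SetRel.mem => fun x => E (x 0) (x 1)

/-- `(M, E)` is a model of ZFC. The schemas of Separation and Replacement are required for all
classes and class relations that are first-order definable over `(M, E)` with parameters. -/
structure IsModelOfZFC {M : Type u} (E : M → M → Prop) : Prop where
  extensionality : ∀ x y, (∀ z, E z x ↔ E z y) → x = y
  foundation : ∀ x, (∃ y, E y x) → ∃ y, E y x ∧ ∀ z, E z x → ¬ E z y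
  pairing : ∀ x y, ∃ z, ∀ w, E w z ↔ w = x ∨ w = y
  union : ∀ x, ∃ z, ∀ w, E w z ↔ ∃ y, E y x ∧ E w y
  powerset : ∀ x, ∃ z, ∀ w, E w z ↔ ∀ v, E v w → E v x
  infinity : ∃ x, (∃ e, E e x ∧ ∀ z, ¬ E z e) ∧
    ∀ y, E y x → ∃ s, E s x ∧ ∀ z, E z s ↔ E z y ∨ z = y
  separation : ∀ D : Set M, @Set.Definable₁ M Set.univ LSet (setStructure E) D →
    ∀ a, ∃ b, ∀ x, E x b ↔ E x a ∧ x ∈ D
  replacement : ∀ R : Set (M × M), @Set.Definable₂ M Set.univ LSet (setStructure E) R →
    ∀ a, (∀ x, E x a → ∃! y, (x, y) ∈ R) → ∃ b, ∀ y, E y b ↔ ∃ x, E x a ∧ (x, y) ∈ R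
  choice : ∀ a, (∀ x, E x a → ∃ y, E y x) →
    (∀ x y, E x a → E y a → (∃ z, E z x ∧ E z y) → x = y) →
      ∃ c, ∀ x, E x a → ∃! y, E y x ∧ E y c

end Pool.Agent.Lib_helper27
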