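import Pool.Agent.Lib_helper27.Fml
import Pool.Agent.Lib_helper27.Model

/-!
# Cohen forcing over an arbitrary model `(M, E)` of ZFC
-/

set_option linter.unusedSectionVars false
set_option linter.unusedVariables false

namespace Pool.Agent.Lib_helper27

universe u v w v'

open Fml FirstOrder

namespace Fml

variable {U : Type v}

/-- `x` is empty -/
def isEmpty (x : U) : Fml U := all fun y => neg (mem y x)

/-- `x = {0, 1}` -/
def isTwo (x : U) : Fml U :=
  ex fun o => ex fun l => and (isEmpty o) (and (isUPair l o o) (isUPair x o l))

/-- `p` is a finite partial function from `W` to `N` (finite: there is an injection of `p` into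
an element of `W`; this will be used for `W = ω`) -/
def isFinPartFun (W N p : U) : Fml U :=
  and (ball p fun z => bex W fun n => bex N fun i => isOPair z n i)
    (and (all fun n => all fun i => all fun j => imp (and (app p n i) (app p n j)) (eq i j))
      (bex W fun k => ex fun f => isInj f p k))

/-- `C` is the Cohen poset: the set of all finite partial functions from `ω` to `2` -/
def isCohenPoset (C : U) : Fml U :=
  ex fun W => ex fun N => and (isOmega W) (and (isTwo N)
    (all fun p => iff (mem p C) (isFinPartFun W N p)))

end Fml

/-- The conditions: elements of `C` in the sense of `(M, E)`. -/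
@[ext]
structure Cond {M : Type u} (E : M → M → Prop) (C : M) : Type u where
  /-- the underlying element of `M` -/
  val : M
  /-- it is an element of `C` -/
  mem : E val C

/-- The conditions are ordered by reverse inclusion. -/
instance instPreorderCond {M : Type u} (E : M → M → Prop) (C : M) : Preorder (Cond E C) where
  le p q := ∀ z, E z q.1 → E z p.1
  le_refl _ _ h := h
  le_trans _ _ _ h1 h2 z h := h1 z (h2 z h)

/-- `A` is the forcing relation of `(M, E)` for atomic formulas and the poset `C` ordered by reverse
inclusion. All elements of `M` serve as names; the element `x` is a name for the set of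
(the interpretations of) all `σ` such that `(σ, s) ∈ x` for some condition `s` in the generic
filter. The first two clauses are the usual recursion for `p ⊩ x = y` and `p ⊩ x ∈ y`; the last one
says that the forcing relation for equality is definable over `(M, E)`, which makes the relation
unique (the model need not be well-founded). -/
structure IsForcingRelation {M : Type u} (E : M → M → Prop) (C : M)
    (A : AtomForce (Cond E C) M) : Prop where
  eq_iff : ∀ (p : Cond E C) (x y : M), A.eq p x y ↔
    (∀ (σ : M) (s : Cond E C), Holds E (app x σ s.1) → ∀ q, q ≤ p → q ≤ s →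
      ∃ r, r ≤ q ∧ ∃ (τ : M) (t : Cond E C), Holds E (app y τ t.1) ∧ r ≤ t ∧ A.eq r σ τ) ∧
    (∀ (τ : M) (t : Cond E C), Holds E (app y τ t.1) → ∀ q, q ≤ p → q ≤ t →
      ∃ r, r ≤ q ∧ ∃ (σ : M) (s : Cond E C), Holds E (app x σ s.1) ∧ r ≤ s ∧ A.eq r σ τ)
  mem_iff : ∀ (p : Cond E C) (x y : M), A.mem p x y ↔
    ∀ q, q ≤ p → ∃ r, r ≤ q ∧
      ∃ (τ : M) (t : Cond E C), Holds E (app y τ t.1) ∧ r ≤ t ∧ A.eq r x τ
  eq_definable : @Set.Definable M Set.univ LSet (setStructure E) (Fin 3)
    {v | ∃ h : E (v 0) C, A.eq ⟨v 0, h⟩ (v 1) (v 2)}

end Pool.Agent.Lib_helper27
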