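import Pool.Agent.Lib_helper27.Abs

/-!
# Ordinals in the forcing language
-/

set_option linter.unusedSectionVars false
set_option linter.unusedVariables false

namespace Pool.Agent.Lib_helper27

universe u v w v'

open Fml

namespace Sys

variable {P : Type w} [Preorder P] {U : Type v} {A : AtomForce P U} {M : Type v'}
  {E : M → M → Prop} {chk : M → U}

variable (hS : Sys A E chk)

include hS

theorem forces_isSubset {p : P} {x y : U} :
    Forces A p (isSubset x y) ↔ ∀ z, ∀ q, q ≤ p → A.mem q z x → A.mem q z y := by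
  rw [isSubset, forces_ball hS.toBasic]
  rfl

/-- If no condition below `p` forces `z ∈ y` then ... else -/
theorem mem_or_not (p : P) (z y : U) :
    (∃ q, q ≤ p ∧ A.mem q z y) ∨ ∀ q, q ≤ p → ¬ A.mem q z y := by
  by_cases h : ∃ q, q ≤ p ∧ A.mem q z y
  · exact Or.inl h
  · push Not at h
    exact Or.inr h

theorem mem_of_not_not {p : P} {z y : U}
    (h : ∀ q, q ≤ p → ¬ ∀ r, r ≤ q → ¬ A.mem r z y) : A.mem p z y := by
  refine hS.mem_dense fun q hq => ?_
  have := h q hq
  push Not at this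
  exact this

/-- transitivity of ordinals in the forcing language -/
theorem ord_trans {p : P} {x y z : U} (hx : Forces A p (isOrd x)) (h1 : A.mem p y x)
    (h2 : A.mem p z y) : A.mem p z x :=
  hS.forces_isSubset.1 ((forces_ball hS.toBasic).1 hx.1 y p le_rfl h1) z p le_rfl h2

theorem ord_tri {p : P} {x y z : U} (hx : Forces A p (isOrd x)) (h1 : A.mem p y x)
    (h2 : A.mem p z x) : Loc p (fun q => A.mem q y z ∨ A.eq q y z ∨ A.mem q z y) := by
  have h3 := (forces_ball hS.toBasic).1 ((forces_ball hS.toBasic).1 hx.2 y p le_rfl h1) z p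
    le_rfl h2
  refine (forces_or.1 h3).bind ?_
  rintro q hq (h | h)
  · exact Loc.pure fun r hr => Or.inl (hS.mem_mono hr h)
  · refine (forces_or.1 h).imp ?_
    rintro r hr (h | h)
    · exact Or.inr (Or.inl h)
    · exact Or.inr (Or.inr h)

/-- Either `x ⊆ y` or there is a minimal element of `x \ y`. -/
theorem ord_min {p : P} {x y : U} (hx : Forces A p (isOrd x)) :
    (∀ z, ∀ q, q ≤ p → A.mem q z x → A.mem q z y) ∨
      ∃ q, q ≤ p ∧ ∃ a, A.mem q a x ∧ (∀ r, r ≤ q → ¬ A.mem r a y) ∧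
        (∀ z, ∀ r, r ≤ q → A.mem r z a → A.mem r z y) := by
  obtain ⟨d, hd⟩ := hS.diff x y
  by_cases h : ∃ q, q ≤ p ∧ ∃ a, A.mem q a d
  · right
    obtain ⟨q, hq, a, ha⟩ := h
    obtain ⟨r, hr, b, hb, hmin⟩ := hS.found ha
    have hb' := (hd r b).1 hb
    refine ⟨r, hr.trans hq, b, hb'.1, hb'.2, ?_⟩
    intro z s hs hz
    refine hS.mem_of_not_not fun t ht hcon => ?_
    have hzx : A.mem t z x := hS.ord_trans (Forces.mono hS.toBasic (ht.trans (hs.trans (hr.trans hq))) hx)
      (hS.mem_mono (ht.trans hs) hb'.1) (hS.mem_mono ht hz)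
    exact hmin z t (ht.trans hs) ((hd t z).2 ⟨hzx, hcon⟩) (hS.mem_mono ht hz)
  · left
    push Not at h
    intro z q hq hz
    refine hS.mem_of_not_not fun r hr hcon => ?_
    exact h r (hr.trans hq) z ((hd r z).2 ⟨hS.mem_mono hr hz, hcon⟩)

theorem ord_subset_total {p : P} {x y : U} (hx : Forces A p (isOrd x))
    (hy : Forces A p (isOrd y)) :
    Loc p (fun q => Forces A q (isSubset x y) ∨ Forces A q (isSubset y x)) := by
  intro q hq
  have hB := hS.toBasic
  rcases hS.ord_min (x := x) (y := y) (Forces.mono hB hq hx) with h | ⟨r, hr, a, hax, hay, hsub⟩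
  · exact ⟨q, le_rfl, Or.inl (hS.forces_isSubset.2 h)⟩
  rcases hS.ord_min (x := y) (y := x) (Forces.mono hB (hr.trans hq) hy) with h | ⟨s, hs, b, hby, hbx, hsub'⟩
  · exact ⟨r, hr, Or.inr (hS.forces_isSubset.2 h)⟩
  exfalso
  have hx' : ∀ t, t ≤ s → Forces A t (isOrd x) := fun t ht =>
    Forces.mono hB (ht.trans (hs.trans (hr.trans hq))) hx
  have hy' : ∀ t, t ≤ s → Forces A t (isOrd y) := fun t ht =>
    Forces.mono hB (ht.trans (hs.trans (hr.trans hq))) hy
  have hab : A.eq s a b := by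
    refine hS.ext fun c t ht => ⟨fun hc => ?_, fun hc => ?_⟩
    · -- c ∈ a
      have hcx := hS.ord_trans (hx' t ht) (hS.mem_mono (ht.trans hs) hax) hc
      have hcy := hsub c t (ht.trans hs) hc
      refine hS.mem_dense ((hS.ord_tri (hy' t ht) hcy (hS.mem_mono ht hby)).imp ?_)
      rintro v hv (h | h | h)
      · exact h
      · exact (hbx v (hv.trans ht) (hS.mem_congr h (hS.eq_refl v x) (hS.mem_mono hv hcx))).elim
      · exact (hbx v (hv.trans ht) (hS.ord_trans (hx' v (hv.trans ht)) (hS.mem_mono hv hcx) h)).elim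
    · have hcy := hS.ord_trans (hy' t ht) (hS.mem_mono ht hby) hc
      have hcx := hsub' c t ht hc
      refine hS.mem_dense ((hS.ord_tri (hx' t ht) hcx (hS.mem_mono (ht.trans hs) hax)).imp ?_)
      rintro v hv (h | h | h)
      · exact h
      · exact (hay v (hv.trans (ht.trans hs))
          (hS.mem_congr h (hS.eq_refl v y) (hS.mem_mono hv hcy))).elim
      · exact (hay v (hv.trans (ht.trans hs))
          (hS.ord_trans (hy' v (hv.trans ht)) (hS.mem_mono hv hcy) h)).elim
  exact hbx s le_rfl (hS.mem_congr hab (hS.eq_refl s x) (hS.mem_mono hs hax))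

theorem ord_eq_or_mem {p : P} {x y : U} (hx : Forces A p (isOrd x))
    (hy : Forces A p (isOrd y)) (hxy : Forces A p (isSubset x y)) :
    Loc p (fun q => A.eq q x y ∨ A.mem q x y) := by
  intro q hq
  have hB := hS.toBasic
  have hxy' := hS.forces_isSubset.1 hxy
  rcases hS.ord_min (x := y) (y := x) (Forces.mono hB hq hy) with h | ⟨s, hs, b, hby, hbx, hsub'⟩
  · exact ⟨q, le_rfl, Or.inl (hS.ext fun z r hr =>
      ⟨fun hz => hxy' z r (hr.trans hq) hz, fun hz => h z r hr hz⟩)⟩
  have hx' : ∀ t, t ≤ s → Forces A t (isOrd x) := fun t ht =>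
    Forces.mono hB (ht.trans (hs.trans hq)) hx
  have hy' : ∀ t, t ≤ s → Forces A t (isOrd y) := fun t ht =>
    Forces.mono hB (ht.trans (hs.trans hq)) hy
  have hab : A.eq s x b := by
    refine hS.ext fun c t ht => ⟨fun hc => ?_, fun hc => hsub' c t ht hc⟩
    have hcy := hxy' c t (ht.trans (hs.trans hq)) hc
    refine hS.mem_dense ((hS.ord_tri (hy' t ht) hcy (hS.mem_mono ht hby)).imp ?_)
    rintro v hv (h | h | h)
    · exact h
    · exact (hbx v (hv.trans ht) (hS.mem_congr h (hS.eq_refl v x) (hS.mem_mono hv hc))).elim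
    · exact (hbx v (hv.trans ht) (hS.ord_trans (hx' v (hv.trans ht)) (hS.mem_mono hv hc) h)).elim
  exact ⟨s, hs, Or.inr (hS.mem_congr (hS.eq_symm hab) (hS.eq_refl s y) hby)⟩

theorem isOrd_congr {p : P} {x y : U} (h : A.eq p x y) (hx : Forces A p (isOrd x)) :
    Forces A p (isOrd y) :=
  (Forces.congr hS.toBasic (Fml.Rel.isOrd (hS.eq_refl p) h) le_rfl).1 hx

/-- Every ordinal of the extension is an ordinal of the ground structure. -/
theorem ord_eq_chk {p : P} {x : U} (hx : Forces A p (isOrd x)) :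
    Loc p (fun q => ∃ α, Holds E (isOrd α) ∧ A.eq q x (chk α)) := by
  obtain ⟨θ, hθ, hb⟩ := hS.bound x
  have hB := hS.toBasic
  have hθ' : ∀ q, Forces A q (isOrd (chk θ)) := fun q => (hS.abs_isOrd θ q).2 hθ
  refine (hS.ord_subset_total hx (hθ' p)).bind ?_
  rintro q hq (h | h)
  · refine (hS.ord_eq_or_mem (Forces.mono hB hq hx) (hθ' q) h).bind ?_
    rintro r hr (h | h)
    · exact Loc.pure fun s hs => ⟨θ, hθ, hS.eq_mono hs h⟩
    · refine (hS.mem_chk.1 h).imp ?_
      rintro s hs ⟨α, _, he⟩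
      refine ⟨α, ?_, he⟩
      exact (hS.abs_isOrd α s).1 (hS.isOrd_congr he (Forces.mono hB (hs.trans (hr.trans hq)) hx))
  · refine (hS.ord_eq_or_mem (hθ' q) (Forces.mono hB hq hx) h).imp ?_
    rintro r hr (h | h)
    · exact ⟨θ, hθ, hS.eq_symm h⟩
    · exact (hb r h).elim

end Sys

end Pool.Agent.Lib_helper27
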