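import Pool.Agent.Lib_helper27.ZFC

/-!
# Ordinals inside a model of ZFC
-/

set_option linter.unusedSectionVars false
set_option linter.unusedVariables false

namespace Pool.Agent.Lib_helper27

universe u v w v'

namespace ST

variable {M : Type u} [SetStr M] [ZFC M]

/-! ### Foundation -/

theorem mem_irrefl (x : M) : ¬ x ∈ x := by
  intro h
  obtain ⟨y, hy, hy'⟩ := foundation (x := upair x x) (y := x) (by simp)
  have : y = x := by simpa using hy
  subst this
  exact hy' y (by simp) h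

theorem mem_asymm {x y : M} (h : x ∈ y) : ¬ y ∈ x := by
  intro h'
  obtain ⟨z, hz, hz'⟩ := foundation (x := upair x y) (y := x) (by simp)
  rcases mem_upair.1 hz with rfl | rfl
  · exact hz' y (by simp) h'
  · exact hz' x (by simp) h

theorem mem_asymm3 {x y z : M} (h : x ∈ y) (h' : y ∈ z) : ¬ z ∈ x := by
  intro h''
  obtain ⟨w, hw, hw'⟩ := foundation (x := union (upair x y) (upair z z)) (y := x) (by simp)
  simp only [mem_union, mem_upair, or_self] at hw hw'
  rcases hw with (rfl | rfl) | rfl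
  · exact hw' z (Or.inr rfl) h''
  · exact hw' x (Or.inl (Or.inl rfl)) h
  · exact hw' y (Or.inl (Or.inr rfl)) h'

/-! ### Ordinals -/

/-- `x` is an ordinal -/
def IsOrd (x : M) : Prop :=
  (∀ y, y ∈ x → ∀ z, z ∈ y → z ∈ x) ∧
    ∀ y, y ∈ x → ∀ z, z ∈ x → (y ∈ z ∨ y = z ∨ z ∈ y)

@[fun_prop]
theorem dbl_isOrd {Γ : Type v} [Ctx M Γ] {f : Γ → M} (hf : Dbl M f) :
    Dbl M (fun γ => IsOrd (f γ)) := by
  unfold IsOrd
  fun_prop

theorem IsOrd.trans {x y z : M} (h : IsOrd x) (hy : y ∈ x) (hz : z ∈ y) : z ∈ x := h.1 y hy z hz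

theorem IsOrd.tri {x y z : M} (h : IsOrd x) (hy : y ∈ x) (hz : z ∈ x) : y ∈ z ∨ y = z ∨ z ∈ y :=
  h.2 y hy z hz

theorem IsOrd.mem {x y : M} (h : IsOrd x) (hy : y ∈ x) : IsOrd y := by
  refine ⟨fun z hz w hw => ?_, fun z hz w hw => h.tri (h.trans hy hz) (h.trans hy hw)⟩
  rcases h.tri (h.trans (h.trans hy hz) hw) hy with h1 | h1 | h1
  · exact h1
  · subst h1
    exact (mem_asymm hz hw).elim
  · exact (mem_asymm3 h1 hw hz).elim

/-- Minimal elements of definable nonempty classes of ordinals -/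
theorem exists_least_of_mem {Φ : M → Prop} (hΦ : Dbl M Φ) {a x : M} (hx : x ∈ a) (h : Φ x) :
    ∃ y, y ∈ a ∧ Φ y ∧ ∀ z, z ∈ a → z ∈ y → ¬ Φ z := by
  obtain ⟨b, hb⟩ := sep_exists hΦ a
  obtain ⟨y, hy, hy'⟩ := foundation ((hb x).2 ⟨hx, h⟩)
  refine ⟨y, ((hb y).1 hy).1, ((hb y).1 hy).2, fun z hz hzy hΦz => ?_⟩
  exact hy' z ((hb z).2 ⟨hz, hΦz⟩) hzy

theorem IsOrd.tri' {x y : M} (hx : IsOrd x) (hy : IsOrd y) : x ∈ y ∨ x = y ∨ y ∈ x := by
  by_cases h1 : ∃ a, a ∈ x ∧ ¬ a ∈ y
  · obtain ⟨a0, ha0, ha0'⟩ := h1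
    obtain ⟨a, ha, hay, hamin⟩ := exists_least_of_mem (Φ := fun a => ¬ a ∈ y) (by fun_prop) ha0 ha0'
    have hay' : ∀ z, z ∈ a → z ∈ y := fun z hz => by
      by_contra hcon
      exact hamin z (hx.trans ha hz) hz hcon
    by_cases h2 : ∃ b, b ∈ y ∧ ¬ b ∈ x
    · obtain ⟨b0, hb0, hb0'⟩ := h2
      obtain ⟨b, hb, hbx, hbmin⟩ :=
        exists_least_of_mem (Φ := fun a => ¬ a ∈ x) (by fun_prop) hb0 hb0'
      have hbx' : ∀ z, z ∈ b → z ∈ x := fun z hz => by
        by_contra hcon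
        exact hbmin z (hy.trans hb hz) hz hcon
      exfalso
      have : a = b := by
        refine ext fun z => ⟨fun hz => ?_, fun hz => ?_⟩
        · rcases hy.tri (hay' z hz) hb with h | h | h
          · exact h
          · subst h
            exact (hbx (hx.trans ha hz)).elim
          · exact (hbx (hx.trans (hx.trans ha hz) h)).elim
        · rcases hx.tri (hbx' z hz) ha with h | h | h
          · exact h
          · subst h
            exact (hay (hy.trans hb hz)).elim
          · exact (hay (hy.trans (hy.trans hb hz) h)).elim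
      subst this
      exact hbx ha
    · push Not at h2
      right; right
      have : y = a := by
        refine ext fun z => ⟨fun hz => ?_, fun hz => hay' z hz⟩
        rcases hx.tri (h2 z hz) ha with h | h | h
        · exact h
        · subst h
          exact (hay hz).elim
        · exact (hay (hy.trans hz h)).elim
      subst this
      exact ha
  · push Not at h1
    by_cases h2 : ∃ b, b ∈ y ∧ ¬ b ∈ x
    · obtain ⟨b0, hb0, hb0'⟩ := h2
      obtain ⟨b, hb, hbx, hbmin⟩ :=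
        exists_least_of_mem (Φ := fun a => ¬ a ∈ x) (by fun_prop) hb0 hb0'
      have hbx' : ∀ z, z ∈ b → z ∈ x := fun z hz => by
        by_contra hcon
        exact hbmin z (hy.trans hb hz) hz hcon
      left
      have : x = b := by
        refine ext fun z => ⟨fun hz => ?_, fun hz => hbx' z hz⟩
        rcases hy.tri (h1 z hz) hb with h | h | h
        · exact h
        · subst h
          exact (hbx hz).elim
        · exact (hbx (hx.trans hz h)).elim
      subst this
      exact hb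
    · push Not at h2
      right; left
      exact ext fun z => ⟨h1 z, h2 z⟩

theorem IsOrd.subset_iff {x y : M} (hx : IsOrd x) (hy : IsOrd y) :
    (∀ z, z ∈ x → z ∈ y) ↔ x ∈ y ∨ x = y := by
  constructor
  · intro h
    rcases hx.tri' hy with h1 | h1 | h1
    · exact Or.inl h1
    · exact Or.inr h1
    · exact (mem_irrefl y (h y h1)).elim
  · rintro (h | rfl) z hz
    · exact hy.trans h hz
    · exact hz

theorem isOrd_empty : IsOrd (empty : M) :=
  ⟨fun y hy => (not_mem_empty y hy).elim, fun y hy => (not_mem_empty y hy).elim⟩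

theorem IsOrd.succ {x : M} (hx : IsOrd x) : IsOrd (succ x) := by
  refine ⟨fun y hy z hz => ?_, fun y hy z hz => ?_⟩
  · rw [mem_succ] at hy ⊢
    rcases hy with hy | rfl
    · exact Or.inl (hx.trans hy hz)
    · exact Or.inl hz
  · rw [mem_succ] at hy hz
    rcases hy with hy | rfl
    · rcases hz with hz | rfl
      · exact hx.tri hy hz
      · exact Or.inl hy
    · rcases hz with hz | rfl
      · exact Or.inr (Or.inr hz)
      · exact Or.inr (Or.inl rfl)

/-- A transitive set of ordinals is an ordinal. -/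
theorem isOrd_of_trans {x : M} (h : ∀ y, y ∈ x → ∀ z, z ∈ y → z ∈ x)
    (h' : ∀ y, y ∈ x → IsOrd y) : IsOrd x :=
  ⟨h, fun y hy z hz => (h' y hy).tri' (h' z hz)⟩

/-- There is an ordinal outside of any given set. -/
theorem exists_ord_not_mem (a : M) : ∃ θ : M, IsOrd θ ∧ ¬ θ ∈ a := by
  by_contra hcon
  push Not at hcon
  obtain ⟨b, hb⟩ := sep_exists (D := fun x : M => IsOrd x) (by fun_prop) a
  have hb' : ∀ x, x ∈ b ↔ IsOrd x := fun x => by
    rw [hb]; exact ⟨fun h => h.2, fun h => ⟨hcon x h, h⟩⟩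
  have hord : IsOrd b := by
    refine isOrd_of_trans (fun y hy z hz => ?_) fun y hy => (hb' y).1 hy
    exact (hb' z).2 (((hb' y).1 hy).mem hz)
  exact mem_irrefl b ((hb' b).2 hord)

/-- Every definable class of ordinals has a least element. -/
theorem exists_least {Φ : M → Prop} (hΦ : Dbl M Φ) {x : M} (hx : IsOrd x) (h : Φ x) :
    ∃ y, IsOrd y ∧ Φ y ∧ ∀ z, z ∈ y → ¬ Φ z := by
  obtain ⟨y, hy, hΦy, hmin⟩ := exists_least_of_mem (a := succ x) hΦ (mem_succ.2 (Or.inr rfl)) h
  exact ⟨y, hx.succ.mem hy, hΦy, fun z hz => hmin z (hx.succ.trans hy hz) hz⟩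

/-- Induction on ordinals. -/
theorem ord_induction {Φ : M → Prop} (hΦ : Dbl M Φ)
    (h : ∀ x, IsOrd x → (∀ y, y ∈ x → Φ y) → Φ x) {x : M} (hx : IsOrd x) : Φ x := by
  by_contra hcon
  obtain ⟨y, hy, hy', hmin⟩ := exists_least (Φ := fun x => ¬ Φ x) hΦ.not hx hcon
  exact hy' (h y hy fun z hz => not_not.1 (hmin z hz))

/-! ### The natural numbers -/

/-- The class of natural numbers. -/
def IsNat (n : M) : Prop :=
  IsOrd n ∧ ∀ k, k ∈ n ∨ k = n → (∃ x, x ∈ k) → ∃ x, x ∈ k ∧ ∀ y, y ∈ k → ¬ x ∈ y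

@[fun_prop]
theorem dbl_isNat {Γ : Type v} [Ctx M Γ] {f : Γ → M} (hf : Dbl M f) :
    Dbl M (fun γ => IsNat (f γ)) := by
  unfold IsNat
  fun_prop

theorem IsNat.zero_or_succ {n : M} (h : IsNat n) : n = empty ∨ ∃ m, IsNat m ∧ n = succ m := by
  by_cases h0 : ∃ x, x ∈ n
  · right
    obtain ⟨m, hm, hmax⟩ := h.2 n (Or.inr rfl) h0
    refine ⟨m, ⟨h.1.mem hm, ?_⟩, ?_⟩
    · rintro k (hk | rfl)
      · exact h.2 k (Or.inl (h.1.trans hm hk))
      · exact h.2 k (Or.inl hm)
    · refine ext fun z => ?_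
      rw [mem_succ]
      constructor
      · intro hz
        rcases h.1.tri hz hm with h1 | h1 | h1
        · exact Or.inl h1
        · exact Or.inr h1
        · exact (hmax z hz h1).elim
      · rintro (hz | rfl)
        · exact h.1.trans hm hz
        · exact hm
  · left
    push Not at h0
    exact eq_empty_iff.2 h0

theorem isNat_empty : IsNat (empty : M) := by
  refine ⟨isOrd_empty, ?_⟩
  rintro k (hk | rfl)
  · exact (not_mem_empty k hk).elim
  · rintro ⟨x, hx⟩
    exact (not_mem_empty x hx).elim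

theorem IsNat.succ {n : M} (h : IsNat n) : IsNat (succ n) := by
  refine ⟨h.1.succ, ?_⟩
  rintro k (hk | rfl)
  · rw [mem_succ] at hk
    exact h.2 k hk
  · intro _
    refine ⟨n, mem_succ.2 (Or.inr rfl), fun y hy => ?_⟩
    rcases mem_succ.1 hy with hy | rfl
    · exact mem_asymm hy
    · exact mem_irrefl _

theorem IsNat.mem {n m : M} (h : IsNat n) (hm : m ∈ n) : IsNat m := by
  refine ⟨h.1.mem hm, ?_⟩
  rintro k (hk | rfl)
  · exact h.2 k (Or.inl (h.1.trans hm hk))
  · exact h.2 k (Or.inl hm)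

theorem small_isNat : Small (fun n : M => IsNat n) := by
  obtain ⟨X, ⟨e, he, he'⟩, hX⟩ := (ZFC.out (M := M)).infinity
  refine small_of_subset (by fun_prop) X ?_
  have he0 : e = empty := eq_empty_iff.2 he'
  intro n hn
  refine ord_induction (Φ := fun n => IsNat n → n ∈ X) (by fun_prop) ?_ hn.1 hn
  intro x _ ih hx
  rcases hx.zero_or_succ with rfl | ⟨m, hm, rfl⟩
  · exact he0 ▸ he
  · obtain ⟨s, hs, hs'⟩ := hX m (ih m (mem_succ.2 (Or.inr rfl)) hm)
    have : s = ST.succ m := ext fun z => by rw [mem_succ]; exact hs' z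
    exact this ▸ hs

/-- The set of natural numbers. -/
noncomputable def omega : M := comp IsNat

theorem mem_omega {n : M} : n ∈ (omega : M) ↔ IsNat n := mem_comp small_isNat

theorem isOrd_omega : IsOrd (omega : M) :=
  isOrd_of_trans (fun y hy z hz => mem_omega.2 ((mem_omega.1 hy).mem hz))
    fun y hy => (mem_omega.1 hy).1

theorem empty_mem_omega : (empty : M) ∈ (omega : M) := mem_omega.2 isNat_empty

theorem succ_mem_omega {n : M} (hn : n ∈ (omega : M)) : succ n ∈ (omega : M) :=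
  mem_omega.2 (mem_omega.1 hn).succ

theorem omega_induction {Φ : M → Prop} (hΦ : Dbl M Φ) (h0 : Φ empty)
    (h1 : ∀ n, n ∈ (omega : M) → Φ n → Φ (succ n)) {n : M} (hn : n ∈ (omega : M)) : Φ n := by
  refine ord_induction (Φ := fun n => n ∈ (omega : M) → Φ n) (by fun_prop) ?_
    (isOrd_omega.mem hn) hn
  intro x _ ih hx
  rcases (mem_omega.1 hx).zero_or_succ with rfl | ⟨m, hm, rfl⟩
  · exact h0
  · exact h1 m (mem_omega.2 hm) (ih m (mem_succ.2 (Or.inr rfl)) (mem_omega.2 hm))

theorem eq_omega {w : M} (h1 : IsOrd w) (h2 : ∃ x, x ∈ w) (h3 : ∀ x, x ∈ w → ∃ y, y ∈ w ∧ x ∈ y)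
    (h4 : ∀ k, k ∈ w → (∃ x, x ∈ k) → ∃ x, x ∈ k ∧ ∀ y, y ∈ k → ¬ x ∈ y) : w = omega := by
  have hnat : ∀ n, n ∈ w → IsNat n := fun n hn => ⟨h1.mem hn, fun k hk => by
    rcases hk with hk | rfl
    · exact h4 k (h1.trans hn hk)
    · exact h4 k hn⟩
  rcases h1.tri' isOrd_omega with h | h | h
  · exfalso
    obtain ⟨x, hx, hx'⟩ := (mem_omega.1 h).2 w (Or.inr rfl) h2
    obtain ⟨y, hy, hxy⟩ := h3 x hx
    exact hx' y hy hxy
  · exact h
  · exact (mem_irrefl _ (mem_omega.2 (hnat _ h))).elim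

end ST

end Pool.Agent.Lib_helper27
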