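import Pool.Agent.Lib_helper27.Tree

/-!
# Unpacking a forced weak Kurepa hypothesis
-/

namespace Pool.Agent.Lib_helper27

universe u v w v'

open Fml

variable {P : Type w} [Preorder P] {U : Type v} {A : AtomForce P U} {M : Type v'}
  {E : M → M → Prop} {chk : M → U}

/-- The ground-model facts about injections used to identify `ω₁` and `ω₂`. -/
structure Descend (A : AtomForce P U) (E : M → M → Prop) (chk : M → U) : Prop where
  /-- a forced injection into (the check name of) an infinite ordinal gives a ground injection -/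
  desc : ∀ {p f a b w}, Holds E (isOmega w) → Holds E (isOrd b) → (∀ x, E x w → E x b) →
    Forces A p (isInj f (chk a) (chk b)) → ∃ g, Holds E (isInj g a b)
  /-- `ω ⊆ ω₁` -/
  big : ∀ {w k}, Holds E (isOmega w) → Holds E (isHartogs w k) → ∀ x, E x w → E x k

namespace Sys

variable (hS : Sys A E chk) (hD : Descend A E chk)

include hS hD

theorem hartogs_eq_chk {p : P} {w a : M} {K : U} (hw : Holds E (isOmega w))
    (ha : Holds E (isOrd a)) (hwa : ∀ x, E x w → E x a) (h : Forces A p (isHartogs (chk a) K)) :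
    Loc p (fun q => ∃ k, Holds E (isHartogs a k) ∧ A.eq q K (chk k)) := by
  have hB := hS.toBasic
  refine (hS.ord_eq_chk h.1).imp ?_
  rintro q hq ⟨k, hk, he⟩
  refine ⟨k, ?_, he⟩
  have h' : Forces A q (isHartogs (chk a) (chk k)) :=
    (Forces.congr hB (Fml.Rel.isHartogs (hS.eq_refl q) (hS.eq_refl q _) he) le_rfl).1
      (Forces.mono hB hq h)
  refine ⟨hk, ?_, ?_⟩
  · rw [holds_neg, holds_ex]
    rintro ⟨f, hf⟩
    refine h'.2.1 q le_rfl (forces_ex.2 (Loc.pure fun r _ => ⟨chk f, ?_⟩))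
    exact hS.forces_isInj_chk hf
  · rw [holds_ball]
    intro c hc
    rw [holds_ex]
    have h1 := (forces_ball hB).1 h'.2.2 (chk c) q le_rfl (hS.mem_chk_of hc)
    obtain ⟨r, _, f, hf⟩ := (forces_ex.1 h1).exists
    exact hD.desc hw ha hwa hf

theorem unpack {p : P} (h : Forces A p wKH) :
    ∃ q, q ≤ p ∧ ∃ w κ lam T R h e S F, Holds E (isOmega w) ∧ Holds E (isHartogs w κ) ∧
      Holds E (isHartogs κ lam) ∧ TreeNames A chk q κ lam T R h e S F := by
  have hB := hS.toBasic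
  obtain ⟨q1, hq1, W, h⟩ := (forces_ex.1 h).exists
  obtain ⟨q2, hq2, K, h⟩ := (forces_ex.1 h).exists
  obtain ⟨q3, hq3, L, hW, hK, hL, h⟩ := (forces_ex.1 h).exists
  -- W = chk w
  obtain ⟨q4, hq4, w, _, hWw⟩ := (hS.ord_eq_chk hW.1).exists
  have hw : Holds E (isOmega w) := (hS.abs_isOmega w q4).1
    ((Forces.congr hB (Fml.Rel.isOmega (hS.eq_refl q4) hWw) le_rfl).1 (Forces.mono hB hq4 hW))
  -- K = chk κ
  have hK' : Forces A q4 (isHartogs (chk w) K) :=
    (Forces.congr hB (Fml.Rel.isHartogs (hS.eq_refl q4) hWw (hS.eq_refl q4 _)) le_rfl).1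
      (Forces.mono hB hq4 hK)
  obtain ⟨q5, hq5, κ, hκ, hKκ⟩ := (hS.hartogs_eq_chk hD hw hw.1 (fun x h => h) hK').exists
  have hL' : Forces A q5 (isHartogs (chk κ) L) :=
    (Forces.congr hB (Fml.Rel.isHartogs (hS.eq_refl q5) hKκ (hS.eq_refl q5 _)) le_rfl).1
      (Forces.mono hB (hq5.trans hq4) hL)
  obtain ⟨q6, hq6, lam, hlam, hLlam⟩ :=
    (hS.hartogs_eq_chk hD hw hκ.1 (hD.big hw hκ) hL').exists
  have h := Forces.mono hB (hq6.trans (hq5.trans hq4)) h
  obtain ⟨q7, hq7, T, h⟩ := (forces_ex.1 h).exists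
  obtain ⟨q8, hq8, R, h⟩ := (forces_ex.1 h).exists
  obtain ⟨q9, hq9, H, h⟩ := (forces_ex.1 h).exists
  obtain ⟨q10, hq10, e, h⟩ := (forces_ex.1 h).exists
  obtain ⟨q11, hq11, S, h⟩ := (forces_ex.1 h).exists
  obtain ⟨q12, hq12, F, h1, h2, h3, h4, h5⟩ := (forces_ex.1 h).exists
  have hq := hq12.trans (hq11.trans (hq10.trans (hq9.trans (hq8.trans hq7))))
  have hKκ' := hS.eq_mono (hq.trans hq6) hKκ
  have hLlam' := hS.eq_mono hq hLlam
  refine ⟨q12, hq.trans (hq6.trans (hq5.trans (hq4.trans (hq3.trans (hq2.trans hq1))))),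
    w, κ, lam, T, R, H, e, S, F, hw, hκ, hlam, h1, ?_, ?_, ?_, ?_⟩
  · exact (Forces.congr hB (Fml.Rel.isHeight (hS.eq_refl _) (hS.eq_refl _ _) (hS.eq_refl _ _) hKκ'
      (hS.eq_refl _ _)) le_rfl).1 h2
  · exact (Forces.congr hB (Fml.Rel.isBij (hS.eq_refl _) (hS.eq_refl _ _) hKκ'
      (hS.eq_refl _ _)) le_rfl).1 h3
  · refine (Forces.congr hB ?_ le_rfl).1 h4
    exact Fml.Rel.ball (hS.eq_refl _) (hS.eq_refl _ _) fun B =>
      Fml.Rel.isCofBranch (hS.eq_refl _) (hS.eq_refl _ _) (hS.eq_refl _ _) hKκ'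
      (hS.eq_refl _ _) (hS.eq_refl _ _)
  · exact (Forces.congr hB (Fml.Rel.isInj (hS.eq_refl _) (hS.eq_refl _ _) hLlam'
      (hS.eq_refl _ _)) le_rfl).1 h5

end Sys

end Pool.Agent.Lib_helper27
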