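import Pool.Agent.Lib_helper27.Statement
import Pool.Agent.Lib_helper27.Unpack
import Pool.Agent.Lib_helper27.Card

/-!
# Semantics of the formulas in a model of ZFC
-/

set_option linter.unusedSectionVars false
set_option linter.unusedVariables false

namespace Pool.Agent.Lib_helper27

universe u v w v'

open Fml

namespace ST

variable {M : Type u} [SetStr M] [ZFC M]

/-- the membership relation of the model -/
abbrev EE (M : Type u) [SetStr M] : M → M → Prop := SetStr.E

theorem mem_def {x y : M} : EE M x y ↔ x ∈ y := Iff.rfl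

@[simp] theorem holds_opair {z x y : M} : Holds (EE M) (isOPair z x y) ↔ z = opair x y := by
  unfold isOPair
  simp only [holds_all, holds_iff, holds_or, holds_isUPair, holds_mem, mem_def]
  constructor
  · intro h
    refine ext fun w => ?_
    rw [h w, opair, mem_upair]
    refine or_congr ?_ ?_
    · constructor
      · intro h'
        exact ext fun v => by rw [mem_upair]; exact h' v
      · rintro rfl v
        exact mem_upair
    · constructor
      · intro h'
        exact ext fun v => by rw [mem_upair]; exact h' v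
      · rintro rfl v
        exact mem_upair
  · rintro rfl w
    rw [opair, mem_upair]
    refine or_congr ?_ ?_
    · constructor
      · rintro rfl v
        exact mem_upair
      · intro h'
        exact ext fun v => by rw [mem_upair]; exact h' v
    · constructor
      · rintro rfl v
        exact mem_upair
      · intro h'
        exact ext fun v => by rw [mem_upair]; exact h' v

@[simp] theorem holds_app {f x y : M} : Holds (EE M) (app f x y) ↔ opair x y ∈ f := by
  unfold app
  simp only [holds_bex, holds_opair, mem_def, exists_eq_right]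

theorem holds_isFunc {f a b : M} : Holds (EE M) (isFunc f a b) ↔
    ((∀ z, z ∈ f → ∃ x, x ∈ a ∧ ∃ y, y ∈ b ∧ z = opair x y) ∧
    (∀ x, x ∈ a → ∃ y, y ∈ b ∧ opair x y ∈ f) ∧
    (∀ x y y', opair x y ∈ f ∧ opair x y' ∈ f → y = y')) := by
  unfold isFunc
  simp only [holds_bex, holds_opair, mem_def, holds_and, holds_ball, holds_app, holds_all,
    holds_imp, holds_eq]

theorem holds_isInj {f a b : M} : Holds (EE M) (isInj f a b) ↔ IsInjSet f a b := by
  unfold isInj IsInjSet
  simp only [holds_and, holds_app, holds_all, holds_imp, holds_eq, holds_isFunc]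

theorem holds_isOrd {x : M} : Holds (EE M) (Fml.isOrd x) ↔ IsOrd x := by
  unfold Fml.isOrd IsOrd
  simp only [holds_mem, mem_def, holds_and, holds_ball, holds_isSubset, holds_or, holds_eq]

theorem holds_isOmega {w : M} : Holds (EE M) (isOmega w) ↔ w = omega := by
  unfold isOmega
  simp only [holds_mem, mem_def, holds_and, holds_ball, holds_ex, holds_imp, holds_bex, holds_neg,
    holds_isOrd]
  constructor
  · rintro ⟨h1, h2, h3, h4⟩
    exact eq_omega h1 h2 h3 h4
  · rintro rfl
    refine ⟨isOrd_omega, ⟨_, empty_mem_omega⟩, fun x hx => ⟨succ x, succ_mem_omega hx,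
      mem_succ.2 (Or.inr rfl)⟩, fun x hx h => ?_⟩
    exact (mem_omega.1 hx).2 x (Or.inr rfl) h

theorem holds_isHartogs {a b : M} : Holds (EE M) (isHartogs a b) ↔
    IsOrd b ∧ ¬ Inj b a ∧ ∀ c, c ∈ b → Inj c a := by
  unfold isHartogs Inj
  simp only [mem_def, holds_and, holds_ball, holds_ex, holds_neg, holds_isOrd, holds_isInj]

/-- `2 = {0, 1}` -/
noncomputable def two : M := upair empty (upair empty empty)

/-- finite partial functions from ω to 2 -/
def IsFPF (p : M) : Prop :=
  (∀ z, z ∈ p → ∃ n, n ∈ (omega : M) ∧ ∃ i, i ∈ (two : M) ∧ z = opair n i) ∧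
    (∀ n i j, opair n i ∈ p ∧ opair n j ∈ p → i = j) ∧ Fin p

@[fun_prop]
theorem dbl_isFPF {Γ : Type v} [Ctx M Γ] {f : Γ → M} (hf : Dbl M f) :
    Dbl M (fun γ => IsFPF (f γ)) := by
  unfold IsFPF
  fun_prop

theorem holds_isTwo {N : M} : Holds (EE M) (isTwo N) ↔ N = two := by
  unfold isTwo isEmpty
  simp only [mem_def, holds_and, holds_ex, holds_neg, holds_all, holds_mem, holds_isUPair]
  constructor
  · rintro ⟨o, l, h1, h2, h3⟩
    have ho : o = empty := eq_empty_iff.2 h1
    have hl : l = upair o o := ext fun z => by rw [h2, mem_upair]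
    refine ext fun z => ?_
    rw [h3, two, mem_upair, hl, ho]
  · rintro rfl
    exact ⟨empty, upair empty empty, not_mem_empty, fun x => mem_upair, fun x => mem_upair⟩

theorem holds_isCohenPoset {C : M} : Holds (EE M) (isCohenPoset C) ↔ ∀ p, p ∈ C ↔ IsFPF p := by
  unfold isCohenPoset isFinPartFun IsFPF Fin Inj
  simp only [mem_def, holds_and, holds_ex, holds_all, holds_mem, holds_isOmega, holds_iff,
    holds_ball, holds_bex, holds_opair, holds_imp, holds_app, holds_eq, holds_isInj, holds_isTwo]
  constructor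
  · rintro ⟨W, N, rfl, rfl, h⟩
    exact h
  · intro h
    exact ⟨omega, two, rfl, rfl, h⟩

theorem small_isFPF : Small (fun p : M => IsFPF p) := by
  refine small_of_subset (by fun_prop) (power (prod omega two)) ?_
  rintro p ⟨h1, _⟩
  rw [mem_power]
  intro z hz
  obtain ⟨n, hn, i, hi, rfl⟩ := h1 z hz
  exact opair_mem_prod.2 ⟨hn, hi⟩

theorem exists_cohen : ∃ C : M, Holds (EE M) (isCohenPoset C) := by
  obtain ⟨C, hC⟩ := small_isFPF (M := M)
  exact ⟨C, holds_isCohenPoset.2 hC⟩

theorem empty_fpf : IsFPF (empty : M) :=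
  ⟨fun z hz => (not_mem_empty z hz).elim, fun n i j h => (not_mem_empty _ h.1).elim, fin_empty⟩

theorem Fin.mono {x y : M} (h : ∀ z, z ∈ x → z ∈ y) (hy : Fin y) : Fin x :=
  Fin.of_inj (Inj.of_subset h) hy

theorem IsFPF.mono {p q : M} (h : ∀ z, z ∈ q → z ∈ p) (hp : IsFPF p) : IsFPF q :=
  ⟨fun z hz => hp.1 z (h z hz), fun n i j hij => hp.2.1 n i j ⟨h _ hij.1, h _ hij.2⟩,
    hp.2.2.mono h⟩

/-- the maximum of two natural numbers -/
theorem nat_max {m n : M} (hm : m ∈ (omega : M)) (hn : n ∈ (omega : M)) :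
    ∃ k, k ∈ (omega : M) ∧ (∀ x, x ∈ m → x ∈ k) ∧ (∀ x, x ∈ n → x ∈ k) := by
  rcases isOrd_omega.tri hm hn with h | h | h
  · exact ⟨n, hn, fun x hx => (isOrd_omega.mem hn).trans h hx, fun x hx => hx⟩
  · exact ⟨n, hn, fun x hx => h ▸ hx, fun x hx => hx⟩
  · exact ⟨m, hm, fun x hx => hx, fun x hx => (isOrd_omega.mem hm).trans h hx⟩

/-- A finite partial function has bounded domain. -/
theorem fpf_bounded {p : M} (hp : IsFPF p) :
    ∃ n, n ∈ (omega : M) ∧ ∀ x i, opair x i ∈ p → x ∈ n := by
  have key : ∀ p : M, Fin p → (∀ z, z ∈ p → ∃ n, n ∈ (omega : M) ∧ ∃ i, z = opair n i) →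
      ∃ n, n ∈ (omega : M) ∧ ∀ x i, opair x i ∈ p → x ∈ n := by
    intro p hp
    refine fin_induction (Φ := fun p => (∀ z, z ∈ p → ∃ n, n ∈ (omega : M) ∧ ∃ i, z = opair n i) →
      ∃ n, n ∈ (omega : M) ∧ ∀ x i, opair x i ∈ p → x ∈ n) (by fun_prop) ?_ ?_ hp
    · intro _
      exact ⟨empty, empty_mem_omega, fun x i h => (not_mem_empty _ h).elim⟩
    · intro q a _ _ ih h
      obtain ⟨n, hn, hn'⟩ := ih fun z hz => h z (mem_union.2 (Or.inl hz))
      obtain ⟨m, hm, j, rfl⟩ := h a (by simp)
      obtain ⟨k, hk, h1, h2⟩ := nat_max hn (succ_mem_omega hm)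
      refine ⟨k, hk, fun x i hxi => ?_⟩
      rcases mem_union.1 hxi with h3 | h3
      · exact h1 x (hn' x i h3)
      · have : opair x i = opair m j := by simpa using h3
        rw [(opair_inj.1 this).1]
        exact h2 m (mem_succ.2 (Or.inr rfl))
  exact key p hp.2.2 fun z hz => by
    obtain ⟨n, hn, i, _, rfl⟩ := hp.1 z hz
    exact ⟨n, hn, i, rfl⟩

/-- The finite partial functions with domain included in `n` are countable. -/
theorem fpf_inj {n : M} (hn : n ∈ (omega : M)) :
    ∀ Y : M, (∀ p, p ∈ Y ↔ IsFPF p ∧ ∀ x i, opair x i ∈ p → x ∈ n) → Inj Y omega := by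
  classical
  refine omega_induction (Φ := fun n => ∀ Y : M,
    (∀ p, p ∈ Y ↔ IsFPF p ∧ ∀ x i, opair x i ∈ p → x ∈ n) → Inj Y omega) (by fun_prop) ?_ ?_ hn
  · intro Y hY
    have : ∀ p, p ∈ Y → p = empty := by
      intro p hp
      obtain ⟨h1, h2⟩ := (hY p).1 hp
      refine eq_empty_iff.2 fun z hz => ?_
      obtain ⟨x, _, i, _, rfl⟩ := h1.1 z hz
      exact not_mem_empty _ (h2 x i hz)
    refine Inj.of_fun (φ := fun x => x) (by fun_prop) (fun x hx => ?_) fun _ _ _ _ h => h
    rw [this x hx]
    exact empty_mem_omega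
  · intro n hn ih Y hY
    obtain ⟨Y', hY'⟩ := small_of_subset (M := M)
      (D := fun p => IsFPF p ∧ ∀ x i, opair x i ∈ p → x ∈ n) (by fun_prop) Y (by
        rintro p ⟨h1, h2⟩
        exact (hY p).2 ⟨h1, fun x i h => mem_succ.2 (Or.inl (h2 x i h))⟩)
    obtain ⟨φ, hφ, h1, h2⟩ := (ih Y' hY').exists_fun
    have hess := hessenberg (M := M) infOrd_omega
    refine Inj.trans (b := prod omega omega) ?_ hess
    let z0 : M := empty
    let z1 : M := upair empty empty
    let z2 : M := succ (upair empty empty)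
    have hz0 : z0 ∈ (omega : M) := empty_mem_omega
    have hz1' : z1 = succ empty := ext fun z => by
      show z ∈ upair empty empty ↔ _
      rw [mem_upair, mem_succ, or_self]
      exact ⟨Or.inr, fun h => h.resolve_left (not_mem_empty z)⟩
    have hz1 : z1 ∈ (omega : M) := hz1' ▸ succ_mem_omega empty_mem_omega
    have hz2 : z2 ∈ (omega : M) := succ_mem_omega hz1
    have h01 : z0 ≠ z1 := by
      intro h
      have h' : (empty : M) ∈ z1 := mem_upair.2 (Or.inl rfl)
      rw [← h] at h'
      exact not_mem_empty _ h'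
    have h02 : z0 ≠ z2 := by
      intro h
      have h' : z1 ∈ z2 := mem_succ.2 (Or.inr rfl)
      rw [← h] at h'
      exact not_mem_empty _ h'
    have h12 : z1 ≠ z2 := by
      intro h
      have h' : z1 ∈ z2 := mem_succ.2 (Or.inr rfl)
      rw [← h] at h'
      exact mem_irrefl _ h'
    have hsm : ∀ p : M, Small (fun z => z ∈ p ∧ ∃ x i, z = opair x i ∧ x ∈ n) :=
      fun p => small_sep (D := fun z => ∃ x i, z = opair x i ∧ x ∈ n) (by fun_prop) p
    have hdbl : Dbl M (fun p : M => comp (fun z => z ∈ p ∧ ∃ x i, z = opair x i ∧ x ∈ n)) :=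
      dbl_comp hsm (by fun_prop)
    let code : M → M := fun p => open Classical in if opair n z0 ∈ p then z0 else
      (if opair n z1 ∈ p then z1 else z2)
    have hcode : Dbl M code := Dbl_ite (by fun_prop) (by fun_prop)
      (Dbl_ite (by fun_prop) (by fun_prop) (by fun_prop))
    refine Inj.of_fun (φ := fun p => opair
      (φ (comp (fun z => z ∈ p ∧ ∃ x i, z = opair x i ∧ x ∈ n))) (code p)) (by fun_prop) ?_ ?_
    · intro p hp
      obtain ⟨h3, h4⟩ := (hY p).1 hp
      refine opair_mem_prod.2 ⟨h1 _ ((hY' _).2 ⟨?_, ?_⟩), ?_⟩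
      · exact h3.mono fun z hz => ((mem_comp (hsm p)).1 hz).1
      · intro x i hxi
        obtain ⟨_, x', i', h5, h6⟩ := (mem_comp (hsm p)).1 hxi
        rw [(opair_inj.1 h5).1]
        exact h6
      · show (if opair n z0 ∈ p then z0 else (if opair n z1 ∈ p then z1 else z2)) ∈ omega
        split_ifs <;> assumption
    · intro p hp q hq he
      obtain ⟨he1, he2⟩ := opair_inj.1 he
      have mem' : ∀ p, p ∈ Y → comp (fun z => z ∈ p ∧ ∃ x i, z = opair x i ∧ x ∈ n) ∈ Y' := by
        intro p hp
        obtain ⟨h3, h4⟩ := (hY p).1 hp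
        refine (hY' _).2 ⟨?_, ?_⟩
        · exact h3.mono fun z hz => ((mem_comp (hsm p)).1 hz).1
        · intro x i hxi
          obtain ⟨_, x', i', h5, h6⟩ := (mem_comp (hsm p)).1 hxi
          rw [(opair_inj.1 h5).1]
          exact h6
      have he3 := h2 _ (mem' p hp) _ (mem' q hq) he1
      have hp' := (hY p).1 hp
      have hq' := (hY q).1 hq
      have hn0 : ∀ (p : M), p ∈ Y → ∀ i, opair n i ∈ p → i = z0 ∨ i = z1 := by
        intro p hp i hi
        obtain ⟨m, _, j, hj, h5⟩ := ((hY p).1 hp).1.1 _ hi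
        obtain ⟨_, rfl⟩ := opair_inj.1 h5
        exact mem_upair.1 hj
      have code_iff : ∀ (p : M), p ∈ Y → ∀ i, opair n i ∈ p ↔ (i = z0 ∨ i = z1) ∧ code p = i := by
        intro p hp i
        have hfun := ((hY p).1 hp).1.2.1
        constructor
        · intro hi
          refine ⟨hn0 p hp i hi, ?_⟩
          show (if opair n z0 ∈ p then z0 else (if opair n z1 ∈ p then z1 else z2)) = i
          by_cases h5 : opair n z0 ∈ p
          · rw [if_pos h5]
            exact hfun n z0 i ⟨h5, hi⟩
          · rw [if_neg h5]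
            by_cases h6 : opair n z1 ∈ p
            · rw [if_pos h6]
              exact hfun n z1 i ⟨h6, hi⟩
            · exfalso
              rcases hn0 p hp i hi with rfl | rfl
              · exact h5 hi
              · exact h6 hi
        · rintro ⟨h5, h6⟩
          change (if opair n z0 ∈ p then z0 else (if opair n z1 ∈ p then z1 else z2)) = i at h6
          by_cases h7 : opair n z0 ∈ p
          · rw [if_pos h7] at h6
            rw [← h6]; exact h7
          · rw [if_neg h7] at h6
            by_cases h8 : opair n z1 ∈ p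
            · rw [if_pos h8] at h6
              rw [← h6]; exact h8
            · rw [if_neg h8] at h6
              exfalso
              rcases h5 with h5 | h5
              · exact h02 (h5.symm.trans h6.symm)
              · exact h12 (h5.symm.trans h6.symm)
      have key : ∀ p q, p ∈ Y → q ∈ Y → code p = code q →
          comp (fun z => z ∈ p ∧ ∃ x i, z = opair x i ∧ x ∈ n) =
          comp (fun z => z ∈ q ∧ ∃ x i, z = opair x i ∧ x ∈ n) → ∀ z, z ∈ p → z ∈ q := by
        intro p q hp hq hc he z hz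
        obtain ⟨m, hm, j, hj, rfl⟩ := ((hY p).1 hp).1.1 z hz
        rcases mem_succ.1 (((hY p).1 hp).2 m j hz) with h5 | h5
        · have : opair m j ∈ comp (fun z => z ∈ p ∧ ∃ x i, z = opair x i ∧ x ∈ n) :=
            (mem_comp (hsm p)).2 ⟨hz, m, j, rfl, h5⟩
          rw [he] at this
          exact ((mem_comp (hsm q)).1 this).1
        · subst h5
          rw [code_iff p hp] at hz
          rw [code_iff q hq, ← hc]
          exact hz
      exact ext fun z => ⟨key p q hp hq he2 he3 z, key q p hq hp he2.symm he3.symm z⟩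

/-- The Cohen poset is countable. -/
theorem cohen_inj {C : M} (hC : ∀ p, p ∈ C ↔ IsFPF p) : Inj C omega := by
  refine inj_union (C := omega) infOrd_omega (Inj.refl _)
    (R := fun n p => ∀ x i, opair x i ∈ p → x ∈ n) (by fun_prop) ?_ ?_
  · intro p hp
    exact fpf_bounded ((hC p).1 hp)
  · intro n hn Y hY
    exact fpf_inj hn Y fun p => by rw [hY, hC]

end ST

end Pool.Agent.Lib_helper27
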