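import Pool.Agent.Lib_helper27.Ords

/-!
# Injections, choice and recursion inside a model of ZFC
-/

set_option linter.unusedSectionVars false
set_option linter.unusedVariables false

namespace Pool.Agent.Lib_helper27

universe u v w v'

namespace ST

variable {M : Type u} [SetStr M] [ZFC M]

/-! ### Injections -/

/-- `f` is (the graph of) an injective function from `a` to `b`. -/
def IsInjSet (f a b : M) : Prop :=
  ((∀ z, z ∈ f → ∃ x, x ∈ a ∧ ∃ y, y ∈ b ∧ z = opair x y) ∧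
    (∀ x, x ∈ a → ∃ y, y ∈ b ∧ opair x y ∈ f) ∧
    (∀ x y y', opair x y ∈ f ∧ opair x y' ∈ f → y = y')) ∧
  ∀ x x' y, opair x y ∈ f ∧ opair x' y ∈ f → x = x'

@[fun_prop]
theorem dbl_isInjSet {Γ : Type v} [Ctx M Γ] {f g h : Γ → M} (hf : Dbl M f) (hg : Dbl M g)
    (hh : Dbl M h) : Dbl M (fun γ => IsInjSet (f γ) (g γ) (h γ)) := by
  unfold IsInjSet
  fun_prop

/-- there is an injection from `a` to `b` -/
def Inj (a b : M) : Prop := ∃ f, IsInjSet f a b

@[fun_prop]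
theorem dbl_inj {Γ : Type v} [Ctx M Γ] {g h : Γ → M} (hg : Dbl M g)
    (hh : Dbl M h) : Dbl M (fun γ => Inj (g γ) (h γ)) := by
  unfold Inj
  fun_prop

theorem isInjSet_graph {a b : M} {φ : M → M} (hφ : Dbl M φ) (h1 : ∀ x, x ∈ a → φ x ∈ b)
    (h2 : ∀ x, x ∈ a → ∀ y, y ∈ a → φ x = φ y → x = y) : IsInjSet (graph φ a) a b := by
  refine ⟨⟨?_, ?_, ?_⟩, ?_⟩
  · intro z hz
    obtain ⟨x, hx, rfl⟩ := (mem_graph hφ).1 hz
    exact ⟨x, hx, φ x, h1 x hx, rfl⟩
  · intro x hx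
    exact ⟨φ x, h1 x hx, (opair_mem_graph hφ).2 ⟨hx, rfl⟩⟩
  · rintro x y y' ⟨h3, h4⟩
    rw [← ((opair_mem_graph hφ).1 h3).2, ← ((opair_mem_graph hφ).1 h4).2]
  · rintro x x' y ⟨h3, h4⟩
    obtain ⟨hx, h3⟩ := (opair_mem_graph hφ).1 h3
    obtain ⟨hx', h4⟩ := (opair_mem_graph hφ).1 h4
    exact h2 x hx x' hx' (h3.trans h4.symm)

theorem Inj.of_fun {a b : M} {φ : M → M} (hφ : Dbl M φ) (h1 : ∀ x, x ∈ a → φ x ∈ b)
    (h2 : ∀ x, x ∈ a → ∀ y, y ∈ a → φ x = φ y → x = y) : Inj a b :=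
  ⟨_, isInjSet_graph hφ h1 h2⟩

theorem IsInjSet.fapp_eq {f a b x y : M} (h : IsInjSet f a b) (hxy : opair x y ∈ f) :
    fapp f x = y := iota_eq hxy fun _ h' => h.1.2.2 _ _ _ ⟨h', hxy⟩

theorem IsInjSet.fapp_mem {f a b x : M} (h : IsInjSet f a b) (hx : x ∈ a) : fapp f x ∈ b := by
  obtain ⟨y, hy, hxy⟩ := h.1.2.1 x hx
  rw [h.fapp_eq hxy]
  exact hy

theorem IsInjSet.opair_fapp {f a b x : M} (h : IsInjSet f a b) (hx : x ∈ a) :
    opair x (fapp f x) ∈ f := by
  obtain ⟨y, hy, hxy⟩ := h.1.2.1 x hx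
  rw [h.fapp_eq hxy]
  exact hxy

theorem IsInjSet.fapp_inj {f a b x x' : M} (h : IsInjSet f a b) (hx : x ∈ a) (hx' : x' ∈ a)
    (he : fapp f x = fapp f x') : x = x' :=
  h.2 x x' (fapp f x) ⟨h.opair_fapp hx, he ▸ h.opair_fapp hx'⟩

theorem Inj.exists_fun {a b : M} (h : Inj a b) : ∃ φ : M → M, Dbl M φ ∧ (∀ x, x ∈ a → φ x ∈ b) ∧
    ∀ x, x ∈ a → ∀ y, y ∈ a → φ x = φ y → x = y := by
  obtain ⟨f, hf⟩ := h
  exact ⟨fapp f, by fun_prop, fun x hx => hf.fapp_mem hx, fun x hx y hy => hf.fapp_inj hx hy⟩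

theorem Inj.of_subset {a b : M} (h : ∀ x, x ∈ a → x ∈ b) : Inj a b :=
  Inj.of_fun (φ := fun x => x) (by fun_prop) h fun _ _ _ _ h => h

theorem Inj.refl (a : M) : Inj a a := Inj.of_subset fun _ h => h

theorem Inj.trans {a b c : M} (h : Inj a b) (h' : Inj b c) : Inj a c := by
  obtain ⟨φ, hφ, h1, h2⟩ := h.exists_fun
  obtain ⟨ψ, hψ, h3, h4⟩ := h'.exists_fun
  exact Inj.of_fun (φ := fun x => ψ (φ x)) (by fun_prop) (fun x hx => h3 _ (h1 x hx))
    fun x hx y hy he => h2 x hx y hy (h4 _ (h1 x hx) _ (h1 y hy) he)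

/-- the inverse of a definable injective function -/
theorem Inj.of_surj {a b : M} {φ : M → M} (hφ : Dbl M φ) (h1 : ∀ y, y ∈ b → ∃ x, x ∈ a ∧ φ x = y)
    (h2 : ∀ x, x ∈ a → ∀ y, y ∈ a → φ x = φ y → x = y) : Inj b a := by
  have key : ∀ y, y ∈ b → iota (fun x => x ∈ a ∧ φ x = y) ∈ a ∧
      φ (iota (fun x => x ∈ a ∧ φ x = y)) = y := by
    intro y hy
    obtain ⟨x, hx, hxy⟩ := h1 y hy
    exact iota_spec (D := fun x => x ∈ a ∧ φ x = y)
      ⟨x, ⟨hx, hxy⟩, fun x' hx' => h2 _ hx'.1 _ hx (hx'.2.trans hxy.symm)⟩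
  refine Inj.of_fun (φ := fun y => iota (fun x => x ∈ a ∧ φ x = y))
    (dbl_iota (by fun_prop)) (fun y hy => (key y hy).1) ?_
  intro y hy y' hy' he
  rw [← (key y hy).2, ← (key y' hy').2]
  exact congrArg φ he

theorem Dbl_ite {Γ : Type v} {Δ : Type w} [Ctx M Γ] [Ctx M Δ] {p : Γ → Prop} {f g : Γ → Δ}
    (hp : Dbl M p) (hf : Dbl M f) (hg : Dbl M g) :
    Dbl M (fun γ => open Classical in if p γ then f γ else g γ) := by
  classical
  apply dbl_of_graph
  refine Dbl.congr_prop (p := fun z : Γ × Δ => (p z.1 ∧ f z.1 = z.2) ∨ (¬ p z.1 ∧ g z.1 = z.2))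
    (by fun_prop) ?_
  intro z
  by_cases h : p z.1
  · simp [h]
  · simp [h]

/-! ### Choice -/

/-- The axiom of choice: definable relations can be uniformized on a set. -/
theorem choice_fun {R : M → M → Prop} (hR : Dbl M (fun z : M × M => R z.1 z.2)) {a b : M}
    (h : ∀ x, x ∈ a → ∃ y, y ∈ b ∧ R x y) :
    ∃ φ : M → M, Dbl M φ ∧ ∀ x, x ∈ a → φ x ∈ b ∧ R x (φ x) := by
  have hR2 : Dbl M (fun z : (M × M) × M => R z.1.1 z.2) :=
    Dbl.comp (f := fun z : (M × M) × M => (z.1.1, z.2)) (g := fun z : M × M => R z.1 z.2)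
      (by fun_prop) hR
  have hsm : ∀ x, Small (fun z => ∃ y, y ∈ b ∧ R x y ∧ z = opair x y) := by
    intro x
    have hRx : Dbl M (fun y : M => R x y) := Dbl.comp (f := fun y : M => (x, y))
      (g := fun z : M × M => R z.1 z.2) (by fun_prop) hR
    refine small_of_subset (by fun_prop) (prod (upair x x) b) ?_
    rintro z ⟨y, hy, _, rfl⟩
    exact opair_mem_prod.2 ⟨by simp, hy⟩
  have hS : Dbl M (fun x => comp (fun z => ∃ y, y ∈ b ∧ R x y ∧ z = opair x y)) := by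
    refine dbl_comp hsm ?_
    have : Dbl M (fun z : (M × M) × M => R z.1.1 z.2) := hR2
    fun_prop
  obtain ⟨c, hc⟩ := (ZFC.out (M := M)).choice
    (image (fun x => comp (fun z => ∃ y, y ∈ b ∧ R x y ∧ z = opair x y)) a)
    (by
      intro s hs
      obtain ⟨x, hx, rfl⟩ := (mem_image hS).1 hs
      obtain ⟨y, hy, hy'⟩ := h x hx
      exact ⟨opair x y, (mem_comp (hsm x)).2 ⟨y, hy, hy', rfl⟩⟩)
    (by
      rintro s t hs ht ⟨z, hzs, hzt⟩
      obtain ⟨x, hx, rfl⟩ := (mem_image hS).1 hs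
      obtain ⟨x', hx', rfl⟩ := (mem_image hS).1 ht
      obtain ⟨y, _, _, rfl⟩ := (mem_comp (hsm x)).1 hzs
      obtain ⟨y', _, _, he⟩ := (mem_comp (hsm x')).1 hzt
      rw [(opair_inj.1 he).1])
  have hspec : ∀ x, x ∈ a → ∃! y, (y ∈ b ∧ R x y) ∧ opair x y ∈ c := by
    intro x hx
    obtain ⟨z, ⟨hz, hzc⟩, huniq⟩ := hc _ ((mem_image hS).2 ⟨x, hx, rfl⟩)
    obtain ⟨y, hy, hRy, rfl⟩ := (mem_comp (hsm x)).1 hz
    refine ⟨y, ⟨⟨hy, hRy⟩, hzc⟩, fun y' hy' => ?_⟩
    have := huniq (opair x y') ⟨(mem_comp (hsm x)).2 ⟨y', hy'.1.1, hy'.1.2, rfl⟩, hy'.2⟩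
    exact (opair_inj.1 this).2
  refine ⟨fun x => iota (fun y => (y ∈ b ∧ R x y) ∧ opair x y ∈ c), dbl_iota (by fun_prop), ?_⟩
  intro x hx
  exact (iota_spec (hspec x hx)).1

/-! ### Recursion -/

theorem graph_congr {φ ψ : M → M} {a : M} (h : ∀ x, x ∈ a → φ x = ψ x) : graph φ a = graph ψ a := by
  unfold graph
  congr 1
  funext z
  apply propext
  constructor
  · rintro ⟨x, hx, rfl⟩
    exact ⟨x, hx, by rw [h x hx]⟩
  · rintro ⟨x, hx, rfl⟩
    exact ⟨x, hx, by rw [h x hx]⟩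

@[fun_prop]
theorem dbl_graph {Γ : Type v} [Ctx M Γ] {φ : Γ → M → M} {a : Γ → M}
    (hφ : Dbl M (fun z : Γ × M => φ z.1 z.2)) (ha : Dbl M a) :
    Dbl M (fun γ => graph (φ γ) (a γ)) := by
  have h0 : ∀ γ, Dbl M (φ γ) := fun γ => Dbl.comp (f := fun x : M => (γ, x))
    (g := fun z : Γ × M => φ z.1 z.2) (by fun_prop) hφ
  refine dbl_comp (fun γ => small_graph (h0 γ) (a γ)) ?_
  have h1 : Dbl M (fun z : (Γ × M) × M => φ z.1.1 z.2) :=
    Dbl.comp (f := fun z : (Γ × M) × M => (z.1.1, z.2)) (g := fun z : Γ × M => φ z.1 z.2)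
      (by fun_prop) hφ
  fun_prop

@[fun_prop]
theorem dbl_image {Γ : Type v} [Ctx M Γ] {φ : Γ → M → M} {a : Γ → M}
    (hφ : Dbl M (fun z : Γ × M => φ z.1 z.2)) (ha : Dbl M a) :
    Dbl M (fun γ => image (φ γ) (a γ)) := by
  have h0 : ∀ γ, Dbl M (φ γ) := fun γ => Dbl.comp (f := fun x : M => (γ, x))
    (g := fun z : Γ × M => φ z.1 z.2) (by fun_prop) hφ
  refine dbl_comp (fun γ => small_image (h0 γ) (a γ)) ?_
  have h1 : Dbl M (fun z : (Γ × M) × M => φ z.1.1 z.2) :=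
    Dbl.comp (f := fun z : (Γ × M) × M => (z.1.1, z.2)) (g := fun z : Γ × M => φ z.1 z.2)
      (by fun_prop) hφ
  fun_prop

section recursion

/-- Data for recursion along a definable, set-like, well-founded relation. -/
structure RecData (R : M → M → Prop) (H : M → M → M) : Prop where
  dblR : Dbl M (fun z : M × M => R z.1 z.2)
  small : ∀ x, Small (fun y => R y x)
  ind : ∀ Φ : M → Prop, Dbl M Φ → (∀ x, (∀ y, R y x → Φ y) → Φ x) → ∀ x, Φ x
  dblH : Dbl M (fun z : M × M => H z.1 z.2)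

variable {R : M → M → Prop} {H : M → M → M}

/-- the set of predecessors -/
noncomputable def preds (R : M → M → Prop) (x : M) : M := comp (fun y => R y x)

variable (hD : RecData R H)

include hD

theorem RecData.mem_preds {x y : M} : y ∈ preds R x ↔ R y x := mem_comp (hD.small x)

theorem RecData.dbl_R {Γ : Type v} [Ctx M Γ] {f g : Γ → M} (hf : Dbl M f) (hg : Dbl M g) :
    Dbl M (fun γ => R (f γ) (g γ)) :=
  Dbl.comp (f := fun γ => (f γ, g γ)) (g := fun z : M × M => R z.1 z.2) (hf.mk hg) hD.dblR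

theorem RecData.dbl_H {Γ : Type v} [Ctx M Γ] {f g : Γ → M} (hf : Dbl M f) (hg : Dbl M g) :
    Dbl M (fun γ => H (f γ) (g γ)) :=
  Dbl.comp (f := fun γ => (f γ, g γ)) (g := fun z : M × M => H z.1 z.2) (hf.mk hg) hD.dblH

theorem RecData.dbl_preds {Γ : Type v} [Ctx M Γ] {f : Γ → M} (hf : Dbl M f) :
    Dbl M (fun γ => preds R (f γ)) := by
  refine dbl_comp (fun γ => hD.small (f γ)) ?_
  exact hD.dbl_R (by fun_prop) (by fun_prop)

omit hD in
/-- `D` is closed under predecessors -/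
def Closed (R : M → M → Prop) (D : M) : Prop := ∀ x, x ∈ D → ∀ y, R y x → y ∈ D

omit hD in
/-- `g` is an approximation with domain `D` -/
def Appr (R : M → M → Prop) (H : M → M → M) (g D : M) : Prop :=
  Closed R D ∧ ∀ x, x ∈ D → fapp g x = H x (graph (fapp g) (preds R x))

theorem RecData.dbl_closed {Γ : Type v} [Ctx M Γ] {f : Γ → M} (hf : Dbl M f) :
    Dbl M (fun γ => Closed R (f γ)) := by
  unfold Closed
  have := hD.dblR
  fun_prop

theorem RecData.dbl_appr {Γ : Type v} [Ctx M Γ] {f g : Γ → M} (hf : Dbl M f) (hg : Dbl M g) :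
    Dbl M (fun γ => Appr R H (f γ) (g γ)) := by
  unfold Appr
  have h1 : Dbl M (fun γ => Closed R (g γ)) := hD.dbl_closed hg
  have h2 := hD.dblH
  have h3 : Dbl M (preds R) := hD.dbl_preds (f := fun x => x) (by fun_prop)
  fun_prop

theorem RecData.appr_unique {g D g' D' : M} (h : Appr R H g D) (h' : Appr R H g' D') :
    ∀ x, x ∈ D → x ∈ D' → fapp g x = fapp g' x := by
  refine hD.ind _ (by fun_prop) ?_
  intro x ih hx hx'
  rw [h.2 x hx, h'.2 x hx']
  congr 1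
  refine graph_congr fun y hy => ?_
  have hy' := hD.mem_preds.1 hy
  exact ih y hy' (h.1 x hx y hy') (h'.1 x hx' y hy')

omit hD in
/-- The recursively defined function. -/
noncomputable def recF (R : M → M → Prop) (H : M → M → M) (x : M) : M :=
  iota (fun v => ∃ g D, Appr R H g D ∧ x ∈ D ∧ fapp g x = v)

theorem RecData.dbl_recF : Dbl M (recF R H) := by
  refine dbl_iota ?_
  have : Dbl M (fun z : ((M × M) × M) × M => Appr R H z.1.2 z.2) :=
    hD.dbl_appr (by fun_prop) (by fun_prop)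
  fun_prop

theorem RecData.recF_eq {g D x : M} (h : Appr R H g D) (hx : x ∈ D) : recF R H x = fapp g x := by
  refine iota_eq ⟨g, D, h, hx, rfl⟩ ?_
  rintro v ⟨g', D', h', hx', rfl⟩
  exact hD.appr_unique h' h x hx' hx

omit hD in
/-- the closure of `x` -/
noncomputable def cl (R : M → M → Prop) (x : M) : M :=
  comp (fun z => ∀ D, Closed R D → x ∈ D → z ∈ D)

theorem RecData.small_cl {x D : M} (hc : Closed R D) (hx : x ∈ D) :
    Small (fun z => ∀ D, Closed R D → x ∈ D → z ∈ D) := by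
  have : Dbl M (fun z : M × M => Closed R z.2) := hD.dbl_closed (by fun_prop)
  exact small_of_subset (by fun_prop) D fun z hz => hz D hc hx

theorem RecData.mem_cl {x D z : M} (hc : Closed R D) (hx : x ∈ D) :
    z ∈ cl R x ↔ ∀ D, Closed R D → x ∈ D → z ∈ D := mem_comp (hD.small_cl hc hx)

theorem RecData.exists_appr : ∀ x, ∃ g D, Appr R H g D ∧ x ∈ D := by
  classical
  have hA : Dbl M (fun z : (M × M) × M => Appr R H z.1.2 z.2) :=
    hD.dbl_appr (by fun_prop) (by fun_prop)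
  refine hD.ind _ (by fun_prop) ?_
  intro x ih
  -- the union of the closures of the predecessors
  have hcl : Dbl M (fun z : M × M => Closed R z.2) := hD.dbl_closed (by fun_prop)
  have hclD : Dbl M (fun y : M => iota (fun c : M => ∀ z, z ∈ c ↔
      ∀ D, Closed R D → y ∈ D → z ∈ D)) := by
    refine dbl_iota ?_
    have : Dbl M (fun z : ((M × M) × M) × M => Closed R z.2) := hD.dbl_closed (by fun_prop)
    fun_prop
  have hcl_eq : ∀ y, R y x →
      iota (fun c : M => ∀ z, z ∈ c ↔ ∀ D, Closed R D → y ∈ D → z ∈ D) = cl R y := by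
    intro y hy
    obtain ⟨g, D, hg, hyD⟩ := ih y hy
    refine iota_eq (fun z => hD.mem_cl hg.1 hyD) ?_
    intro c hc
    exact ext fun z => by rw [hc, hD.mem_cl hg.1 hyD]
  let D' : M := sUnion (image (fun y => iota (fun c : M => ∀ z, z ∈ c ↔
    ∀ D, Closed R D → y ∈ D → z ∈ D)) (preds R x))
  have hD' : ∀ z, z ∈ D' ↔ ∃ y, R y x ∧ z ∈ cl R y := by
    intro z
    rw [mem_sUnion]
    constructor
    · rintro ⟨c, hc, hz⟩
      obtain ⟨y, hy, rfl⟩ := (mem_image hclD).1 hc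
      have hy' := hD.mem_preds.1 hy
      rw [hcl_eq y hy'] at hz
      exact ⟨y, hy', hz⟩
    · rintro ⟨y, hy, hz⟩
      exact ⟨_, (mem_image hclD).2 ⟨y, hD.mem_preds.2 hy, rfl⟩, by rw [hcl_eq y hy]; exact hz⟩
  have hself : ∀ y, R y x → y ∈ D' := by
    intro y hy
    obtain ⟨g, D, hg, hyD⟩ := ih y hy
    exact (hD' y).2 ⟨y, hy, (hD.mem_cl hg.1 hyD).2 fun _ _ h => h⟩
  have hD'cl : Closed R D' := by
    intro z hz w hw
    obtain ⟨y, hy, hzy⟩ := (hD' z).1 hz
    obtain ⟨g, D, hg, hyD⟩ := ih y hy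
    refine (hD' w).2 ⟨y, hy, (hD.mem_cl hg.1 hyD).2 fun E hE hyE => ?_⟩
    exact hE z ((hD.mem_cl hg.1 hyD).1 hzy E hE hyE) w hw
  have hD'appr : ∀ z, z ∈ D' → ∃ g D, Appr R H g D ∧ z ∈ D := by
    intro z hz
    obtain ⟨y, hy, hzy⟩ := (hD' z).1 hz
    obtain ⟨g, D, hg, hyD⟩ := ih y hy
    exact ⟨g, D, hg, (hD.mem_cl hg.1 hyD).1 hzy D hg.1 hyD⟩
  by_cases hx : x ∈ D'
  · exact hD'appr x hx
  let F' : M → M := fun z => if z = x then H x (graph (recF R H) (preds R x)) else recF R H z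
  have hF' : Dbl M F' := by
    have h1 := hD.dbl_recF
    have := Dbl_ite (M := M) (Γ := M) (Δ := M) (p := fun z => z = x)
      (f := fun _ => H x (graph (recF R H) (preds R x))) (g := recF R H)
      (by fun_prop) (by fun_prop) h1
    exact this
  have hF'x : F' x = H x (graph (recF R H) (preds R x)) := if_pos rfl
  have hF'ne : ∀ z, z ∈ D' → F' z = recF R H z := by
    intro z hz
    have hne : z ≠ x := by
      rintro rfl
      exact hx hz
    exact if_neg hne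
  refine ⟨graph F' (union D' (upair x x)), union D' (upair x x), ⟨?_, ?_⟩, by simp⟩
  · intro z hz w hw
    rw [mem_union] at hz ⊢
    rcases hz with hz | hz
    · exact Or.inl (hD'cl z hz w hw)
    · have : z = x := by simpa using hz
      subst this
      exact Or.inl (hself w hw)
  · intro z hz
    rw [fapp_graph hF' hz]
    rw [mem_union] at hz
    have hgr : ∀ z, (∀ y, R y z → y ∈ D') → graph (fapp (graph F' (union D' (upair x x))))
        (preds R z) = graph (recF R H) (preds R z) := by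
      intro z hz
      refine graph_congr fun y hy => ?_
      have hy' := hz y (hD.mem_preds.1 hy)
      rw [fapp_graph hF' (mem_union.2 (Or.inl hy')), hF'ne y hy']
    rcases hz with hz | hz
    · rw [hF'ne z hz, hgr z fun y hy => hD'cl z hz y hy]
      obtain ⟨g, D, hg, hzD⟩ := hD'appr z hz
      rw [hD.recF_eq hg hzD, hg.2 z hzD]
      congr 1
      refine graph_congr fun y hy => ?_
      rw [hD.recF_eq hg (hg.1 z hzD y (hD.mem_preds.1 hy))]
    · have : z = x := by simpa using hz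
      subst this
      rw [hF'x, hgr z hself]

theorem RecData.recF_spec (x : M) : recF R H x = H x (graph (recF R H) (preds R x)) := by
  obtain ⟨g, D, hg, hx⟩ := hD.exists_appr x
  rw [hD.recF_eq hg hx, hg.2 x hx]
  congr 1
  refine graph_congr fun y hy => ?_
  rw [hD.recF_eq hg (hg.1 x hx y (hD.mem_preds.1 hy))]

end recursion

end ST

end Pool.Agent.Lib_helper27
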