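import Pool.Agent.Lib_helper27.Calc

/-!
# Forcing systems: congruence, check names, absoluteness
-/

namespace Pool.Agent.Lib_helper27

universe u v w v'

open Fml

section Rel

variable {U : Type v} {r : U → U → Prop}

namespace Fml.Rel

theorem or {φ φ' ψ ψ' : Fml U} (h1 : Fml.Rel r φ φ') (h2 : Fml.Rel r ψ ψ') :
    Fml.Rel r (Fml.or φ ψ) (Fml.or φ' ψ') := .neg (.and (.neg h1) (.neg h2))

theorem imp {φ φ' ψ ψ' : Fml U} (h1 : Fml.Rel r φ φ') (h2 : Fml.Rel r ψ ψ') :
    Fml.Rel r (Fml.imp φ ψ) (Fml.imp φ' ψ') := .neg (.and h1 (.neg h2))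

theorem iff {φ φ' ψ ψ' : Fml U} (h1 : Fml.Rel r φ φ') (h2 : Fml.Rel r ψ ψ') :
    Fml.Rel r (Fml.iff φ ψ) (Fml.iff φ' ψ') := .and (.imp h1 h2) (.imp h2 h1)

theorem ex {φ φ' : U → Fml U} (h : ∀ x, Fml.Rel r (φ x) (φ' x)) :
    Fml.Rel r (Fml.ex φ) (Fml.ex φ') := .neg (.all fun x => .neg (h x))

variable (hr : ∀ x, r x x)

include hr

theorem ball {a a' : U} {φ φ' : U → Fml U} (ha : r a a') (h : ∀ x, Fml.Rel r (φ x) (φ' x)) :
    Fml.Rel r (Fml.ball a φ) (Fml.ball a' φ') := .all fun x => .imp (.mem (hr x) ha) (h x)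

theorem bex {a a' : U} {φ φ' : U → Fml U} (ha : r a a') (h : ∀ x, Fml.Rel r (φ x) (φ' x)) :
    Fml.Rel r (Fml.bex a φ) (Fml.bex a' φ') := .ex fun x => .and (.mem (hr x) ha) (h x)

theorem isSubset {a a' b b' : U} (ha : r a a') (hb : r b b') :
    Fml.Rel r (Fml.isSubset a b) (Fml.isSubset a' b') := ball hr ha fun x => .mem (hr x) hb

theorem isUPair {a a' b b' c c' : U} (ha : r a a') (hb : r b b') (hc : r c c') :
    Fml.Rel r (Fml.isUPair a b c) (Fml.isUPair a' b' c') :=
  .all fun x => .iff (.mem (hr x) ha) (.or (.eq (hr x) hb) (.eq (hr x) hc))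

theorem isOPair {a a' b b' c c' : U} (ha : r a a') (hb : r b b') (hc : r c c') :
    Fml.Rel r (Fml.isOPair a b c) (Fml.isOPair a' b' c') :=
  .all fun x => .iff (.mem (hr x) ha) (.or (isUPair hr (hr x) hb hb) (isUPair hr (hr x) hb hc))

theorem app {a a' b b' c c' : U} (ha : r a a') (hb : r b b') (hc : r c c') :
    Fml.Rel r (Fml.app a b c) (Fml.app a' b' c') := bex hr ha fun x => isOPair hr (hr x) hb hc

theorem isFunc {a a' b b' c c' : U} (ha : r a a') (hb : r b b') (hc : r c c') :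
    Fml.Rel r (Fml.isFunc a b c) (Fml.isFunc a' b' c') :=
  .and (ball hr ha fun z => bex hr hb fun x => bex hr hc fun y => isOPair hr (hr z) (hr x) (hr y))
    (.and (ball hr hb fun x => bex hr hc fun y => app hr ha (hr x) (hr y))
      (.all fun x => .all fun y => .all fun y' =>
        .imp (.and (app hr ha (hr x) (hr y)) (app hr ha (hr x) (hr y'))) (.eq (hr y) (hr y'))))

theorem isInj {a a' b b' c c' : U} (ha : r a a') (hb : r b b') (hc : r c c') :
    Fml.Rel r (Fml.isInj a b c) (Fml.isInj a' b' c') :=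
  .and (isFunc hr ha hb hc)
    (.all fun x => .all fun y => .all fun y' =>
        .imp (.and (app hr ha (hr x) (hr y')) (app hr ha (hr y) (hr y'))) (.eq (hr x) (hr y)))

theorem isBij {a a' b b' c c' : U} (ha : r a a') (hb : r b b') (hc : r c c') :
    Fml.Rel r (Fml.isBij a b c) (Fml.isBij a' b' c') :=
  .and (isInj hr ha hb hc) (ball hr hc fun y => bex hr hb fun x => app hr ha (hr x) (hr y))

theorem isOrd {a a' : U} (ha : r a a') : Fml.Rel r (Fml.isOrd a) (Fml.isOrd a') :=
  .and (ball hr ha fun y => isSubset hr (hr y) ha)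
    (ball hr ha fun y => ball hr ha fun z =>
      .or (.mem (hr y) (hr z)) (.or (.eq (hr y) (hr z)) (.mem (hr z) (hr y))))

theorem isOmega {a a' : U} (ha : r a a') : Fml.Rel r (Fml.isOmega a) (Fml.isOmega a') :=
  .and (isOrd hr ha)
    (.and (.ex fun x => .mem (hr x) ha)
      (.and (ball hr ha fun x => bex hr ha fun y => .mem (hr x) (hr y))
        (ball hr ha fun u => .imp (.ex fun x => .mem (hr x) (hr u))
          (bex hr (hr u) fun x => ball hr (hr u) fun y => .neg (.mem (hr x) (hr y))))))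

theorem isHartogs {a a' b b' : U} (ha : r a a') (hb : r b b') :
    Fml.Rel r (Fml.isHartogs a b) (Fml.isHartogs a' b') :=
  .and (isOrd hr hb)
    (.and (.neg (.ex fun f => isInj hr (hr f) hb ha))
      (ball hr hb fun c => .ex fun f => isInj hr (hr f) (hr c) ha))

theorem isHeight {T T' R R' k k' h h' : U} (hT : r T T') (hR : r R R') (hk : r k k') (hh : r h h') :
    Fml.Rel r (Fml.isHeight T R k h) (Fml.isHeight T' R' k' h') :=
  .and (isFunc hr hh hT hk)
    (.and (ball hr hT fun t => .all fun d => .imp (app hr hh (hr t) (hr d))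
        (.all fun c => .iff (.mem (hr c) (hr d))
          (bex hr hT fun s => .and (app hr hR (hr s) (hr t)) (app hr hh (hr s) (hr c)))))
      (ball hr hk fun a => bex hr hT fun t => app hr hh (hr t) (hr a)))

theorem isCofBranch {T T' R R' k k' h h' B B' : U} (hT : r T T') (hR : r R R') (hk : r k k')
    (hh : r h h') (hB : r B B') :
    Fml.Rel r (Fml.isCofBranch T R k h B) (Fml.isCofBranch T' R' k' h' B') :=
  .and (isSubset hr hB hT)
    (.and (ball hr hB fun x => ball hr hB fun y =>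
        .or (app hr hR (hr x) (hr y)) (.or (.eq (hr x) (hr y)) (app hr hR (hr y) (hr x))))
      (ball hr hk fun a => bex hr hB fun t => app hr hh (hr t) (hr a)))

end Fml.Rel

end Rel

section Congr

variable {P : Type w} [Preorder P] {U : Type v} {A : AtomForce P U} (hA : A.Basic)

include hA

theorem app_congr {p : P} {f x y x' y' : U} (hx : A.eq p x x') (hy : A.eq p y y')
    (h : Forces A p (app f x y)) : Forces A p (app f x' y') :=
  (Forces.congr hA (Fml.Rel.app (hA.eq_refl p) (hA.eq_refl p f) hx hy) le_rfl).1 h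

theorem opair_congr {p : P} {z x y z' x' y' : U} (hz : A.eq p z z') (hx : A.eq p x x')
    (hy : A.eq p y y') (h : Forces A p (isOPair z x y)) : Forces A p (isOPair z' x' y') :=
  (Forces.congr hA (Fml.Rel.isOPair (hA.eq_refl p) hz hx hy) le_rfl).1 h

theorem upair_congr {p : P} {z x y z' x' y' : U} (hz : A.eq p z z') (hx : A.eq p x x')
    (hy : A.eq p y y') (h : Forces A p (isUPair z x y)) : Forces A p (isUPair z' x' y') :=
  (Forces.congr hA (Fml.Rel.isUPair (hA.eq_refl p) hz hx hy) le_rfl).1 h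

end Congr

/-- A forcing system: names `U`, a ground structure `(M, E)` and check names `chk : M → U`. -/
structure Sys {P : Type w} [Preorder P] {U : Type v} (A : AtomForce P U) {M : Type v'}
    (E : M → M → Prop) (chk : M → U) : Prop extends A.Basic where
  chk_eq : ∀ {p a b}, A.eq p (chk a) (chk b) → a = b
  mem_chk : ∀ {p x b}, A.mem p x (chk b) ↔ Loc p (fun r => ∃ a, E a b ∧ A.eq r x (chk a))
  ground_ext : ∀ {a b}, (∀ c, E c a ↔ E c b) → a = b
  ground_pair : ∀ a b, ∃ c, ∀ x, E x c ↔ x = a ∨ x = b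
  ground_irrefl : ∀ a, ¬ E a a
  ground_asymm : ∀ {a b}, E a b → ¬ E b a
  name_pair : ∀ x y, ∃ z, ∀ p, Forces A p (isUPair z x y)
  diff : ∀ x y, ∃ z, ∀ p w, A.mem p w z ↔ (A.mem p w x ∧ ∀ q, q ≤ p → ¬ A.mem q w y)
  found : ∀ {p x a}, A.mem p a x →
    ∃ q, q ≤ p ∧ ∃ b, A.mem q b x ∧ ∀ c, ∀ r, r ≤ q → A.mem r c x → ¬ A.mem r c b
  bound : ∀ x, ∃ θ, Holds E (isOrd θ) ∧ ∀ p, ¬ A.mem p (chk θ) x

section Holds

variable {M : Type v} {E : M → M → Prop}

@[simp] theorem holds_mem {x y : M} : Holds E (mem x y) ↔ E x y := Iff.rfl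
@[simp] theorem holds_eq {x y : M} : Holds E (eq x y) ↔ x = y := Iff.rfl
@[simp] theorem holds_neg {φ : Fml M} : Holds E (neg φ) ↔ ¬ Holds E φ := Iff.rfl
@[simp] theorem holds_and {φ ψ : Fml M} : Holds E (and φ ψ) ↔ Holds E φ ∧ Holds E ψ := Iff.rfl
@[simp] theorem holds_all {φ : M → Fml M} : Holds E (all φ) ↔ ∀ x, Holds E (φ x) := Iff.rfl
@[simp] theorem holds_or {φ ψ : Fml M} : Holds E (Fml.or φ ψ) ↔ Holds E φ ∨ Holds E ψ := by
  simp only [Fml.or, holds_neg, holds_and]; tauto
@[simp] theorem holds_imp {φ ψ : Fml M} : Holds E (imp φ ψ) ↔ (Holds E φ → Holds E ψ) := by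
  simp only [imp, holds_neg, holds_and]; tauto
@[simp] theorem holds_iff {φ ψ : Fml M} : Holds E (Fml.iff φ ψ) ↔ (Holds E φ ↔ Holds E ψ) := by
  simp only [Fml.iff, holds_and, holds_imp]; tauto
@[simp] theorem holds_ex {φ : M → Fml M} : Holds E (ex φ) ↔ ∃ x, Holds E (φ x) := by
  simp only [ex, holds_neg, holds_all]; push Not; rfl
@[simp] theorem holds_ball {a : M} {φ : M → Fml M} :
    Holds E (ball a φ) ↔ ∀ x, E x a → Holds E (φ x) := by
  simp only [ball, holds_all, holds_imp, holds_mem]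
@[simp] theorem holds_bex {a : M} {φ : M → Fml M} :
    Holds E (bex a φ) ↔ ∃ x, E x a ∧ Holds E (φ x) := by
  simp only [bex, holds_ex, holds_and, holds_mem]
@[simp] theorem holds_isSubset {a b : M} : Holds E (isSubset a b) ↔ ∀ x, E x a → E x b := by
  simp only [isSubset, holds_ball, holds_mem]
@[simp] theorem holds_isUPair {a b c : M} :
    Holds E (isUPair a b c) ↔ ∀ x, E x a ↔ x = b ∨ x = c := by
  simp only [isUPair, holds_all, holds_iff, holds_mem, holds_or, holds_eq]

end Holds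

end Pool.Agent.Lib_helper27
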