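import Pool.Agent.Lib_helper27.Ord

/-!
# Names for weak Kurepa trees
-/

set_option linter.unusedSectionVars false
set_option linter.unusedVariables false

namespace Pool.Agent.Lib_helper27

universe u v w v'

open Fml

/-- Names for the data of a weak Kurepa tree. -/
structure TreeNames {P : Type w} [Preorder P] {U : Type v} (A : AtomForce P U) {M : Type v'}
    (chk : M → U) (q : P) (κ lam : M) (T R h e S F : U) : Prop where
  tree : Forces A q (isTree T R)
  height : Forces A q (isHeight T R (chk κ) h)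
  bij : Forces A q (isBij e (chk κ) T)
  branches : Forces A q (ball S fun B => isCofBranch T R (chk κ) h B)
  inj : Forces A q (isInj F (chk lam) S)

variable {P : Type w} [Preorder P] {U : Type v} {A : AtomForce P U} {M : Type v'}
  {E : M → M → Prop} {chk : M → U}

section funcs

variable (hS : Sys A E chk)
include hS

theorem func_single {p : P} {f a b x y y' : U} (hf : Forces A p (isFunc f a b))
    (h1 : Forces A p (app f x y)) (h2 : Forces A p (app f x y')) : A.eq p y y' :=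
  (forces_imp hS.toBasic).1 (hf.2.2 x y y') p le_rfl ⟨h1, h2⟩

theorem func_total {p : P} {f a b x : U} (hf : Forces A p (isFunc f a b)) (hx : A.mem p x a) :
    Loc p (fun q => ∃ y, A.mem q y b ∧ Forces A q (app f x y)) :=
  forces_bex.1 ((forces_ball hS.toBasic).1 hf.2.1 x p le_rfl hx)

theorem inj_single {p : P} {f a b x x' y : U} (hf : Forces A p (isInj f a b))
    (h1 : Forces A p (app f x y)) (h2 : Forces A p (app f x' y)) : A.eq p x x' :=
  (forces_imp hS.toBasic).1 (hf.2 x x' y) p le_rfl ⟨h1, h2⟩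

end funcs

namespace TreeNames

variable {q : P} {κ lam : M} {T R h e S F : U}

/-- `q` forces that the `α`-th node is at height `δ`. -/
def Ht (A : AtomForce P U) (chk : M → U) (e h : U) (r : P) (α δ : M) : Prop :=
  Forces A r (ex fun t => and (app e (chk α) t) (app h t (chk δ)))

/-- `q` forces that the `α`-th node is below the `β`-th node. -/
def Rl (A : AtomForce P U) (chk : M → U) (e R : U) (r : P) (α β : M) : Prop :=
  Forces A r (ex fun s => ex fun t => and (and (app e (chk α) s) (app e (chk β) t)) (app R s t))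

/-- `q` forces that the `α`-th node is in the `ξ`-th branch. -/
def Br (A : AtomForce P U) (chk : M → U) (e F : U) (r : P) (ξ α : M) : Prop :=
  Forces A r (ex fun b => ex fun t => and (and (app F (chk ξ) b) (app e (chk α) t)) (mem t b))

variable (hS : Sys A E chk) (hN : TreeNames A chk q κ lam T R h e S F)

theorem mono (hA : A.Basic) {r : P} (hr : r ≤ q) (hN : TreeNames A chk q κ lam T R h e S F) :
    TreeNames A chk r κ lam T R h e S F :=
  ⟨Forces.mono hA hr hN.tree, Forces.mono hA hr hN.height, Forces.mono hA hr hN.bij,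
    Forces.mono hA hr hN.branches, Forces.mono hA hr hN.inj⟩

include hS

theorem Ht.mono {r s : P} {α δ : M} (hs : s ≤ r) (hH : Ht A chk e h r α δ) :
    Ht A chk e h s α δ := Forces.mono hS.toBasic hs hH

theorem Rl.mono {r s : P} {α δ : M} (hs : s ≤ r) (hH : Rl A chk e h r α δ) :
    Rl A chk e h s α δ := Forces.mono hS.toBasic hs hH

theorem Br.mono {r s : P} {α δ : M} (hs : s ≤ r) (hH : Br A chk e h r α δ) :
    Br A chk e h s α δ := Forces.mono hS.toBasic hs hH

include hN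

theorem e_single {p : P} (hp : p ≤ q) {x y y' : U}
    (h1 : Forces A p (app e x y)) (h2 : Forces A p (app e x y')) : A.eq p y y' :=
  func_single hS (Forces.mono hS.toBasic hp hN.bij).1.1 h1 h2

theorem e_inj {p : P} (hp : p ≤ q) {x x' y : U}
    (h1 : Forces A p (app e x y)) (h2 : Forces A p (app e x' y)) : A.eq p x x' :=
  inj_single hS (Forces.mono hS.toBasic hp hN.bij).1 h1 h2

theorem h_single {p : P} (hp : p ≤ q) {x y y' : U}
    (h1 : Forces A p (app h x y)) (h2 : Forces A p (app h x y')) : A.eq p y y' :=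
  func_single hS (Forces.mono hS.toBasic hp hN.height).1 h1 h2

theorem h_total {p : P} (hp : p ≤ q) {t : U} (ht : A.mem p t T) :
    Loc p (fun r => ∃ δ, E δ κ ∧ Forces A r (app h t (chk δ))) := by
  refine (func_total hS (Forces.mono hS.toBasic hp hN.height).1 ht).bind ?_
  rintro r _ ⟨y, hy, hty⟩
  refine (hS.mem_chk.1 hy).imp ?_
  rintro s hs ⟨δ, hδ, he⟩
  exact ⟨δ, hδ, app_congr hS.toBasic (hS.eq_refl s t) he (Forces.mono hS.toBasic hs hty)⟩

/-- the elements of the height of `t` are the heights of the predecessors of `t` -/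
theorem h_height {p : P} (hp : p ≤ q) {t d c : U} (ht : A.mem p t T)
    (h1 : Forces A p (app h t d)) :
    A.mem p c d ↔ Loc p (fun r => ∃ s, A.mem r s T ∧ Forces A r (app R s t) ∧
      Forces A r (app h s c)) := by
  have h2 := (forces_ball hS.toBasic).1 (Forces.mono hS.toBasic hp hN.height).2.1 t p le_rfl ht d
  have h3 := (forces_imp hS.toBasic).1 h2 p le_rfl h1 c
  have h4 := (forces_iff hS.toBasic).1 h3 p le_rfl
  rw [forces_mem, forces_bex] at h4
  exact h4

theorem e_mem {p : P} (hp : p ≤ q) {α : M} (hα : E α κ) {t : U}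
    (h1 : Forces A p (app e (chk α) t)) : A.mem p t T := by
  have hB := hS.toBasic
  refine hS.mem_dense ((func_total hS (Forces.mono hB hp hN.bij).1.1
    (hS.mem_chk_of (p := p) hα)).imp ?_)
  rintro r hr ⟨y, hy, hty⟩
  have := hN.e_single hS (hr.trans hp) hty (Forces.mono hB hr h1)
  exact hS.mem_congr this (hS.eq_refl r T) hy

/-- The height relation of a pair of nodes. -/
theorem height_of_rel {p : P} (hp : p ≤ q) {s t : U} {δ δ' : M} (hs : A.mem p s T)
    (ht : A.mem p t T) (h1 : Forces A p (app R s t)) (h2 : Forces A p (app h s (chk δ)))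
    (h3 : Forces A p (app h t (chk δ'))) : E δ δ' :=
  hS.of_mem_chk ((hN.h_height hS hp ht h3).2 (Loc.pure fun r hr =>
    ⟨s, hS.mem_mono hr hs, Forces.mono hS.toBasic hr h1, Forces.mono hS.toBasic hr h2⟩))

theorem R_trans {p : P} (hp : p ≤ q) {x y z : U} (hx : A.mem p x T) (hy : A.mem p y T)
    (hz : A.mem p z T) (h1 : Forces A p (app R x y)) (h2 : Forces A p (app R y z)) :
    Forces A p (app R x z) := by
  have hB := hS.toBasic
  have h3 := (forces_ball hB).1 (Forces.mono hB hp hN.tree).2.2.1 x p le_rfl hx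
  have h4 := (forces_ball hB).1 h3 y p le_rfl hy
  have h5 := (forces_ball hB).1 h4 z p le_rfl hz
  exact (forces_imp hB).1 h5 p le_rfl ⟨h1, h2⟩

theorem loc_of_or3 {p : P} {φ ψ χ : Fml U} (h : Forces A p (Fml.or φ (Fml.or ψ χ))) :
    Loc p (fun r => Forces A r φ ∨ Forces A r ψ ∨ Forces A r χ) := by
  have hB := hS.toBasic
  refine (forces_or.1 h).bind ?_
  rintro r _ (h | h)
  · exact Loc.pure fun s hs => Or.inl (Forces.mono hB hs h)
  · refine (forces_or.1 h).imp ?_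
    rintro s _ (h | h)
    · exact Or.inr (Or.inl h)
    · exact Or.inr (Or.inr h)

/-- predecessors of a node are comparable -/
theorem R_pred {p : P} (hp : p ≤ q) {x y t : U} (hx : A.mem p x T) (hy : A.mem p y T)
    (ht : A.mem p t T) (h1 : Forces A p (app R x t)) (h2 : Forces A p (app R y t)) :
    Loc p (fun r => Forces A r (app R x y) ∨ A.eq r x y ∨ Forces A r (app R y x)) := by
  have hB := hS.toBasic
  have h3 := ((forces_ball hB).1 (Forces.mono hB hp hN.tree).2.2.2 t p le_rfl ht).1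
  have h4 := (forces_ball hB).1 h3 x p le_rfl hx
  have h5 := (forces_ball hB).1 h4 y p le_rfl hy
  exact hN.loc_of_or3 hS ((forces_imp hB).1 h5 p le_rfl ⟨h1, h2⟩)

/-- elements of a cofinal branch are comparable -/
theorem B_lin {p : P} {B x y : U} (hBr : Forces A p (isCofBranch T R (chk κ) h B))
    (hx : A.mem p x B) (hy : A.mem p y B) :
    Loc p (fun r => Forces A r (app R x y) ∨ A.eq r x y ∨ Forces A r (app R y x)) := by
  have hB := hS.toBasic
  have h4 := (forces_ball hB).1 hBr.2.1 x p le_rfl hx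
  have h5 := (forces_ball hB).1 h4 y p le_rfl hy
  exact hN.loc_of_or3 hS h5

/-- Among two comparable nodes, the lower one is below the other. -/
theorem rel_of_comp {p : P} (hp : p ≤ q) {x y : U} {δ δ' : M} (hx : A.mem p x T)
    (hy : A.mem p y T) (h1 : Forces A p (app h x (chk δ))) (h2 : Forces A p (app h y (chk δ')))
    (hδ : E δ δ')
    (hc : Loc p (fun r => Forces A r (app R x y) ∨ A.eq r x y ∨ Forces A r (app R y x))) :
    Forces A p (app R x y) := by
  have hB := hS.toBasic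
  refine Forces.dense hB (hc.imp ?_)
  rintro r hr (h3 | h3 | h3)
  · exact h3
  · exfalso
    have h4 := app_congr hB h3 (hS.eq_refl r (chk δ)) (Forces.mono hB hr h1)
    have h5 := hS.chk_eq (hN.h_single hS (hr.trans hp) h4 (Forces.mono hB hr h2))
    subst h5
    exact hS.ground_irrefl _ hδ
  · exfalso
    exact hS.ground_asymm hδ (hN.height_of_rel hS (hr.trans hp) (hS.mem_mono hr hy)
      (hS.mem_mono hr hx) h3 (Forces.mono hB hr h2) (Forces.mono hB hr h1))

/-- Comparable nodes of the same height are equal. -/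
theorem eq_of_comp {p : P} (hp : p ≤ q) {x y : U} {δ : M} (hx : A.mem p x T)
    (hy : A.mem p y T) (h1 : Forces A p (app h x (chk δ))) (h2 : Forces A p (app h y (chk δ)))
    (hc : Loc p (fun r => Forces A r (app R x y) ∨ A.eq r x y ∨ Forces A r (app R y x))) :
    A.eq p x y := by
  have hB := hS.toBasic
  refine hS.eq_dense (hc.imp ?_)
  rintro r hr (h3 | h3 | h3)
  · exact (hS.ground_irrefl _ (hN.height_of_rel hS (hr.trans hp) (hS.mem_mono hr hx)
      (hS.mem_mono hr hy) h3 (Forces.mono hB hr h1) (Forces.mono hB hr h2))).elim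
  · exact h3
  · exact (hS.ground_irrefl _ (hN.height_of_rel hS (hr.trans hp) (hS.mem_mono hr hy)
      (hS.mem_mono hr hx) h3 (Forces.mono hB hr h2) (Forces.mono hB hr h1))).elim

/-- A cofinal branch is downward closed. -/
theorem B_down {p : P} (hp : p ≤ q) {B s t : U}
    (hBr : Forces A p (isCofBranch T R (chk κ) h B)) (ht : A.mem p t B) (hs : A.mem p s T)
    (hst : Forces A p (app R s t)) : A.mem p s B := by
  have hB := hS.toBasic
  have htT : A.mem p t T := hS.forces_isSubset.1 hBr.1 t p le_rfl ht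
  refine hS.mem_dense ((hN.h_total hS hp hs).bind ?_)
  rintro r1 hr1 ⟨δ, hδ, h1⟩
  -- a node of the branch at level δ
  have h2 := (forces_ball hB).1 (Forces.mono hB hr1 hBr).2.2 (chk δ) r1 le_rfl (hS.mem_chk_of hδ)
  refine (forces_bex.1 h2).bind ?_
  rintro r2 hr2 ⟨u, hu, h3⟩
  refine ((hN.h_total hS hp htT).mono (hr2.trans hr1)).imp ?_
  rintro r3 hr3 ⟨ε, hε, h4⟩
  have hr31 := hr3.trans hr2
  have hr3p := hr31.trans hr1
  have hr3q := hr3p.trans hp
  have hsT := hS.mem_mono hr3p hs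
  have htT' := hS.mem_mono hr3p htT
  have hu' := hS.mem_mono hr3 hu
  have huT := hS.forces_isSubset.1 (Forces.mono hB hr3p hBr).1 u r3 le_rfl hu'
  have hst' := Forces.mono hB hr3p hst
  have h1' := Forces.mono hB hr31 h1
  have h3' := Forces.mono hB hr3 h3
  have hδε : E δ ε := hN.height_of_rel hS hr3q hsT htT' hst' h1' h4
  have hut : Forces A r3 (app R u t) := hN.rel_of_comp hS hr3q huT htT' h3' h4 hδε
    (hN.B_lin hS (Forces.mono hB hr3p hBr) hu' (hS.mem_mono hr3p ht))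
  have := hN.eq_of_comp hS hr3q hsT huT h1' h3' (hN.R_pred hS hr3q hsT huT htT' hst' hut)
  exact hS.mem_congr (hS.eq_symm this) (hS.eq_refl r3 B) hu'

/-- unpacking `Ht` -/
theorem Ht_iff {p : P} (hp : p ≤ q) {α δ : M} {t : U} (ht : Forces A p (app e (chk α) t)) :
    Ht A chk e h p α δ ↔ Forces A p (app h t (chk δ)) := by
  have hB := hS.toBasic
  constructor
  · intro h1
    refine Forces.dense hB ((forces_ex.1 h1).imp ?_)
    rintro r hr ⟨t', h2, h3⟩
    exact app_congr hB (hN.e_single hS (hr.trans hp) h2 (Forces.mono hB hr ht)) (hS.eq_refl r _) h3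
  · intro h1
    exact forces_ex.2 (Loc.pure fun r hr => ⟨t, Forces.mono hB hr ht, Forces.mono hB hr h1⟩)

/-- unpacking `Rl` -/
theorem Rl_iff {p : P} (hp : p ≤ q) {α β : M} {s t : U} (hs : Forces A p (app e (chk α) s))
    (ht : Forces A p (app e (chk β) t)) :
    Rl A chk e R p α β ↔ Forces A p (app R s t) := by
  have hB := hS.toBasic
  constructor
  · intro h1
    refine Forces.dense hB ((forces_ex.1 h1).bind ?_)
    rintro r hr ⟨s', h2⟩
    refine (forces_ex.1 h2).imp ?_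
    rintro r' hr' ⟨t', ⟨h3, h4⟩, h5⟩
    exact app_congr hB (hN.e_single hS ((hr'.trans hr).trans hp) h3 (Forces.mono hB (hr'.trans hr) hs))
      (hN.e_single hS ((hr'.trans hr).trans hp) h4 (Forces.mono hB (hr'.trans hr) ht)) h5
  · intro h1
    exact forces_ex.2 (Loc.pure fun r hr => ⟨s, forces_ex.2 (Loc.pure fun r' hr' =>
      ⟨t, ⟨Forces.mono hB (hr'.trans hr) hs, Forces.mono hB (hr'.trans hr) ht⟩,
        Forces.mono hB (hr'.trans hr) h1⟩)⟩)

/-- unpacking `Br` -/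
theorem Br_iff {p : P} (hp : p ≤ q) {ξ α : M} {b t : U} (hb : Forces A p (app F (chk ξ) b))
    (ht : Forces A p (app e (chk α) t)) :
    Br A chk e F p ξ α ↔ A.mem p t b := by
  have hB := hS.toBasic
  constructor
  · intro h1
    refine hS.mem_dense ((forces_ex.1 h1).bind ?_)
    rintro r hr ⟨s', h2⟩
    refine (forces_ex.1 h2).imp ?_
    rintro r' hr' ⟨t', ⟨h3, h4⟩, h5⟩
    exact hS.mem_congr (hN.e_single hS ((hr'.trans hr).trans hp) h4 (Forces.mono hB (hr'.trans hr) ht))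
      (func_single hS (Forces.mono hB ((hr'.trans hr).trans hp) hN.inj).1 h3
        (Forces.mono hB (hr'.trans hr) hb)) h5
  · intro h1
    exact forces_ex.2 (Loc.pure fun r hr => ⟨b, forces_ex.2 (Loc.pure fun r' hr' =>
      ⟨t, ⟨Forces.mono hB (hr'.trans hr) hb, Forces.mono hB (hr'.trans hr) ht⟩,
        hS.mem_mono (hr'.trans hr) h1⟩)⟩)

theorem e_total {p : P} (hp : p ≤ q) {α : M} (hα : E α κ) :
    Loc p (fun r => ∃ t, A.mem r t T ∧ Forces A r (app e (chk α) t)) :=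
  func_total hS (Forces.mono hS.toBasic hp hN.bij).1.1 (hS.mem_chk_of hα)

theorem F_total {p : P} (hp : p ≤ q) {ξ : M} (hξ : E ξ lam) :
    Loc p (fun r => ∃ b, Forces A r (isCofBranch T R (chk κ) h b) ∧
      Forces A r (app F (chk ξ) b)) := by
  have hB := hS.toBasic
  refine (func_total hS (Forces.mono hB hp hN.inj).1 (hS.mem_chk_of (p := p) hξ)).imp ?_
  rintro r hr ⟨b, hb, h1⟩
  exact ⟨b, (forces_ball hB).1 (Forces.mono hB (hr.trans hp) hN.branches) b r le_rfl hb, h1⟩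

/-- (P1) heights are unique -/
theorem P1 {p : P} (hp : p ≤ q) {α δ δ' : M} (hα : E α κ) (h1 : Ht A chk e h p α δ)
    (h2 : Ht A chk e h p α δ') : δ = δ' := by
  obtain ⟨r, hr, t, _, ht⟩ := (hN.e_total hS hp hα).exists
  have h3 := (hN.Ht_iff hS (hr.trans hp) ht).1 (h1.mono hS hr)
  have h4 := (hN.Ht_iff hS (hr.trans hp) ht).1 (h2.mono hS hr)
  exact hS.chk_eq (hN.h_single hS (hr.trans hp) h3 h4)

/-- (P2) -/
theorem P2 {p : P} (hp : p ≤ q) {α β δ δ' : M} (hα : E α κ) (hβ : E β κ)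
    (h0 : Rl A chk e R p α β) (h1 : Ht A chk e h p α δ) (h2 : Ht A chk e h p β δ') : E δ δ' := by
  obtain ⟨r, hr, s, hsT, hs⟩ := (hN.e_total hS hp hα).exists
  obtain ⟨r', hr', t, htT, ht⟩ := (hN.e_total hS (hr.trans hp) hβ).exists
  have hp' := hr'.trans (hr.trans hp)
  have hs' := Forces.mono hS.toBasic hr' hs
  have h3 := (hN.Ht_iff hS hp' hs').1 (h1.mono hS (hr'.trans hr))
  have h4 := (hN.Ht_iff hS hp' ht).1 (h2.mono hS (hr'.trans hr))
  have h5 := (hN.Rl_iff hS hp' hs' ht).1 (h0.mono hS (hr'.trans hr))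
  exact hN.height_of_rel hS hp' (hS.mem_mono hr' hsT) htT h5 h3 h4

/-- (P3) -/
theorem P3 {p : P} (hp : p ≤ q) {α β γ : M} (hα : E α κ) (hβ : E β κ) (hγ : E γ κ)
    (h1 : Rl A chk e R p α β) (h2 : Rl A chk e R p β γ) : Rl A chk e R p α γ := by
  refine Forces.dense hS.toBasic ((hN.e_total hS hp hα).bind ?_)
  rintro r1 hr1 ⟨s, hsT, hs⟩
  refine (hN.e_total hS (hr1.trans hp) hβ).bind ?_
  rintro r2 hr2 ⟨t, htT, ht⟩
  refine (hN.e_total hS (hr2.trans (hr1.trans hp)) hγ).imp ?_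
  rintro r3 hr3 ⟨u, huT, hu⟩
  have hB := hS.toBasic
  have hp3 := hr3.trans (hr2.trans (hr1.trans hp))
  have hs' := Forces.mono hB (hr3.trans hr2) hs
  have ht' := Forces.mono hB hr3 ht
  have h3 := (hN.Rl_iff hS hp3 hs' ht').1 (h1.mono hS (hr3.trans (hr2.trans hr1)))
  have h4 := (hN.Rl_iff hS hp3 ht' hu).1 (h2.mono hS (hr3.trans (hr2.trans hr1)))
  exact (hN.Rl_iff hS hp3 hs' hu).2 (hN.R_trans hS hp3 (hS.mem_mono (hr3.trans hr2) hsT)
    (hS.mem_mono hr3 htT) huT h3 h4)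

/-- (P4) -/
theorem P4 {p : P} (hp : p ≤ q) {α β γ δ δ' : M} (hα : E α κ) (hβ : E β κ) (hγ : E γ κ)
    (h1 : Rl A chk e R p α γ) (h2 : Rl A chk e R p β γ) (h3 : Ht A chk e h p α δ)
    (h4 : Ht A chk e h p β δ') (hδ : E δ δ') : Rl A chk e R p α β := by
  refine Forces.dense hS.toBasic ((hN.e_total hS hp hα).bind ?_)
  rintro r1 hr1 ⟨s, hsT, hs⟩
  refine (hN.e_total hS (hr1.trans hp) hβ).bind ?_
  rintro r2 hr2 ⟨t, htT, ht⟩
  refine (hN.e_total hS (hr2.trans (hr1.trans hp)) hγ).imp ?_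
  rintro r3 hr3 ⟨u, huT, hu⟩
  have hB := hS.toBasic
  have hp3 := hr3.trans (hr2.trans (hr1.trans hp))
  have hr30 := hr3.trans (hr2.trans hr1)
  have hs' := Forces.mono hB (hr3.trans hr2) hs
  have ht' := Forces.mono hB hr3 ht
  have hsT' := hS.mem_mono (hr3.trans hr2) hsT
  have htT' := hS.mem_mono hr3 htT
  have h5 := (hN.Rl_iff hS hp3 hs' hu).1 (h1.mono hS hr30)
  have h6 := (hN.Rl_iff hS hp3 ht' hu).1 (h2.mono hS hr30)
  have h7 := (hN.Ht_iff hS hp3 hs').1 (h3.mono hS hr30)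
  have h8 := (hN.Ht_iff hS hp3 ht').1 (h4.mono hS hr30)
  exact (hN.Rl_iff hS hp3 hs' ht').2 (hN.rel_of_comp hS hp3 hsT' htT' h7 h8 hδ
    (hN.R_pred hS hp3 hsT' htT' huT h5 h6))

/-- (P4') -/
theorem P4' {p : P} (hp : p ≤ q) {α β γ δ : M} (hα : E α κ) (hβ : E β κ) (hγ : E γ κ)
    (h1 : Rl A chk e R p α γ) (h2 : Rl A chk e R p β γ) (h3 : Ht A chk e h p α δ)
    (h4 : Ht A chk e h p β δ) : α = β := by
  have hB := hS.toBasic
  obtain ⟨r1, hr1, s, hsT, hs⟩ := (hN.e_total hS hp hα).exists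
  obtain ⟨r2, hr2, t, htT, ht⟩ := (hN.e_total hS (hr1.trans hp) hβ).exists
  obtain ⟨r3, hr3, u, huT, hu⟩ := (hN.e_total hS (hr2.trans (hr1.trans hp)) hγ).exists
  have hp3 := hr3.trans (hr2.trans (hr1.trans hp))
  have hr30 := hr3.trans (hr2.trans hr1)
  have hs' := Forces.mono hB (hr3.trans hr2) hs
  have ht' := Forces.mono hB hr3 ht
  have hsT' := hS.mem_mono (hr3.trans hr2) hsT
  have htT' := hS.mem_mono hr3 htT
  have h5 := (hN.Rl_iff hS hp3 hs' hu).1 (h1.mono hS hr30)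
  have h6 := (hN.Rl_iff hS hp3 ht' hu).1 (h2.mono hS hr30)
  have h7 := (hN.Ht_iff hS hp3 hs').1 (h3.mono hS hr30)
  have h8 := (hN.Ht_iff hS hp3 ht').1 (h4.mono hS hr30)
  have h9 := hN.eq_of_comp hS hp3 hsT' htT' h7 h8 (hN.R_pred hS hp3 hsT' htT' huT h5 h6)
  have h10 := app_congr hB (hS.eq_refl r3 _) h9 hs'
  exact hS.chk_eq (hN.e_inj hS hp3 h10 ht')

/-- (P5) -/
theorem P5 {p : P} (hp : p ≤ q) {ξ α β δ δ' : M} (hξ : E ξ lam) (hα : E α κ) (hβ : E β κ)
    (h1 : Br A chk e F p ξ α) (h2 : Br A chk e F p ξ β) (h3 : Ht A chk e h p α δ)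
    (h4 : Ht A chk e h p β δ') (hδ : E δ δ') : Rl A chk e R p α β := by
  refine Forces.dense hS.toBasic ((hN.e_total hS hp hα).bind ?_)
  rintro r1 hr1 ⟨s, hsT, hs⟩
  refine (hN.e_total hS (hr1.trans hp) hβ).bind ?_
  rintro r2 hr2 ⟨t, htT, ht⟩
  refine (hN.F_total hS (hr2.trans (hr1.trans hp)) hξ).imp ?_
  rintro r3 hr3 ⟨b, hb, hFb⟩
  have hB := hS.toBasic
  have hp3 := hr3.trans (hr2.trans (hr1.trans hp))
  have hr30 := hr3.trans (hr2.trans hr1)
  have hs' := Forces.mono hB (hr3.trans hr2) hs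
  have ht' := Forces.mono hB hr3 ht
  have hsT' := hS.mem_mono (hr3.trans hr2) hsT
  have htT' := hS.mem_mono hr3 htT
  have h5 := (hN.Br_iff hS hp3 hFb hs').1 (h1.mono hS hr30)
  have h6 := (hN.Br_iff hS hp3 hFb ht').1 (h2.mono hS hr30)
  have h7 := (hN.Ht_iff hS hp3 hs').1 (h3.mono hS hr30)
  have h8 := (hN.Ht_iff hS hp3 ht').1 (h4.mono hS hr30)
  exact (hN.Rl_iff hS hp3 hs' ht').2 (hN.rel_of_comp hS hp3 hsT' htT' h7 h8 hδ
    (hN.B_lin hS hb h5 h6))

/-- (P5') -/
theorem P5' {p : P} (hp : p ≤ q) {ξ α β δ : M} (hξ : E ξ lam) (hα : E α κ) (hβ : E β κ)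
    (h1 : Br A chk e F p ξ α) (h2 : Br A chk e F p ξ β) (h3 : Ht A chk e h p α δ)
    (h4 : Ht A chk e h p β δ) : α = β := by
  have hB := hS.toBasic
  obtain ⟨r1, hr1, s, hsT, hs⟩ := (hN.e_total hS hp hα).exists
  obtain ⟨r2, hr2, t, htT, ht⟩ := (hN.e_total hS (hr1.trans hp) hβ).exists
  obtain ⟨r3, hr3, b, hb, hFb⟩ := (hN.F_total hS (hr2.trans (hr1.trans hp)) hξ).exists
  have hp3 := hr3.trans (hr2.trans (hr1.trans hp))
  have hr30 := hr3.trans (hr2.trans hr1)
  have hs' := Forces.mono hB (hr3.trans hr2) hs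
  have ht' := Forces.mono hB hr3 ht
  have hsT' := hS.mem_mono (hr3.trans hr2) hsT
  have htT' := hS.mem_mono hr3 htT
  have h5 := (hN.Br_iff hS hp3 hFb hs').1 (h1.mono hS hr30)
  have h6 := (hN.Br_iff hS hp3 hFb ht').1 (h2.mono hS hr30)
  have h7 := (hN.Ht_iff hS hp3 hs').1 (h3.mono hS hr30)
  have h8 := (hN.Ht_iff hS hp3 ht').1 (h4.mono hS hr30)
  have h9 := hN.eq_of_comp hS hp3 hsT' htT' h7 h8 (hN.B_lin hS hb h5 h6)
  have h10 := app_congr hB (hS.eq_refl r3 _) h9 hs'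
  exact hS.chk_eq (hN.e_inj hS hp3 h10 ht')

/-- (P6) -/
theorem P6 {p : P} (hp : p ≤ q) {ξ α β : M} (hξ : E ξ lam) (hα : E α κ) (hβ : E β κ)
    (h1 : Br A chk e F p ξ α) (h2 : Rl A chk e R p β α) : Br A chk e F p ξ β := by
  refine Forces.dense hS.toBasic ((hN.e_total hS hp hα).bind ?_)
  rintro r1 hr1 ⟨s, hsT, hs⟩
  refine (hN.e_total hS (hr1.trans hp) hβ).bind ?_
  rintro r2 hr2 ⟨t, htT, ht⟩
  refine (hN.F_total hS (hr2.trans (hr1.trans hp)) hξ).imp ?_
  rintro r3 hr3 ⟨b, hb, hFb⟩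
  have hB := hS.toBasic
  have hp3 := hr3.trans (hr2.trans (hr1.trans hp))
  have hr30 := hr3.trans (hr2.trans hr1)
  have hs' := Forces.mono hB (hr3.trans hr2) hs
  have ht' := Forces.mono hB hr3 ht
  have htT' := hS.mem_mono hr3 htT
  have h5 := (hN.Br_iff hS hp3 hFb hs').1 (h1.mono hS hr30)
  have h6 := (hN.Rl_iff hS hp3 ht' hs').1 (h2.mono hS hr30)
  exact (hN.Br_iff hS hp3 hFb ht').2 (hN.B_down hS hp3 hb h5 htT' h6)

/-- (P7) -/
theorem P7 {p : P} (hp : p ≤ q) {ξ δ : M} (hξ : E ξ lam) (hδ : E δ κ) :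
    Loc p (fun r => ∃ α, E α κ ∧ Ht A chk e h r α δ ∧ Br A chk e F r ξ α) := by
  have hB := hS.toBasic
  refine (hN.F_total hS hp hξ).bind ?_
  rintro r1 hr1 ⟨b, hb, hFb⟩
  have h1 := (forces_ball hB).1 hb.2.2 (chk δ) r1 le_rfl (hS.mem_chk_of hδ)
  refine (forces_bex.1 h1).bind ?_
  rintro r2 hr2 ⟨t, htb, hht⟩
  have htT := hS.forces_isSubset.1 (Forces.mono hB hr2 hb).1 t r2 le_rfl htb
  have h2 := (forces_ball hB).1 (Forces.mono hB (hr2.trans (hr1.trans hp)) hN.bij).2 t r2 le_rfl htT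
  refine (forces_bex.1 h2).bind ?_
  rintro r3 hr3 ⟨x, hx, hex⟩
  refine (hS.mem_chk.1 hx).imp ?_
  rintro r4 hr4 ⟨α, hα, he⟩
  have hex' := app_congr hB he (hS.eq_refl r4 t) (Forces.mono hB hr4 hex)
  have hr42 := hr4.trans hr3
  have hp4 := hr42.trans (hr2.trans (hr1.trans hp))
  exact ⟨α, hα, (hN.Ht_iff hS hp4 hex').2 (Forces.mono hB hr42 hht),
    (hN.Br_iff hS hp4 (Forces.mono hB (hr42.trans hr2) hFb) hex').2 (hS.mem_mono hr42 htb)⟩

/-- (P8) -/
theorem P8 {p : P} (hp : p ≤ q) {ξ η : M} (hξ : E ξ lam) (hη : E η lam)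
    (hun : ∀ δ, E δ κ → ∃ α δ', E α κ ∧ E δ δ' ∧ Ht A chk e h p α δ' ∧ Br A chk e F p ξ α ∧
      Br A chk e F p η α) : ξ = η := by
  have hB := hS.toBasic
  obtain ⟨r1, hr1, b, hb, hFb⟩ := (hN.F_total hS hp hξ).exists
  obtain ⟨r2, hr2, c, hc, hFc⟩ := (hN.F_total hS (hr1.trans hp) hη).exists
  have hb := Forces.mono hB hr2 hb
  have hFb := Forces.mono hB hr2 hFb
  have hp2 := hr2.trans (hr1.trans hp)
  have key : ∀ (b c : U) (ξ η : M), (∀ δ, E δ κ → ∃ α δ', E α κ ∧ E δ δ' ∧ Ht A chk e h p α δ' ∧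
      Br A chk e F p ξ α ∧ Br A chk e F p η α) →
      Forces A r2 (isCofBranch T R (chk κ) h b) → Forces A r2 (app F (chk ξ) b) →
      Forces A r2 (isCofBranch T R (chk κ) h c) → Forces A r2 (app F (chk η) c) →
      ∀ z s, s ≤ r2 → A.mem s z b → A.mem s z c := by
    intro b c ξ η hun hb hFb hc hFc z s hs hz
    have hzT := hS.forces_isSubset.1 (Forces.mono hB hs hb).1 z s le_rfl hz
    refine hS.mem_dense ((hN.h_total hS (hs.trans hp2) hzT).bind ?_)
    rintro s1 hs1 ⟨δ, hδ, hzδ⟩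
    obtain ⟨α, δ', hα, hδδ', hH, hBξ, hBη⟩ := hun δ hδ
    refine (hN.e_total hS (hs1.trans (hs.trans hp2)) hα).imp ?_
    rintro s2 hs2 ⟨t, htT, ht⟩
    have hs20 := hs2.trans (hs1.trans hs)
    have hs2q := hs20.trans hp2
    have hs2p := hs20.trans (hr2.trans hr1)
    have h1 := (hN.Ht_iff hS hs2q ht).1 (hH.mono hS hs2p)
    have h2 := (hN.Br_iff hS hs2q (Forces.mono hB hs20 hFb) ht).1 (hBξ.mono hS hs2p)
    have h3 := (hN.Br_iff hS hs2q (Forces.mono hB hs20 hFc) ht).1 (hBη.mono hS hs2p)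
    have hzT' := hS.mem_mono (hs2.trans hs1) hzT
    have hz' := hS.mem_mono (hs2.trans hs1) hz
    have h4 := hN.rel_of_comp hS hs2q hzT' htT (Forces.mono hB hs2 hzδ) h1 hδδ'
      (hN.B_lin hS (Forces.mono hB hs20 hb) hz' h2)
    exact hN.B_down hS hs2q (Forces.mono hB hs20 hc) h3 hzT' h4
  have hbc : A.eq r2 b c := hS.ext fun z s hs =>
    ⟨key b c ξ η hun hb hFb hc hFc z s hs,
      key c b η ξ (fun δ hδ => by
        obtain ⟨α, δ', h1, h2, h3, h4, h5⟩ := hun δ hδ
        exact ⟨α, δ', h1, h2, h3, h5, h4⟩) hc hFc hb hFb z s hs⟩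
  have h1 := app_congr hB (hS.eq_refl r2 _) hbc hFb
  exact hS.chk_eq (inj_single hS (Forces.mono hB hp2 hN.inj) h1 hFc)

end TreeNames

end Pool.Agent.Lib_helper27
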