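import Pool.Agent.Lib_helper27.Dbl

/-!
# Models of ZFC, and basic set theory inside an arbitrary model
-/

namespace Pool.Agent.Lib_helper27

universe u v w v'

open FirstOrder

/-- The structure `(M, ∈)` is a model of ZFC. -/
class ZFC (M : Type u) [SetStr M] : Prop where
  out : IsModelOfZFC (M := M) SetStr.E

namespace ST

variable {M : Type u} [SetStr M]

section schema

variable [ZFC M]

theorem ext {x y : M} (h : ∀ z : M, z ∈ x ↔ z ∈ y) : x = y := ZFC.out.extensionality x y h

theorem ext_iff {x y : M} : x = y ↔ ∀ z : M, z ∈ x ↔ z ∈ y := ⟨fun h => by simp [h], ext⟩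

theorem foundation {x y : M} (h : y ∈ x) : ∃ y, y ∈ x ∧ ∀ z, z ∈ x → ¬ z ∈ y :=
  ZFC.out.foundation x ⟨y, h⟩

theorem sep_exists {D : M → Prop} (hD : Dbl M D) (a : M) : ∃ b : M, ∀ x, x ∈ b ↔ x ∈ a ∧ D x := by
  refine (ZFC.out (M := M)).separation D ?_ a
  rw [dbl_prop_iff] at hD
  exact Set.Definable.preimage_comp (α := Unit) (β := Fin 1) (fun _ => 0) hD

theorem repl_exists {R : M → M → Prop} (hR : Dbl M (fun z : M × M => R z.1 z.2)) (a : M)
    (h : ∀ x, x ∈ a → ∃! y, R x y) : ∃ b : M, ∀ y, y ∈ b ↔ ∃ x, x ∈ a ∧ R x y := by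
  refine (ZFC.out (M := M)).replacement (fun z : M × M => R z.1 z.2) ?_ a h
  rw [dbl_prop_iff] at hR
  exact Set.Definable.preimage_comp (α := Unit ⊕ Unit) (β := Fin 2)
    (fun i => i.elim (fun _ => 0) (fun _ => 1)) hR

end schema

/-! ### Class abstraction -/

/-- `D` is (the extension of) a set. -/
def Small (D : M → Prop) : Prop := ∃ b : M, ∀ x, x ∈ b ↔ D x

/-- The set of all `x` with `D x`, if it exists. -/
noncomputable def comp [Nonempty M] (D : M → Prop) : M :=
  open Classical in if h : Small D then h.choose else Classical.arbitrary M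

variable [ZFC M]

instance : Nonempty M := by
  obtain ⟨x, _⟩ := (ZFC.out (M := M)).infinity
  exact ⟨x⟩

theorem mem_comp {D : M → Prop} (h : Small D) {x : M} : x ∈ comp D ↔ D x := by
  rw [comp, dif_pos h]
  exact h.choose_spec x

theorem comp_eq_iff {D : M → Prop} (h : Small D) {b : M} : comp D = b ↔ ∀ x, x ∈ b ↔ D x := by
  constructor
  · rintro rfl x
    exact mem_comp h
  · intro hb
    exact ext fun z => by rw [mem_comp h, hb]

theorem small_sep {D : M → Prop} (hD : Dbl M D) (a : M) : Small (fun x => x ∈ a ∧ D x) :=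
  sep_exists hD a

/-- a definable class included in a set is a set -/
theorem small_of_subset {D : M → Prop} (hD : Dbl M D) (a : M) (h : ∀ x, D x → x ∈ a) :
    Small D := by
  obtain ⟨b, hb⟩ := sep_exists hD a
  exact ⟨b, fun x => by rw [hb]; exact ⟨fun h => h.2, fun hx => ⟨h x hx, hx⟩⟩⟩

theorem small_image {f : M → M} (hf : Dbl M f) (a : M) : Small (fun y => ∃ x, x ∈ a ∧ f x = y) :=
  repl_exists (R := fun x y => f x = y) (by fun_prop) a fun x _ => ⟨f x, rfl, fun _ h => h.symm⟩

section dbl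

variable {Γ : Type v} [Ctx M Γ]

theorem dbl_comp {D : Γ → M → Prop} (h : ∀ γ, Small (D γ))
    (hD : Dbl M (fun z : Γ × M => D z.1 z.2)) : Dbl M (fun γ => comp (D γ)) := by
  apply dbl_of_graph
  refine Dbl.congr_prop (p := fun z : Γ × M => ∀ x, x ∈ z.2 ↔ D z.1 x) ?_ ?_
  · have : Dbl M (fun z : (Γ × M) × M => D z.1.1 z.2) :=
      Dbl.comp (f := fun z : (Γ × M) × M => (z.1.1, z.2)) (g := fun z : Γ × M => D z.1 z.2)
        (by fun_prop) hD
    fun_prop
  · intro z
    exact comp_eq_iff (h z.1)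

end dbl

/-! ### Basic operations -/

theorem small_empty : Small (fun _ : M => False) := by
  obtain ⟨x⟩ : Nonempty M := inferInstance
  exact small_of_subset (D := fun _ => False) (by fun_prop) x fun _ h => h.elim

/-- the empty set -/
noncomputable def empty : M := comp (fun _ : M => False)

theorem not_mem_empty (x : M) : ¬ x ∈ (empty : M) := fun h => (mem_comp small_empty).1 h

theorem eq_empty_iff {x : M} : x = empty ↔ ∀ y : M, ¬ y ∈ x := by
  constructor
  · rintro rfl y
    exact not_mem_empty y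
  · intro h
    exact ext fun z => ⟨fun hz => (h z hz).elim, fun hz => (not_mem_empty z hz).elim⟩

theorem small_upair (x y : M) : Small (fun w : M => w = x ∨ w = y) := (ZFC.out (M := M)).pairing x y

/-- the unordered pair -/
noncomputable def upair (x y : M) : M := comp (fun w : M => w = x ∨ w = y)

@[simp] theorem mem_upair {x y w : M} : w ∈ upair x y ↔ w = x ∨ w = y := mem_comp (small_upair x y)

/-- the ordered pair -/
noncomputable def opair (x y : M) : M := upair (upair x x) (upair x y)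

theorem upair_self_eq {x y : M} : upair x x = upair y y ↔ x = y := by
  constructor
  · intro h
    have : x ∈ upair y y := h ▸ mem_upair.2 (Or.inl rfl)
    simpa using this
  · rintro rfl; rfl

theorem opair_inj {x y x' y' : M} : opair x y = opair x' y' ↔ x = x' ∧ y = y' := by
  constructor
  · intro h
    have h1 : ∀ w : M, (w = upair x x ∨ w = upair x y) ↔ (w = upair x' x' ∨ w = upair x' y') := by
      intro w
      rw [← mem_upair, ← mem_upair]
      exact (ext_iff.1 h w)
    have hx : x = x' := by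
      rcases (h1 (upair x x)).1 (Or.inl rfl) with h2 | h2
      · exact upair_self_eq.1 h2
      · have : x' ∈ upair x x := h2 ▸ mem_upair.2 (Or.inl rfl)
        simpa [eq_comm] using this
    subst hx
    refine ⟨rfl, ?_⟩
    have h3 : ∀ w : M, w = x ∨ w = y ↔ w = x ∨ w = y' := by
      intro w
      rcases (h1 (upair x y)).1 (Or.inr rfl) with h2 | h2
      · -- y = x
        have hy : y ∈ upair x x := h2 ▸ mem_upair.2 (Or.inr rfl)
        have hy : y = x := by simpa using hy
        subst hy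
        rcases (h1 (upair y y')).2 (Or.inr rfl) with h4 | h4
        · have h5 : y' ∈ upair y y := h4 ▸ mem_upair.2 (Or.inr rfl)
          have h5 : y' = y := by simpa using h5
          rw [h5]
        · have h5 : y' ∈ upair y y := h4 ▸ mem_upair.2 (Or.inr rfl)
          have h5 : y' = y := by simpa using h5
          rw [h5]
      · rw [← mem_upair, ← mem_upair, h2]
    rcases (h3 y).1 (Or.inr rfl) with h4 | h4
    · subst h4
      rcases (h3 y').2 (Or.inr rfl) with h5 | h5
      · exact h5.symm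
      · exact h5.symm
    · exact h4
  · rintro ⟨rfl, rfl⟩; rfl

theorem small_sUnion (x : M) : Small (fun w : M => ∃ y, y ∈ x ∧ w ∈ y) := (ZFC.out (M := M)).union x

/-- the union of a set -/
noncomputable def sUnion (x : M) : M := comp (fun w : M => ∃ y, y ∈ x ∧ w ∈ y)

@[simp] theorem mem_sUnion {x w : M} : w ∈ sUnion x ↔ ∃ y, y ∈ x ∧ w ∈ y := mem_comp (small_sUnion x)

/-- the union of two sets -/
noncomputable def union (x y : M) : M := sUnion (upair x y)

@[simp] theorem mem_union {x y w : M} : w ∈ union x y ↔ w ∈ x ∨ w ∈ y := by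
  simp [union]

theorem small_power (x : M) : Small (fun w : M => ∀ v, v ∈ w → v ∈ x) :=
  (ZFC.out (M := M)).powerset x

/-- the power set -/
noncomputable def power (x : M) : M := comp (fun w : M => ∀ v, v ∈ w → v ∈ x)

@[simp] theorem mem_power {x w : M} : w ∈ power x ↔ ∀ v, v ∈ w → v ∈ x := mem_comp (small_power x)

/-- the successor of a set -/
noncomputable def succ (x : M) : M := union x (upair x x)

@[simp] theorem mem_succ {x w : M} : w ∈ succ x ↔ w ∈ x ∨ w = x := by simp [succ]

section dbl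

variable {Γ : Type v} [Ctx M Γ]

@[fun_prop]
theorem dbl_upair {f g : Γ → M} (hf : Dbl M f) (hg : Dbl M g) :
    Dbl M (fun γ => upair (f γ) (g γ)) :=
  dbl_comp (fun γ => small_upair _ _) (by fun_prop)

@[fun_prop]
theorem dbl_opair {f g : Γ → M} (hf : Dbl M f) (hg : Dbl M g) :
    Dbl M (fun γ => opair (f γ) (g γ)) := by
  unfold opair
  fun_prop

@[fun_prop]
theorem dbl_sUnion {f : Γ → M} (hf : Dbl M f) : Dbl M (fun γ => sUnion (f γ)) :=
  dbl_comp (fun γ => small_sUnion _) (by fun_prop)

@[fun_prop]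
theorem dbl_union {f g : Γ → M} (hf : Dbl M f) (hg : Dbl M g) :
    Dbl M (fun γ => union (f γ) (g γ)) := by
  unfold union
  fun_prop

@[fun_prop]
theorem dbl_power {f : Γ → M} (hf : Dbl M f) : Dbl M (fun γ => power (f γ)) :=
  dbl_comp (fun γ => small_power _) (by fun_prop)

@[fun_prop]
theorem dbl_succ {f : Γ → M} (hf : Dbl M f) : Dbl M (fun γ => succ (f γ)) := by
  unfold succ
  fun_prop

end dbl

theorem opair_mem_power {x y a b : M} (hx : x ∈ a) (hy : y ∈ b) :
    opair x y ∈ power (power (union a b)) := by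
  simp only [opair, mem_power, mem_upair, mem_union]
  rintro v (rfl | rfl) w hw
  · rw [mem_upair] at hw
    rcases hw with rfl | rfl <;> exact Or.inl hx
  · rw [mem_upair] at hw
    rcases hw with rfl | rfl
    · exact Or.inl hx
    · exact Or.inr hy

theorem small_prod (a b : M) : Small (fun z : M => ∃ x, x ∈ a ∧ ∃ y, y ∈ b ∧ z = opair x y) := by
  refine small_of_subset (by fun_prop) (power (power (union a b))) ?_
  rintro z ⟨x, hx, y, hy, rfl⟩
  exact opair_mem_power hx hy

/-- the cartesian product -/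
noncomputable def prod (a b : M) : M := comp (fun z : M => ∃ x, x ∈ a ∧ ∃ y, y ∈ b ∧ z = opair x y)

theorem mem_prod {a b z : M} : z ∈ prod a b ↔ ∃ x, x ∈ a ∧ ∃ y, y ∈ b ∧ z = opair x y :=
  mem_comp (small_prod a b)

@[simp] theorem opair_mem_prod {a b x y : M} : opair x y ∈ prod a b ↔ x ∈ a ∧ y ∈ b := by
  rw [mem_prod]
  constructor
  · rintro ⟨x', hx, y', hy, h⟩
    rw [opair_inj] at h
    obtain ⟨rfl, rfl⟩ := h
    exact ⟨hx, hy⟩
  · rintro ⟨hx, hy⟩
    exact ⟨x, hx, y, hy, rfl⟩

@[fun_prop]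
theorem dbl_prod {Γ : Type v} [Ctx M Γ] {f g : Γ → M} (hf : Dbl M f) (hg : Dbl M g) :
    Dbl M (fun γ => prod (f γ) (g γ)) :=
  dbl_comp (fun γ => small_prod _ _) (by fun_prop)

/-! ### Definite description -/

/-- The unique `y` with `D y`, if there is one. -/
noncomputable def iota (D : M → Prop) : M := open Classical in
  if h : ∃! y, D y then h.choose else empty

theorem iota_spec {D : M → Prop} (h : ∃! y, D y) : D (iota D) := by
  rw [iota, dif_pos h]
  exact h.choose_spec.1

theorem iota_eq {D : M → Prop} {y : M} (h : D y) (h' : ∀ z, D z → z = y) : iota D = y :=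
  h' _ (iota_spec ⟨y, h, h'⟩)

theorem dbl_iota {Γ : Type v} [Ctx M Γ] {D : Γ → M → Prop}
    (hD : Dbl M (fun z : Γ × M => D z.1 z.2)) : Dbl M (fun γ => iota (D γ)) := by
  apply dbl_of_graph
  have h1 : Dbl M (fun z : (Γ × M) × M => D z.1.1 z.2) :=
    Dbl.comp (f := fun z : (Γ × M) × M => (z.1.1, z.2)) (g := fun z : Γ × M => D z.1 z.2)
      (by fun_prop) hD
  have h2 : Dbl M (fun z : ((Γ × M) × M) × M => D z.1.1.1 z.2) :=
    Dbl.comp (f := fun z : ((Γ × M) × M) × M => (z.1.1.1, z.2))
      (g := fun z : Γ × M => D z.1 z.2) (by fun_prop) hD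
  refine Dbl.congr_prop (p := fun z : Γ × M => ((∃ y, D z.1 y ∧ ∀ y', D z.1 y' → y' = y) ∧
    D z.1 z.2) ∨ (¬ (∃ y, D z.1 y ∧ ∀ y', D z.1 y' → y' = y) ∧ z.2 = empty)) ?_ ?_
  · fun_prop
  · intro z
    by_cases h : ∃! y, D z.1 y
    · have h' : ∃ y, D z.1 y ∧ ∀ y', D z.1 y' → y' = y := h
      constructor
      · intro h3
        exact Or.inl ⟨h', h3 ▸ iota_spec h⟩
      · rintro (⟨_, h3⟩ | ⟨h3, _⟩)
        · exact h.unique (iota_spec h) h3
        · exact (h3 h').elim
    · have h' : ¬ ∃ y, D z.1 y ∧ ∀ y', D z.1 y' → y' = y := h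
      rw [iota, dif_neg h]
      constructor
      · intro h3
        exact Or.inr ⟨h', h3.symm⟩
      · rintro (⟨h3, _⟩ | ⟨_, h3⟩)
        · exact (h' h3).elim
        · exact h3.symm

/-- the value of the function `f` at `x` -/
noncomputable def fapp (f x : M) : M := iota (fun y => opair x y ∈ f)

@[fun_prop]
theorem dbl_fapp {Γ : Type v} [Ctx M Γ] {f g : Γ → M} (hf : Dbl M f) (hg : Dbl M g) :
    Dbl M (fun γ => fapp (f γ) (g γ)) :=
  dbl_iota (by fun_prop)

/-- first projection -/
noncomputable def fstp (z : M) : M := iota (fun x => ∃ y, z = opair x y)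

/-- second projection -/
noncomputable def sndp (z : M) : M := iota (fun y => ∃ x, z = opair x y)

@[simp] theorem fstp_opair (x y : M) : fstp (opair x y) = x :=
  iota_eq ⟨y, rfl⟩ fun _ ⟨_, h⟩ => (opair_inj.1 h).1.symm

@[simp] theorem sndp_opair (x y : M) : sndp (opair x y) = y :=
  iota_eq ⟨x, rfl⟩ fun _ ⟨_, h⟩ => (opair_inj.1 h).2.symm

@[fun_prop]
theorem dbl_fstp {Γ : Type v} [Ctx M Γ] {f : Γ → M} (hf : Dbl M f) :
    Dbl M (fun γ => fstp (f γ)) :=
  dbl_iota (by fun_prop)

@[fun_prop]
theorem dbl_sndp {Γ : Type v} [Ctx M Γ] {f : Γ → M} (hf : Dbl M f) :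
    Dbl M (fun γ => sndp (f γ)) :=
  dbl_iota (by fun_prop)

/-- the graph of a definable function on a set -/
noncomputable def graph (f : M → M) (a : M) : M := comp (fun z => ∃ x, x ∈ a ∧ z = opair x (f x))

theorem small_graph {f : M → M} (hf : Dbl M f) (a : M) :
    Small (fun z => ∃ x, x ∈ a ∧ z = opair x (f x)) := by
  obtain ⟨b, hb⟩ := small_image (f := fun x => opair x (f x)) (by fun_prop) a
  exact ⟨b, fun x => by rw [hb]; simp only [eq_comm]⟩

theorem opair_mem_graph {f : M → M} (hf : Dbl M f) {a x y : M} :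
    opair x y ∈ graph f a ↔ x ∈ a ∧ f x = y := by
  rw [graph, mem_comp (small_graph hf a)]
  constructor
  · rintro ⟨x', hx, h⟩
    rw [opair_inj] at h
    obtain ⟨rfl, rfl⟩ := h
    exact ⟨hx, rfl⟩
  · rintro ⟨hx, rfl⟩
    exact ⟨x, hx, rfl⟩

theorem mem_graph {f : M → M} (hf : Dbl M f) {a z : M} :
    z ∈ graph f a ↔ ∃ x, x ∈ a ∧ z = opair x (f x) := by
  rw [graph, mem_comp (small_graph hf a)]

theorem fapp_graph {f : M → M} (hf : Dbl M f) {a x : M} (hx : x ∈ a) :
    fapp (graph f a) x = f x :=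
  iota_eq ((opair_mem_graph hf).2 ⟨hx, rfl⟩) fun _ h => ((opair_mem_graph hf).1 h).2.symm

/-- the image of a set under a definable function -/
noncomputable def image (f : M → M) (a : M) : M := comp (fun y => ∃ x, x ∈ a ∧ f x = y)

theorem mem_image {f : M → M} (hf : Dbl M f) {a y : M} :
    y ∈ image f a ↔ ∃ x, x ∈ a ∧ f x = y := mem_comp (small_image hf a)

end ST

end Pool.Agent.Lib_helper27
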